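import Pool.Agent.Lib.MP_53fa4a_an_AF.Defs

/-!
# MP_53fa4a_an (project AF): the values of all subspaces are positive
-/

set_option autoImplicit false

open MeasureTheory Set Filter Metric
open scoped ENNReal Topology ComplexConjugate

namespace Pool.Agent.SpecAF

open Pool.Agent.SpecND (E ee)

variable {d : ℕ}

private theorem Arith_lin (m : Submodule ℝ (E d) → ℝ) (T : ℝ) :
    ∀ (l : List (Submodule ℝ (E d))) (W : Submodule ℝ (E d)),
      cc m l W = cc (fun W => m W - T) l W + cc (fun _ => T) l W := by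
  intro l
  induction l with
  | nil =>
    intro W
    simp only [cc]
    ring
  | cons F l ih =>
    intro W
    simp only [cc]
    rw [ih W, ih (W ⊔ F)]
    ring

private theorem Arith_const (T : ℝ) :
    ∀ (l : List (Submodule ℝ (E d))) (W W' : Submodule ℝ (E d)),
      cc (fun _ => T) l W = cc (fun _ => T) l W' := by
  intro l
  induction l with
  | nil =>
    intro W W'
    rfl
  | cons F l ih =>
    intro W W'
    simp only [cc]
    rw [ih W W', ih (W ⊔ F) (W' ⊔ F)]

private theorem Arith_cc {L : Finset (Submodule ℝ (E d))}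
    (hsup : ∀ W ∈ L, ∀ W' ∈ L, W ⊔ W' ∈ L) {V : Submodule ℝ (E d)}
    {g : Submodule ℝ (E d) → ℝ} {e : ℝ} (hg : ∀ W ∈ L, V < W → |g W| ≤ e) :
    ∀ l : List (Submodule ℝ (E d)), (∀ F ∈ l, F ∈ L) → ∀ W ∈ L, V < W →
      |cc g l W| ≤ 2 ^ l.length * e := by
  intro l
  induction l with
  | nil =>
    intro _ W hW hV
    simp only [cc, List.length_nil, pow_zero, one_mul]
    exact hg W hW hV
  | cons F l ih =>
    intro hl W hW hV
    have h1 := ih (fun F' hF' => hl F' (List.mem_cons_of_mem _ hF')) W hW hV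
    have h2 := ih (fun F' hF' => hl F' (List.mem_cons_of_mem _ hF')) (W ⊔ F)
      (hsup W hW F (hl F List.mem_cons_self)) (hV.trans_le le_sup_left)
    simp only [cc, List.length_cons, pow_succ]
    have h3 := abs_sub (cc g l W) (cc g l (W ⊔ F))
    linarith

private theorem Arith_ccV {L : Finset (Submodule ℝ (E d))}
    (hsup : ∀ W ∈ L, ∀ W' ∈ L, W ⊔ W' ∈ L) {V : Submodule ℝ (E d)} (hVL : V ∈ L)
    {g : Submodule ℝ (E d) → ℝ} {e : ℝ} (hg : ∀ W ∈ L, V < W → |g W| ≤ e) :
    ∀ l : List (Submodule ℝ (E d)), (∀ F ∈ l, F ∈ L ∧ ¬ F ≤ V) →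
      |cc g l V - g V| ≤ (2 ^ l.length - 1) * e := by
  intro l
  induction l with
  | nil =>
    intro _
    simp [cc]
  | cons F l ih =>
    intro hl
    have h1 := ih (fun F' hF' => hl F' (List.mem_cons_of_mem _ hF'))
    obtain ⟨hFL, hFV⟩ := hl F List.mem_cons_self
    have h2 := Arith_cc hsup hg l (fun F' hF' => (hl F' (List.mem_cons_of_mem _ hF')).1) (V ⊔ F)
      (hsup V hVL F hFL) (lt_of_le_not_ge le_sup_left fun h => hFV (le_sup_right.trans h))
    simp only [cc, List.length_cons, pow_succ]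
    have h3 := abs_sub (cc g l V - g V) (cc g l (V ⊔ F))
    have e1 : cc g l V - cc g l (V ⊔ F) - g V = cc g l V - g V - cc g l (V ⊔ F) := by ring
    rw [e1]
    linarith

private theorem Arith_cp {L : Finset (Submodule ℝ (E d))}
    (hsup : ∀ W ∈ L, ∀ W' ∈ L, W ⊔ W' ∈ L) {V : Submodule ℝ (E d)}
    {m : Submodule ℝ (E d) → ℝ} {e : ℝ} (hg : ∀ W ∈ L, V < W → m W ≤ e) :
    ∀ l : List (Submodule ℝ (E d)), (∀ F ∈ l, F ∈ L) → ∀ W ∈ L, V < W →
      cp m l W ≤ 2 ^ l.length * e := by
  intro l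
  induction l with
  | nil =>
    intro _ W hW hV
    simp only [cp, List.length_nil, pow_zero, one_mul]
    exact hg W hW hV
  | cons F l ih =>
    intro hl W hW hV
    have h1 := ih (fun F' hF' => hl F' (List.mem_cons_of_mem _ hF')) W hW hV
    have h2 := ih (fun F' hF' => hl F' (List.mem_cons_of_mem _ hF')) (W ⊔ F)
      (hsup W hW F (hl F List.mem_cons_self)) (hV.trans_le le_sup_left)
    simp only [cp, List.length_cons, pow_succ]
    linarith

private theorem Arith_cpV {L : Finset (Submodule ℝ (E d))}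
    (hsup : ∀ W ∈ L, ∀ W' ∈ L, W ⊔ W' ∈ L) {V : Submodule ℝ (E d)} (hVL : V ∈ L)
    {m : Submodule ℝ (E d) → ℝ} {e : ℝ} (hg : ∀ W ∈ L, V < W → m W ≤ e) :
    ∀ l : List (Submodule ℝ (E d)), (∀ F ∈ l, F ∈ L ∧ ¬ F ≤ V) →
      cp m l V ≤ m V + (2 ^ l.length - 1) * e := by
  intro l
  induction l with
  | nil =>
    intro _
    simp [cp]
  | cons F l ih =>
    intro hl
    have h1 := ih (fun F' hF' => hl F' (List.mem_cons_of_mem _ hF'))
    obtain ⟨hFL, hFV⟩ := hl F List.mem_cons_self
    have h2 := Arith_cp hsup hg l (fun F' hF' => (hl F' (List.mem_cons_of_mem _ hF')).1) (V ⊔ F)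
      (hsup V hVL F hFL) (lt_of_le_not_ge le_sup_left fun h => hFV (le_sup_right.trans h))
    simp only [cp, List.length_cons, pow_succ]
    linarith

/-- Proof. Let `N = L.card`, `q = 2 ^ N`, `η = (16 q) ^ (-(N + 2))`. By homogeneity let `m ⊤ = 1`
(divide `m` by `m ⊤`; `cc` and `cp` are linear in `m`). For `V ∈ L` let `h V` be the number of the
`W ∈ L` with `V < W`. Claim: `|m V - 1| ≤ (8 q) ^ (h V) * (8 q) * η` for all `V ∈ L`, by strong
induction on `h V`; for `V = ⊤` it is clear. Let `V ≠ ⊤` and `l` an enumeration without repetition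
of the `W ∈ L` with not `W ≤ V` (for instance `(L.filter …).toList`), `l ≠ []` as `⊤ ∈ l`, and
`l.length ≤ N`.

Expansion (induction on `l`, for lists `l` of members of `L` none of which is `≤ V`): let `e ≥ 0`
satisfy `|m W - 1| ≤ e` for all `W ∈ L` with `V < W`. Then for `W ∈ L`, `V < W`: `|cc m l W - cc 1
l W| ≤ 2 ^ l.length * e`, where `cc 1 l W` (the constant function `1`) is `0` for `l ≠ []` and `1`
for `l = []`, and `0 ≤ cp m l W ≤ 2 ^ l.length * (1 + e)`; and `|cc m l V - (m V - 1)| ≤ (2 ^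
l.length) * e` if `l ≠ []` (all other terms of the alternating sum have `V ⊔ … > V`; the sum of
their signs is `-1`), `cp m l V ≤ m V + 2 ^ l.length * (1 + e)`.

The members `W > V` have `h W < h V`, so we can take `e = (8 q) ^ (h V) * η ≤ 1` (the claim for `h
V - 1`; if `h V = 0` there is no such `W`, but then `V = ⊤`). So `|m V - 1| ≤ |cc m l V| + q e ≤ η
(m V + 2 q) + q e ≤ η |m V - 1| + 3 q η + q e`, and as `η ≤ 1 / 2`, `|m V - 1| ≤ 2 (3 q η + q e) ≤
8 q * max η e`, which is the claim (`e ≥ η`). Finally `|m ⊥ - 1| ≤ (8 q) ^ (N + 1) η < 1`. -/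
theorem arith (L : Finset (Submodule ℝ (E d))) (hbot : ⊥ ∈ L) (htop : ⊤ ∈ L)
    (hsup : ∀ W ∈ L, ∀ W' ∈ L, W ⊔ W' ∈ L) :
    ∃ η : ℝ, 0 < η ∧ ∀ m : Submodule ℝ (E d) → ℝ, (∀ W ∈ L, 0 ≤ m W) → 0 < m ⊤ →
      (∀ V ∈ L, V ≠ ⊤ → ∀ l : List (Submodule ℝ (E d)), (∀ W, W ∈ l ↔ W ∈ L ∧ ¬ W ≤ V) →
        l.Nodup → |cc m l V| ≤ η * cp m l V) → 0 < m ⊥ := by
  classical
  obtain ⟨N, hN⟩ : ∃ N : ℕ, N = L.card := ⟨_, rfl⟩
  obtain ⟨q, hq⟩ : ∃ q : ℝ, q = 2 ^ N := ⟨_, rfl⟩
  have hq1 : 1 ≤ q := by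
    rw [hq]
    exact one_le_pow₀ (by norm_num)
  obtain ⟨η, hη⟩ : ∃ η : ℝ, η = ((16 * q) ^ (N + 2))⁻¹ := ⟨_, rfl⟩
  have hη0 : 0 < η := by
    rw [hη]
    positivity
  have hηN : (8 * q) ^ (N + 1) * η < 1 := by
    rw [hη, ← div_eq_mul_inv, div_lt_one (by positivity)]
    calc (8 * q) ^ (N + 1) ≤ (16 * q) ^ (N + 1) :=
          pow_le_pow_left₀ (by positivity) (by linarith) _
      _ < (16 * q) ^ (N + 2) := pow_lt_pow_right₀ (by linarith) (by omega)
  have hηn : ∀ n ≤ N + 1, (8 * q) ^ n * η ≤ 1 := fun n hn =>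
    (mul_le_mul_of_nonneg_right (pow_le_pow_right₀ (by linarith) hn) hη0.le).trans hηN.le
  have hη2 : η ≤ 1 / 2 := by
    have h1 := hηn 1 (by omega)
    rw [pow_one] at h1
    nlinarith
  refine ⟨η, hη0, fun m hm hT hcc => ?_⟩
  obtain ⟨T, hTe⟩ : ∃ T : ℝ, T = m ⊤ := ⟨_, rfl⟩
  rw [← hTe] at hT
  obtain ⟨ht, hht⟩ : ∃ ht : Submodule ℝ (E d) → ℕ, ht = fun V => {W ∈ L | V < W}.card :=
    ⟨_, rfl⟩
  have hhN : ∀ V, ht V ≤ N := fun V => by
    rw [hht, hN]
    exact Finset.card_filter_le _ _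
  have hhlt : ∀ V W, W ∈ L → V < W → ht W + 1 ≤ ht V := fun V W hW hVW => by
    rw [hht]
    refine Finset.card_lt_card ⟨fun U hU => ?_, fun hsub => ?_⟩
    · rw [Finset.mem_filter] at hU ⊢
      exact ⟨hU.1, hVW.trans hU.2⟩
    · have h1 := hsub (Finset.mem_filter.2 ⟨hW, hVW⟩)
      exact lt_irrefl _ (Finset.mem_filter.1 h1).2
  have claim : ∀ n : ℕ, ∀ V ∈ L, ht V = n → |m V - T| ≤ (8 * q) ^ (n + 1) * η * T := by
    intro n
    induction n using Nat.strong_induction_on with
    | _ n ih =>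
      intro V hV hn
      by_cases hVT : V = ⊤
      · rw [hVT, ← hTe, sub_self, abs_zero]
        positivity
      obtain ⟨e, he⟩ : ∃ e : ℝ, e = (8 * q) ^ n * η * T := ⟨_, rfl⟩
      have he0 : 0 < e := by
        rw [he]
        positivity
      have heT : e ≤ T := by
        rw [he]
        have := hηn n (by rw [← hn]; exact (hhN V).trans (by omega))
        nlinarith
      have hηe : η * T ≤ e := by
        rw [he, mul_assoc]
        have h1 : (1 : ℝ) ≤ (8 * q) ^ n := one_le_pow₀ (by linarith)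
        have h2 : 0 < η * T := by positivity
        nlinarith
      have hW : ∀ W ∈ L, V < W → |m W - T| ≤ e := by
        intro W hWL hVW
        have h1 := hhlt V W hWL hVW
        have h2 := ih (ht W) (by omega) W hWL rfl
        refine h2.trans ?_
        rw [he, mul_assoc, mul_assoc]
        exact mul_le_mul_of_nonneg_right (pow_le_pow_right₀ (by linarith) (by omega))
          (by positivity)
      obtain ⟨l, hl⟩ : ∃ l : List (Submodule ℝ (E d)), l = {W ∈ L | ¬ W ≤ V}.toList := ⟨_, rfl⟩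
      have hlm : ∀ W, W ∈ l ↔ W ∈ L ∧ ¬ W ≤ V := fun W => by
        rw [hl, Finset.mem_toList, Finset.mem_filter]
      have hln : l.Nodup := by
        rw [hl]
        exact Finset.nodup_toList _
      have hlN : l.length ≤ N := by
        rw [hl, Finset.length_toList, hN]
        exact Finset.card_filter_le _ _
      have hlq : (2 : ℝ) ^ l.length ≤ q := by
        rw [hq]
        exact pow_le_pow_right₀ (by norm_num) hlN
      have hl0 : (1 : ℝ) ≤ 2 ^ l.length := one_le_pow₀ (by norm_num)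
      have hle : ∀ W : Submodule ℝ (E d), cc (fun _ : Submodule ℝ (E d) => T) l W = 0 := by
        intro W
        have htl : ⊤ ∈ l := (hlm ⊤).2 ⟨htop, fun h => hVT (top_le_iff.1 h)⟩
        cases hc : l with
        | nil =>
          rw [hc] at htl
          exact absurd htl List.not_mem_nil
        | cons F l' =>
          simp only [cc]
          rw [Arith_const T l' W (W ⊔ F), sub_self]
      have h1 := hcc V hV hVT l hlm hln
      have h2 := Arith_ccV hsup hV (g := fun W => m W - T) hW l fun F hF => (hlm F).1 hF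
      have h3 := Arith_lin m T l V
      rw [hle V, add_zero] at h3
      rw [← h3] at h2
      have h4 := Arith_cpV hsup hV (m := m) (e := T + e) (fun W hWL hVW => by
        have := (abs_le.1 (hW W hWL hVW)).2
        linarith) l fun F hF => (hlm F).1 hF
      have h5 : ((2 : ℝ) ^ l.length - 1) * e ≤ q * e :=
        mul_le_mul_of_nonneg_right (by linarith) he0.le
      have h6 : ((2 : ℝ) ^ l.length - 1) * (T + e) ≤ (q - 1) * (T + e) :=
        mul_le_mul_of_nonneg_right (by linarith) (by linarith)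
      have h7 : |m V - T| ≤ |cc m l V| + q * e := by
        have h8 := abs_sub_abs_le_abs_sub (m V - T) (cc m l V)
        rw [abs_sub_comm (m V - T) (cc m l V)] at h8
        linarith
      have h9 : m V ≤ T + |m V - T| := by
        have := le_abs_self (m V - T)
        linarith
      have h10 : η * cp m l V ≤ η * (T + |m V - T| + (q - 1) * (T + e)) :=
        mul_le_mul_of_nonneg_left (by linarith) hη0.le
      have h11 : η * |m V - T| ≤ 1 / 2 * |m V - T| :=
        mul_le_mul_of_nonneg_right hη2 (abs_nonneg _)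
      have h12 : η * (T + (q - 1) * (T + e)) ≤ η * (2 * q * T) := by
        refine mul_le_mul_of_nonneg_left ?_ hη0.le
        nlinarith
      have h13 : η * (2 * q * T) ≤ 2 * q * e := by
        have : 2 * q * (η * T) ≤ 2 * q * e := mul_le_mul_of_nonneg_left hηe (by positivity)
        linarith
      have h14 : η * (T + |m V - T| + (q - 1) * (T + e)) =
          η * |m V - T| + η * (T + (q - 1) * (T + e)) := by ring
      have h15 : (8 * q) ^ (n + 1) * η * T = 8 * q * e := by
        rw [he]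
        ring
      rw [h15]
      have h16 : 0 < q * e := by positivity
      linarith
  have h1 := claim (ht ⊥) ⊥ hbot rfl
  have h2 : (8 * q) ^ (ht ⊥ + 1) * η ≤ (8 * q) ^ (N + 1) * η :=
    mul_le_mul_of_nonneg_right (pow_le_pow_right₀ (by linarith)
      (by have := hhN ⊥; omega)) hη0.le
  have h3 : (8 * q) ^ (ht ⊥ + 1) * η * T < 1 * T := mul_lt_mul_of_pos_right (by linarith) hT
  have h4 := (abs_le.1 h1).1
  linarith

end Pool.Agent.SpecAF
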