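import Pool.Agent.Lib.MP_53fa4a_an_AF.MassL

/-!
# MP_53fa4a_an (project AF): a diffraction measure has an atom at the origin
-/

set_option autoImplicit false

open MeasureTheory Set Filter Metric
open scoped ENNReal Topology ComplexConjugate

namespace Pool.Agent.SpecAF

open Pool.Agent.SpecND (E ee)

variable {d : ℕ}

/-- Proof. `ν (closedBall 0 δ)` decreases to `ν {0}` as `δ → 0` (`ν` is finite on balls; use `δ =
1 / (n + 1)`), so it suffices to show `|Ω| - ε ≤ ν (closedBall 0 (2 δ))` for all `δ, ε > 0`. Take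
a continuous `f` with compact support, `0 ≤ f ≤ 1`, `f = 1` on `closedBall 0 δ`, `f = 0` outside
of `closedBall 0 (2 δ)` (for instance `f x = max 0 (min 1 (2 - ‖x‖ / δ))`). By `mass_lower` for
large `k` (`R k → ∞`; the card of `F k` is positive because the set is `Λ ∩ closedBall (z k) (R
k)` and `rel_dense` holds) `∫ f x * (‖∑ ee l x‖ ^ 2 / #F) ≥ |Ω| - ε`. Pass to the limit: `|Ω| - ε
≤ ∫ f ∂ν ≤ ν.real (closedBall 0 (2 δ))`. -/
theorem atom_ge (hd : 0 < d) {Ω : Set (E d)} (hm : MeasurableSet Ω)
    (hb : Bornology.IsBounded Ω) (hpos : volume Ω ≠ 0) {Λ : Set (E d)} (hs : IsSpectrum Λ Ω)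
    {ν : Measure (E d)} (hν : IsDiffraction Λ ν) : volume Ω ≤ ν {0} := by
  obtain ⟨hlf, z, R, F, hR, hF, hlim⟩ := hν
  have hfinΩ : volume Ω ≠ ⊤ := hb.measure_lt_top.ne
  obtain ⟨T, hT, hdense⟩ := rel_dense hm hb hpos hs
  have hball : ∀ δ : ℝ, 0 < δ → ∀ ε : ℝ, 0 < ε →
      volume.real Ω - ε ≤ ν.real (closedBall (0 : E d) (2 * δ)) := by
    intro δ hδ ε hε
    obtain ⟨R₀, hR₀⟩ := mass_lower hd hm hb hpos hs hδ hε
    let f : E d → ℝ := fun x => max 0 (min 1 (2 - ‖x‖ / δ))
    have hfc : Continuous f :=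
      continuous_const.max (continuous_const.min (continuous_const.sub
        (continuous_norm.div_const δ)))
    have hf0 : ∀ x, 0 ≤ f x := fun x => le_max_left _ _
    have hf1 : ∀ x, f x ≤ 1 := fun x => max_le zero_le_one (min_le_left _ _)
    have hfin : ∀ x ∈ closedBall (0 : E d) δ, f x = 1 := by
      intro x hx
      rw [mem_closedBall_zero_iff] at hx
      have h1 : ‖x‖ / δ ≤ 1 := (div_le_one hδ).2 hx
      simp only [f]
      rw [min_eq_left (by linarith), max_eq_right zero_le_one]
    have hfout : ∀ x, x ∉ closedBall (0 : E d) (2 * δ) → f x = 0 := by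
      intro x hx
      rw [mem_closedBall_zero_iff, not_le] at hx
      have h1 : 2 < ‖x‖ / δ := (lt_div_iff₀ hδ).2 hx
      simp only [f]
      exact max_eq_left ((min_le_right _ _).trans (by linarith))
    have hcs : HasCompactSupport f :=
      HasCompactSupport.intro (isCompact_closedBall 0 (2 * δ)) hfout
    have hl := hlim f hfc hcs
    have hev : ∀ᶠ k in atTop,
        volume.real Ω - ε ≤ ∫ x, f x * (‖∑ l ∈ F k, ee l x‖ ^ 2 / (F k).card) := by
      filter_upwards [hR.eventually_ge_atTop (max R₀ T)] with k hk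
      have h1 := hR₀ (R k) ((le_max_left _ _).trans hk) (z k) (F k) (hF k)
      have hne : (F k).Nonempty := by
        obtain ⟨l, hlΛ, hdl⟩ := hdense (z k)
        refine ⟨l, ?_⟩
        have h2 : l ∈ (F k : Set (E d)) := by
          rw [hF k]
          exact ⟨hlΛ, mem_closedBall.2 (hdl.le.trans ((le_max_right _ _).trans hk))⟩
        exact h2
      have hcard : (0 : ℝ) < (F k).card := by exact_mod_cast hne.card_pos
      have hgc : Continuous fun x : E d => ‖∑ l ∈ F k, ee l x‖ ^ 2 :=
        ((continuous_finsetSum _ fun l _ => Pool.Agent.SpecND.continuous_ee l).norm).pow 2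
      have h2 : ∫ x in closedBall (0 : E d) δ, ‖∑ l ∈ F k, ee l x‖ ^ 2 ≤
          ∫ x, f x * ‖∑ l ∈ F k, ee l x‖ ^ 2 := by
        rw [← integral_indicator measurableSet_closedBall]
        refine integral_mono ?_ ?_ ?_
        · exact (hgc.continuousOn.integrableOn_compact
            (isCompact_closedBall _ _)).integrable_indicator measurableSet_closedBall
        · exact (hfc.mul hgc).integrable_of_hasCompactSupport hcs.mul_right
        · intro x
          by_cases hx : x ∈ closedBall (0 : E d) δ
          · simp only [indicator_of_mem hx, hfin x hx, one_mul, le_refl]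
          · rw [indicator_of_notMem hx]
            exact mul_nonneg (hf0 x) (by positivity)
      have h3 : ∫ x, f x * (‖∑ l ∈ F k, ee l x‖ ^ 2 / (F k).card) =
          (∫ x, f x * ‖∑ l ∈ F k, ee l x‖ ^ 2) / (F k).card := by
        rw [← integral_div]
        congr 1
        funext x
        ring
      rw [h3, le_div_iff₀ hcard]
      exact h1.trans h2
    have h4 : volume.real Ω - ε ≤ ∫ x, f x ∂ν := ge_of_tendsto hl hev
    refine h4.trans ?_
    have hfi : ∫ x in closedBall (0 : E d) (2 * δ), f x ∂ν = ∫ x, f x ∂ν :=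
      setIntegral_eq_integral_of_forall_compl_eq_zero (fun x hx => hfout x hx)
    rw [← hfi]
    have hfinν : ν (closedBall (0 : E d) (2 * δ)) < ⊤ :=
      (isCompact_closedBall _ _).measure_lt_top
    calc ∫ x in closedBall (0 : E d) (2 * δ), f x ∂ν
        ≤ ∫ _x in closedBall (0 : E d) (2 * δ), (1 : ℝ) ∂ν := by
          refine setIntegral_mono_on ?_ ?_ measurableSet_closedBall (fun x _ => hf1 x)
          · exact hfc.continuousOn.integrableOn_compact (isCompact_closedBall _ _)
          · exact integrableOn_const hfinν.ne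
      _ = ν.real (closedBall (0 : E d) (2 * δ)) := by simp
  have h5 : ∀ δ : ℝ, 0 < δ → volume Ω ≤ ν (closedBall (0 : E d) (2 * δ)) := by
    intro δ hδ
    have hfinν : ν (closedBall (0 : E d) (2 * δ)) < ⊤ :=
      (isCompact_closedBall _ _).measure_lt_top
    have h6 : volume.real Ω ≤ ν.real (closedBall (0 : E d) (2 * δ)) := by
      refine le_of_forall_pos_le_add fun ε hε => ?_
      have := hball δ hδ ε hε
      linarith
    exact (ENNReal.toReal_le_toReal hfinΩ hfinν.ne).1 h6
  have hanti : Antitone fun n : ℕ => closedBall (0 : E d) (2 * (1 / ((n : ℝ) + 1))) := by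
    intro m n hmn
    refine closedBall_subset_closedBall ?_
    have h7 : (m : ℝ) ≤ n := by exact_mod_cast hmn
    have h8 : 1 / ((n : ℝ) + 1) ≤ 1 / ((m : ℝ) + 1) :=
      one_div_le_one_div_of_le (by positivity) (by linarith)
    linarith
  have h6 := tendsto_measure_iInter_atTop (μ := ν)
    (s := fun n : ℕ => closedBall (0 : E d) (2 * (1 / ((n : ℝ) + 1))))
    (fun n => measurableSet_closedBall.nullMeasurableSet) hanti
    ⟨0, ((isCompact_closedBall _ _).measure_lt_top).ne⟩
  have h7 : (⋂ n : ℕ, closedBall (0 : E d) (2 * (1 / ((n : ℝ) + 1)))) = {0} := by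
    ext x
    simp only [mem_iInter, mem_closedBall_zero_iff, mem_singleton_iff]
    constructor
    · intro h
      have h9 : Tendsto (fun n : ℕ => 2 * (1 / ((n : ℝ) + 1))) atTop (𝓝 (2 * 0)) :=
        tendsto_one_div_add_atTop_nhds_zero_nat.const_mul 2
      rw [mul_zero] at h9
      have h10 : ‖x‖ ≤ 0 := ge_of_tendsto' h9 h
      exact norm_le_zero_iff.1 h10
    · rintro rfl n
      rw [norm_zero]
      positivity
  rw [h7] at h6
  exact ge_of_tendsto' h6 fun n => h5 _ (by positivity)

end Pool.Agent.SpecAF
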