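import Pool.Agent.Lib.MP_53fa4a_an_AF.Defs

/-!
# MP_53fa4a_an (project AF): measures on affine subspaces of positive dimension have no atoms
-/

set_option autoImplicit false

open MeasureTheory Set Filter Metric
open scoped ENNReal Topology ComplexConjugate

namespace Pool.Agent.SpecAF

open Pool.Agent.SpecND (E ee)

variable {d : ℕ}

/-- Proof. `W` is a nontrivial finite-dimensional real space, so `volume` on `W` has no atoms, and
the preimage of `{z}` under the injective map `w ↦ w + t` has at most one point. -/
theorem at_no_atom {t : E d} {W : Submodule ℝ (E d)} (hW : W ≠ ⊥) {κ : Measure (E d)}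
    (h : AT t W κ) (z : E d) : κ {z} = 0 := by
  have : Nontrivial W := Submodule.nontrivial_iff_ne_bot.2 hW
  refine h ?_
  have hm : Measurable fun w : W => (w : E d) + t := measurable_subtype_coe.add_const t
  rw [Measure.map_apply hm (measurableSet_singleton z)]
  refine Set.Subsingleton.measure_zero ?_ _
  intro a ha b hb
  have ha' : (a : E d) + t = z := ha
  have hb' : (b : E d) + t = z := hb
  exact Subtype.ext (add_right_cancel (ha'.trans hb'.symm))

/-- Proof. `Measure.sum κ {z} = ∑' n, κ n {z}` and `κ n {z} = 0` unless `F n = ⊥`. -/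
theorem low_bot_atom {κ : ℕ → Measure (E d)} {t : ℕ → E d} {F : ℕ → Submodule ℝ (E d)}
    (hκ : ∀ n, AT (t n) (F n) (κ n)) (z : E d) : low κ F ⊥ {z} = Measure.sum κ {z} := by
  unfold low
  rw [Measure.sum_apply _ (measurableSet_singleton z),
    Measure.sum_apply _ (measurableSet_singleton z)]
  refine tsum_congr fun n => ?_
  by_cases hn : F n ≤ ⊥
  · rw [if_pos hn]
  · rw [if_neg hn]
    have h1 : F n ≠ ⊥ := fun h => hn h.le
    rw [at_no_atom h1 (hκ n) z]
    rfl

end Pool.Agent.SpecAF
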