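import Pool.Agent.Lib.MP_53fa4a_an_AF.Defs

/-!
# MP_53fa4a_an (project AF): upper bound for trigonometric sums on balls
-/

set_option autoImplicit false

open MeasureTheory Set Filter Metric
open scoped ENNReal Topology ComplexConjugate

namespace Pool.Agent.SpecAF

open Pool.Agent.SpecND (E ee)

variable {d : ℕ}

open Pool.Agent.SpecND (trig)

/-- Proof. Let `Ω ⊆ closedBall 0 r` and let `B` be the volume of `closedBall 0 (ρ + r)` (plus
`1`). For `x ∈ closedBall 0 ρ` the set of the `t` with `x - t ∈ Ω` has measure `|Ω|` and is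
contained in `closedBall 0 (ρ + r)`. So `|Ω| ∫_{closedBall 0 ρ} |T|² ≤ ∫_{t ∈ closedBall 0 (ρ +
r)} ∫_{x : x - t ∈ Ω} |T x|² dx dt` (Tonelli), `T = trig F c`. The inner integral is `∫_{x ∈ Ω} |T
(x + t)|² dx = |Ω| ∑ |c l|²`, by `trig_add` and `parseval` of `Lib/MP_53fa4a_an/Appr.lean` (the
coefficients `c l * ee l t` have the same modulus). Divide by `|Ω|`. -/
theorem ball_bound {Ω : Set (E d)} (hm : MeasurableSet Ω) (hb : Bornology.IsBounded Ω)
    (hpos : volume Ω ≠ 0) {Λ : Set (E d)}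
    (horth : ∀ l ∈ Λ, ∀ l' ∈ Λ, l ≠ l' → ∫ x in Ω, ee l x * conj (ee l' x) = 0) (ρ : ℝ) :
    ∃ B : ℝ, 0 < B ∧ ∀ F : Finset (E d), (F : Set (E d)) ⊆ Λ → ∀ c : E d → ℂ,
      ∫ x in closedBall (0 : E d) ρ, ‖trig F c x‖ ^ 2 ≤ B * ∑ l ∈ F, ‖c l‖ ^ 2 := by
  obtain ⟨r, hr⟩ := hb.subset_closedBall (0 : E d)
  have hfin : volume Ω ≠ ∞ := hb.measure_lt_top.ne
  refine ⟨volume.real (closedBall (0 : E d) (ρ + r)) + 1, by positivity, fun F hF c => ?_⟩
  let G : E d → ℝ≥0∞ := fun x => ‖trig F c x‖ₑ ^ 2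
  have hTc : Continuous (trig F c) := Pool.Agent.SpecND.continuous_trig F c
  have hG : Measurable G := (hTc.enorm.measurable).pow_const 2
  set S : ℝ := ∑ l ∈ F, ‖c l‖ ^ 2 with hS
  have hS0 : 0 ≤ S := Finset.sum_nonneg fun l _ => by positivity
  have h1 : ∀ t : E d, ∫⁻ y in Ω, G (y + t) = volume Ω * ENNReal.ofReal S := by
    intro t
    have e1 : ∀ x, G (x + t) = ‖trig F (fun l => c l * ee l t) x‖ₑ ^ 2 := by
      intro x
      simp only [G]
      rw [Pool.Agent.SpecND.trig_add]
    rw [lintegral_congr e1, Pool.Agent.SpecND.parseval hfin horth hF]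
    simp only [norm_mul, Pool.Agent.SpecND.norm_ee, mul_one]
    rw [ENNReal.ofReal_mul measureReal_nonneg, measureReal_def, ENNReal.ofReal_toReal hfin]
  have h2 : ∀ y ∈ Ω, ∫⁻ x in closedBall (0 : E d) ρ, G x ≤
      ∫⁻ t in closedBall (0 : E d) (ρ + r), G (y + t) := by
    intro y hy
    rw [← lintegral_indicator measurableSet_closedBall,
      ← lintegral_indicator measurableSet_closedBall,
      ← lintegral_add_left_eq_self ((closedBall (0 : E d) ρ).indicator G) y]
    refine lintegral_mono fun t => ?_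
    by_cases ht : y + t ∈ closedBall (0 : E d) ρ
    · have ht2 : t ∈ closedBall (0 : E d) (ρ + r) := by
        have hy1 := hr hy
        rw [mem_closedBall, dist_zero_right] at ht hy1 ⊢
        calc ‖t‖ = ‖(y + t) - y‖ := by rw [add_sub_cancel_left]
          _ ≤ ‖y + t‖ + ‖y‖ := norm_sub_le _ _
          _ ≤ ρ + r := add_le_add ht hy1
      rw [indicator_of_mem ht, indicator_of_mem ht2]
    · rw [indicator_of_notMem ht]
      exact zero_le
  have h3 : volume Ω * ∫⁻ x in closedBall (0 : E d) ρ, G x ≤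
      volume (closedBall (0 : E d) (ρ + r)) * (volume Ω * ENNReal.ofReal S) := by
    calc volume Ω * ∫⁻ x in closedBall (0 : E d) ρ, G x
        = ∫⁻ _ in Ω, ∫⁻ x in closedBall (0 : E d) ρ, G x := by
          rw [lintegral_const, Measure.restrict_apply_univ, mul_comm]
      _ ≤ ∫⁻ y in Ω, ∫⁻ t in closedBall (0 : E d) (ρ + r), G (y + t) :=
          setLIntegral_mono' hm h2
      _ = ∫⁻ t in closedBall (0 : E d) (ρ + r), ∫⁻ y in Ω, G (y + t) := by
          refine lintegral_lintegral_swap ?_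
          exact (hG.comp (measurable_fst.add measurable_snd)).aemeasurable
      _ = volume (closedBall (0 : E d) (ρ + r)) * (volume Ω * ENNReal.ofReal S) := by
          rw [lintegral_congr h1, lintegral_const, Measure.restrict_apply_univ, mul_comm]
  have hB : volume (closedBall (0 : E d) (ρ + r)) ≠ ∞ := measure_closedBall_lt_top.ne
  have h4 : ∫⁻ x in closedBall (0 : E d) ρ, G x ≤
      volume (closedBall (0 : E d) (ρ + r)) * ENNReal.ofReal S := by
    have h5 : volume Ω * ∫⁻ x in closedBall (0 : E d) ρ, G x ≤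
        volume Ω * (volume (closedBall (0 : E d) (ρ + r)) * ENNReal.ofReal S) := by
      refine h3.trans (le_of_eq ?_)
      ring
    exact (ENNReal.mul_le_mul_iff_right hpos hfin).1 h5
  have h6 : ∫ x in closedBall (0 : E d) ρ, ‖trig F c x‖ ^ 2 =
      (∫⁻ x in closedBall (0 : E d) ρ, G x).toReal := by
    have h8 : Continuous fun x => ‖trig F c x‖ ^ 2 := hTc.norm.pow 2
    rw [integral_eq_lintegral_of_nonneg_ae (f := fun x => ‖trig F c x‖ ^ 2)
      (Eventually.of_forall fun x => by positivity) h8.aestronglyMeasurable]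
    congr 1
    refine lintegral_congr fun x => ?_
    rw [ENNReal.ofReal_pow (norm_nonneg _), ofReal_norm]
  rw [h6]
  have h7 : (∫⁻ x in closedBall (0 : E d) ρ, G x).toReal ≤
      (volume (closedBall (0 : E d) (ρ + r)) * ENNReal.ofReal S).toReal :=
    ENNReal.toReal_mono (ENNReal.mul_ne_top hB ENNReal.ofReal_ne_top) h4
  rw [ENNReal.toReal_mul, ENNReal.toReal_ofReal hS0] at h7
  refine h7.trans ?_
  change volume.real (closedBall (0 : E d) (ρ + r)) * S ≤ _
  linarith

end Pool.Agent.SpecAF
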