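import Pool.Agent.Lib.MP_53fa4a_an_AF.BesA

/-!
# MP_53fa4a_an (project AF): Bessel inequality for functions supported in a ball
-/

set_option autoImplicit false

open MeasureTheory Set Filter Metric
open scoped ENNReal Topology ComplexConjugate

namespace Pool.Agent.SpecAF

open Pool.Agent.SpecND (E ee)

variable {d : ℕ}

private lemma BesB_sub (l ξ x : E d) : ee (l - ξ) x = ee l x * conj (ee ξ x) := by
  have h1 : ∀ a b : E d, ee a b = ee b a := fun a b => by
    unfold ee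
    rw [real_inner_comm]
  rw [h1 (l - ξ) x, Pool.Agent.SpecND.ee_sub, h1 x l, h1 x ξ]

/-- Proof. Take `B` from `ball_bound`. Put `a l = ∫ x, h x * conj (ee (l - ξ) x)`. With `c l = a
l` we have `∑ |a l|² = ∑ conj (a l) * a l = ∫ x, h x * conj (∑ l, a l * ee (l - ξ) x)`, `ee (l -
ξ) x = ee l x * conj (ee ξ x)`, so `∑ |a l|² ≤ ∫_{closedBall 0 ρ} |h| |trig F a| ≤ (∫ |h|²)^(1/2)
(∫_{closedBall 0 ρ} |trig F a|²)^(1/2) ≤ (∫ |h|²)^(1/2) (B ∑ |a l|²)^(1/2)`. So `∑ |a l|² ≤ B ∫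
|h|²`. (A continuous function is square integrable on the ball; instead of the Cauchy-Schwarz
inequality one can use `|h| |T| ≤ B / 2 |h|² + 1 / (2 B) |T|²`.) -/
theorem bessel {Ω : Set (E d)} (hm : MeasurableSet Ω) (hb : Bornology.IsBounded Ω)
    (hpos : volume Ω ≠ 0) {Λ : Set (E d)}
    (horth : ∀ l ∈ Λ, ∀ l' ∈ Λ, l ≠ l' → ∫ x in Ω, ee l x * conj (ee l' x) = 0) (ρ : ℝ) :
    ∃ B : ℝ, 0 < B ∧ ∀ F : Finset (E d), (F : Set (E d)) ⊆ Λ → ∀ ξ : E d, ∀ h : E d → ℂ,
      MemLp h 2 volume → (∀ x, ρ < ‖x‖ → h x = 0) →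
        ∑ l ∈ F, ‖∫ x, h x * conj (ee (l - ξ) x)‖ ^ 2 ≤ B * ∫ x, ‖h x‖ ^ 2 := by
  obtain ⟨B, hB0, hB⟩ := ball_bound hm hb hpos horth ρ
  refine ⟨B, hB0, fun F hF ξ h hh hsupp => ?_⟩
  set a : E d → ℂ := fun l => ∫ x, h x * conj (ee (l - ξ) x) with ha
  set T : E d → ℂ := Pool.Agent.SpecND.trig F a with hT
  have hTc : Continuous T := Pool.Agent.SpecND.continuous_trig F a
  have hbfin : volume (closedBall (0 : E d) ρ) ≠ ∞ := measure_closedBall_lt_top.ne
  have : IsFiniteMeasure (volume.restrict (closedBall (0 : E d) ρ)) :=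
    ⟨by rw [Measure.restrict_apply_univ]; exact measure_closedBall_lt_top⟩
  have hout : ∀ x, x ∉ closedBall (0 : E d) ρ → h x = 0 := fun x hx =>
    hsupp x (by rw [mem_closedBall_zero_iff] at hx; exact not_le.1 hx)
  have hint : Integrable h := by
    have h1 : IntegrableOn h (closedBall (0 : E d) ρ) :=
      (hh.restrict (closedBall (0 : E d) ρ)).integrable one_le_two
    refine (integrableOn_iff_integrable_of_support_subset ?_).1 h1
    intro x hx
    by_contra h2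
    exact hx (hout x h2)
  have hsq : Integrable fun x => ‖h x‖ ^ 2 := hh.integrable_norm_pow two_ne_zero
  -- a bounded continuous function times `h` is integrable
  have hmul : ∀ g : E d → ℂ, Continuous g → (∀ x, ‖g x‖ ≤ 1) → Integrable fun x => h x * g x := by
    intro g hg hg1
    exact hint.mul_bdd (c := 1) hg.aestronglyMeasurable (Eventually.of_forall hg1)
  have hecont : ∀ l : E d, Continuous fun x => conj (ee l x) := fun l =>
    Complex.continuous_conj.comp (Pool.Agent.SpecND.continuous_ee l)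
  have henorm : ∀ l x : E d, ‖conj (ee l x)‖ ≤ 1 := fun l x => by
    rw [RCLike.norm_conj, Pool.Agent.SpecND.norm_ee]
  -- the sum of squares as an integral
  have h1 : ((∑ l ∈ F, ‖a l‖ ^ 2 : ℝ) : ℂ) = ∫ x, h x * (conj (T x) * ee ξ x) := by
    have h2 : ∀ l ∈ F, ((‖a l‖ ^ 2 : ℝ) : ℂ) = ∫ x, conj (a l) * (h x * conj (ee (l - ξ) x)) := by
      intro l _
      rw [integral_const_mul, ← Complex.normSq_eq_norm_sq, Complex.normSq_eq_conj_mul_self]
    rw [Complex.ofReal_sum, Finset.sum_congr rfl h2, ← integral_finsetSum F fun l _ =>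
      (hmul _ (hecont (l - ξ)) (henorm (l - ξ))).const_mul _]
    refine integral_congr_ae (Eventually.of_forall fun x => ?_)
    dsimp only
    rw [hT]
    unfold Pool.Agent.SpecND.trig
    rw [map_sum, Finset.sum_mul, Finset.mul_sum]
    refine Finset.sum_congr rfl fun l _ => ?_
    rw [BesB_sub, map_mul, map_mul, Complex.conj_conj]
    ring
  set S : ℝ := ∑ l ∈ F, ‖a l‖ ^ 2 with hS
  have hS0 : 0 ≤ S := Finset.sum_nonneg fun l _ => sq_nonneg _
  have h2 : S ≤ ∫ x, ‖h x‖ * ‖T x‖ := by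
    have h3 : S = ‖((S : ℝ) : ℂ)‖ := by rw [Complex.norm_real, Real.norm_of_nonneg hS0]
    rw [h3, h1]
    refine (norm_integral_le_integral_norm _).trans (le_of_eq ?_)
    refine integral_congr_ae (Eventually.of_forall fun x => ?_)
    dsimp only
    rw [norm_mul, norm_mul, RCLike.norm_conj, Pool.Agent.SpecND.norm_ee, mul_one]
  have h3 : ∫ x, ‖h x‖ * ‖T x‖ = ∫ x in closedBall (0 : E d) ρ, ‖h x‖ * ‖T x‖ := by
    refine (setIntegral_eq_integral_of_forall_compl_eq_zero fun x hx => ?_).symm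
    rw [hout x hx, norm_zero, zero_mul]
  have hT2 : IntegrableOn (fun x => ‖T x‖ ^ 2) (closedBall (0 : E d) ρ) :=
    ((hTc.norm.pow 2).continuousOn).integrableOn_compact (isCompact_closedBall _ _)
  have h4 : ∫ x in closedBall (0 : E d) ρ, ‖h x‖ * ‖T x‖ ≤
      ∫ x in closedBall (0 : E d) ρ, (B / 2 * ‖h x‖ ^ 2 + 1 / (2 * B) * ‖T x‖ ^ 2) := by
    refine integral_mono_of_nonneg (Eventually.of_forall fun x => by positivity)
      ((hsq.integrableOn.const_mul _).add (hT2.const_mul _)) (Eventually.of_forall fun x => ?_)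
    have h5 : 0 ≤ (B * ‖h x‖ - ‖T x‖) ^ 2 / (2 * B) := by positivity
    have h6 : (B * ‖h x‖ - ‖T x‖) ^ 2 / (2 * B) =
        B / 2 * ‖h x‖ ^ 2 + 1 / (2 * B) * ‖T x‖ ^ 2 - ‖h x‖ * ‖T x‖ := by
      field_simp
      ring
    dsimp only
    linarith
  have h5 : ∫ x in closedBall (0 : E d) ρ, (B / 2 * ‖h x‖ ^ 2 + 1 / (2 * B) * ‖T x‖ ^ 2) =
      B / 2 * (∫ x in closedBall (0 : E d) ρ, ‖h x‖ ^ 2) +
        1 / (2 * B) * (∫ x in closedBall (0 : E d) ρ, ‖T x‖ ^ 2) := by
    rw [integral_add (hsq.integrableOn.const_mul _) (hT2.const_mul _), integral_const_mul,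
      integral_const_mul]
  have h6 : ∫ x in closedBall (0 : E d) ρ, ‖h x‖ ^ 2 = ∫ x, ‖h x‖ ^ 2 := by
    refine setIntegral_eq_integral_of_forall_compl_eq_zero fun x hx => ?_
    rw [hout x hx, norm_zero]
    norm_num
  have h7 : 1 / (2 * B) * ∫ x in closedBall (0 : E d) ρ, ‖T x‖ ^ 2 ≤ S / 2 := by
    have h8 := hB F hF a
    calc 1 / (2 * B) * ∫ x in closedBall (0 : E d) ρ, ‖T x‖ ^ 2 ≤ 1 / (2 * B) * (B * S) :=
          mul_le_mul_of_nonneg_left h8 (by positivity)
      _ = S / 2 := by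
          field_simp
  rw [h6] at h5
  linarith

end Pool.Agent.SpecAF
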