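import Pool.Agent.Lib.MP_53fa4a_an_AF.Defs

/-!
# MP_53fa4a_an (project AF): uniform measures on balls of subspaces; elementary properties of `AT`
-/

set_option autoImplicit false

open MeasureTheory Set Filter Metric
open scoped ENNReal Topology ComplexConjugate

namespace Pool.Agent.SpecAF

open Pool.Agent.SpecND (E ee)

variable {d : ℕ}

/-- Proof. The volume of a ball with positive radius in the finite-dimensional space `W` is
positive and finite. -/
theorem bm_prob (W : Submodule ℝ (E d)) {δ : ℝ} (hδ : 0 < δ) :
    IsProbabilityMeasure (bm W δ) := by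
  have h1 : volume (closedBall (0 : W) δ) ≠ 0 := (measure_closedBall_pos volume 0 hδ).ne'
  have h2 : volume (closedBall (0 : W) δ) ≠ ∞ := measure_closedBall_lt_top.ne
  have h3 : IsProbabilityMeasure
      ((volume (closedBall (0 : W) δ))⁻¹ • volume.restrict (closedBall (0 : W) δ)) := by
    refine ⟨?_⟩
    rw [Measure.smul_apply, Measure.restrict_apply_univ, smul_eq_mul,
      ENNReal.inv_mul_cancel h1 h2]
  unfold bm
  exact Measure.isProbabilityMeasure_map measurable_subtype_coe.aemeasurable

/-- Proof. The measure inside the `map` is absolutely continuous with respect to `volume`; add `+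
0` (`AbsolutelyContinuous.map`). -/
theorem bm_at (W : Submodule ℝ (E d)) (δ : ℝ) : AT 0 W (bm W δ) := by
  unfold AT bm
  have h1 : (fun z : W => (z : E d) + 0) = fun z : W => (z : E d) := by
    funext z
    rw [add_zero]
  rw [h1]
  refine Measure.AbsolutelyContinuous.map ?_ measurable_subtype_coe
  exact Measure.smul_absolutelyContinuous.trans Measure.restrict_le_self.absolutelyContinuous

/-- Proof. Clear from the definition (`Measure.map_apply` for the measurable map `W → E d`; both
sets are closed). -/
theorem bm_ae (W : Submodule ℝ (E d)) (δ : ℝ) : ∀ᵐ z ∂(bm W δ), z ∈ W ∧ ‖z‖ ≤ δ := by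
  unfold bm
  have hm : MeasurableSet {z : E d | z ∈ W ∧ ‖z‖ ≤ δ} := by
    have h1 : IsClosed (W : Set (E d)) := W.closed_of_finiteDimensional
    have h2 : IsClosed {z : E d | ‖z‖ ≤ δ} := isClosed_le continuous_norm continuous_const
    exact (h1.inter h2).measurableSet
  rw [ae_map_iff measurable_subtype_coe.aemeasurable hm]
  refine Measure.ae_smul_measure ?_ _
  refine (ae_restrict_mem measurableSet_closedBall).mono fun z hz => ⟨z.2, ?_⟩
  rw [mem_closedBall_zero_iff] at hz
  exact hz

/-- Proof. `κ.restrict S ≪ κ`. -/
theorem at_restrict {t : E d} {W : Submodule ℝ (E d)} {κ : Measure (E d)} (h : AT t W κ)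
    (S : Set (E d)) : AT t W (κ.restrict S) := by
  exact Measure.restrict_le_self.absolutelyContinuous.trans h

/-- Proof. The space `⊥` has one point, whose volume is `1` (`volume` of a zero-dimensional inner
product space, for instance `Measure.volume_eq_dirac` type lemmas or the value of the volume on
the closed unit ball is nonzero), so the image measure gives positive mass to `{0}` and a set of
image measure `0` does not contain `0`. -/
theorem at_dirac : AT (0 : E d) ⊥ (Measure.dirac 0) := by
  unfold AT
  refine Measure.AbsolutelyContinuous.mk fun s hs h => ?_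
  have hmeas : Measurable fun z : (⊥ : Submodule ℝ (E d)) => (z : E d) + 0 :=
    measurable_subtype_coe.add_const _
  rw [Measure.map_apply hmeas hs] at h
  rw [Measure.dirac_apply' _ hs, Set.indicator_of_notMem]
  intro h0
  have h1 : (fun z : (⊥ : Submodule ℝ (E d)) => (z : E d) + 0) ⁻¹' s = univ := by
    ext z
    have hz : (z : E d) = 0 := (Submodule.mem_bot ℝ).1 z.2
    simp only [mem_preimage, hz, add_zero, h0, mem_univ]
  rw [h1] at h
  exact (isOpen_univ.measure_pos (volume : Measure (⊥ : Submodule ℝ (E d))) univ_nonempty).ne' h

/-- Proof. The image of `volume` on `⊤` under the isometric isomorphism `⊤ ≃ E d` is `volume`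
(`LinearIsometryEquiv.measurePreserving` for `LinearIsometryEquiv` of `Submodule.topEquiv`, or: it
is an additive Haar measure, hence a multiple of `volume`). -/
theorem at_top {κ : Measure (E d)} (h : κ ≪ volume) : AT (0 : E d) ⊤ κ := by
  unfold AT
  have h1 : (fun z : (⊤ : Submodule ℝ (E d)) => (z : E d) + 0) =
      LinearIsometryEquiv.ofTop (E d) (⊤ : Submodule ℝ (E d)) rfl := by
    funext z
    rw [add_zero]
    rfl
  rw [h1, (LinearIsometryEquiv.measurePreserving
    (LinearIsometryEquiv.ofTop (E d) (⊤ : Submodule ℝ (E d)) rfl)).map_eq]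
  exact h

end Pool.Agent.SpecAF
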