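import Pool.Agent.Lib.MP_53fa4a_an_AF.BmA

/-!
# MP_53fa4a_an (project AF): the value of the zero space is zero
-/

set_option autoImplicit false

open MeasureTheory Set Filter Metric
open scoped ENNReal Topology ComplexConjugate

namespace Pool.Agent.SpecAF

open Pool.Agent.SpecND (E ee)

variable {d : ℕ}

/-- Proof. Let `κ = dirac 0` (`at_dirac`). `Th (per ρ Ω) κ y` is `1` if `0 ∈ tr (per ρ Ω) y`, i.e.
`-y ∈ per ρ Ω ⊆ per ρ K`, and `0` otherwise, so it is at most the indicator of `{y | -y ∈ per ρ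
K}`. By `mono` and `null` `m = M (Th …) ≤ 0`, and `0 ≤ m`. -/
theorem bot_zero {X K Ω : Set (E d)} {M : (E d → ℝ) → ℝ} {ρ : ℝ}
    (hM : Mean {y : E d | -y ∈ per ρ K} X M) (hΩ : MeasurableSet Ω) (hK : MeasurableSet K)
    (hΩK : Ω ⊆ K) {m : ℝ} (hm0 : 0 ≤ m)
    (hc : ∀ κ : Measure (E d), IsFiniteMeasure κ → AT 0 ⊥ κ →
      M (Th (per ρ Ω) κ) = κ.real univ * m) : m = 0 := by
  classical
  have h1 := hc (Measure.dirac 0) inferInstance at_dirac
  rw [probReal_univ, one_mul] at h1
  have hC : MeasurableSet {y : E d | -y ∈ per ρ K} := (measurableSet_per hK ρ).preimage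
    measurable_neg
  have hbm : BM ({y : E d | -y ∈ per ρ K}.indicator fun _ => (1 : ℝ)) := by
    refine ⟨measurable_const.indicator hC, 1, fun v => ?_⟩
    by_cases hv : v ∈ {y : E d | -y ∈ per ρ K}
    · rw [indicator_of_mem hv, abs_one]
    · rw [indicator_of_notMem hv, abs_zero]
      exact zero_le_one
  have h2 : M (Th (per ρ Ω) (Measure.dirac 0)) ≤
      M ({y : E d | -y ∈ per ρ K}.indicator fun _ => (1 : ℝ)) := by
    refine hM.mono _ _ (bm_th (measurableSet_per hΩ ρ) _) hbm (Eventually.of_forall fun v => ?_)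
    by_cases hv : v ∈ {y : E d | -y ∈ per ρ K}
    · rw [indicator_of_mem hv]
      exact measureReal_le_one
    · rw [indicator_of_notMem hv]
      have h3 : (0 : E d) ∉ tr (per ρ Ω) v := by
        intro h4
        rw [mem_tr, zero_sub] at h4
        obtain ⟨l, hl⟩ := h4
        exact hv ⟨l, hΩK hl⟩
      have h5 : (Measure.dirac (0 : E d)) (tr (per ρ Ω) v) = 0 := by
        rw [Measure.dirac_apply' _ (measurableSet_tr (measurableSet_per hΩ ρ) v),
          indicator_of_notMem h3]
      exact le_of_eq (by rw [Th, measureReal_def, h5, ENNReal.toReal_zero])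
  rw [h1] at h2
  exact le_antisymm (h2.trans (le_of_eq hM.null)) hm0

end Pool.Agent.SpecAF
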