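import Pool.Agent.Lib.MP_53fa4a_an_AF.Defs

/-!
# MP_53fa4a_an (project AF): convolutions and sums
-/

set_option autoImplicit false

open MeasureTheory Set Filter Metric
open scoped ENNReal Topology ComplexConjugate

namespace Pool.Agent.SpecAF

open Pool.Agent.SpecND (E ee)

variable {d : ℕ}

/-- Proof. `(κ ∗ α) (tr P y) = ∫⁻ z', κ {z | z + z' ∈ tr P y} ∂α` and `z + z' ∈ tr P y` means `z ∈
tr P (y - z')`; pass to real values (all finite; `integral_toReal`, or `integral_conv`). -/
theorem th_conv {P : Set (E d)} (hP : MeasurableSet P) (κ α : Measure (E d)) [IsFiniteMeasure κ]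
    [IsFiniteMeasure α] (y : E d) : Th P (κ ∗ α) y = Av α (Th P κ) y := by
  have hS := measurableSet_tr hP y
  have h1 : (κ ∗ α) (tr P y) = ∫⁻ z', κ (tr P (y - z')) ∂α := by
    unfold Measure.conv
    rw [Measure.map_apply measurable_add hS, Measure.prod_apply_symm (measurable_add hS)]
    refine lintegral_congr fun z' => ?_
    congr 1
    ext z
    change z + z' - y ∈ P ↔ z - (y - z') ∈ P
    rw [show z + z' - y = z - (y - z') by abel]
  have hm : Measurable fun z' : E d => κ (tr P (y - z')) := by
    have h2 : MeasurableSet {p : E d × E d | p.2 - (y - p.1) ∈ P} :=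
      (measurable_snd.sub (measurable_const.sub measurable_fst)) hP
    exact measurable_measure_prodMk_left h2
  unfold Th Av Measure.real
  rw [h1, integral_toReal hm.aemeasurable (Eventually.of_forall fun z' => measure_lt_top κ _)]

/-- Proof. `measureReal_add_apply` or unfold. -/
theorem th_add (P : Set (E d)) (κ κ' : Measure (E d)) [IsFiniteMeasure κ] [IsFiniteMeasure κ']
    (y : E d) : Th P (κ + κ') y = Th P κ y + Th P κ' y := by
  unfold Th
  exact measureReal_add_apply

/-- Proof. `Measure.sum_apply`, all values are finite. The tail of the series of total masses. -/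
theorem th_sum {P : Set (E d)} (hP : MeasurableSet P) (κ : ℕ → Measure (E d))
    [IsFiniteMeasure (Measure.sum κ)] {ε : ℝ} (hε : 0 < ε) :
    ∃ N : ℕ, ∀ n, N ≤ n →
      (|(Measure.sum κ).real univ - ∑ i ∈ Finset.range n, (κ i).real univ| ≤ ε) ∧
      ∀ y, |Th P (Measure.sum κ) y - ∑ i ∈ Finset.range n, Th P (κ i) y| ≤ ε := by
  have hfin : ∑' i, κ i univ ≠ ∞ := by
    rw [← Measure.sum_apply _ MeasurableSet.univ]
    exact measure_ne_top _ _
  have hne : ∀ i (A : Set (E d)), κ i A ≠ ∞ := fun i A =>
    ne_top_of_le_ne_top hfin ((measure_mono (subset_univ A)).trans (ENNReal.le_tsum i))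
  have hsum : Summable fun i => (κ i).real univ := ENNReal.summable_toReal hfin
  have hle : ∀ i (A : Set (E d)), (κ i).real A ≤ (κ i).real univ := fun i A =>
    ENNReal.toReal_mono (hne i univ) (measure_mono (subset_univ A))
  have hsA : ∀ A : Set (E d), Summable fun i => (κ i).real A := fun A =>
    hsum.of_nonneg_of_le (fun i => measureReal_nonneg) fun i => hle i A
  have heq : ∀ A : Set (E d), MeasurableSet A →
      (Measure.sum κ).real A = ∑' i, (κ i).real A := by
    intro A hA
    unfold Measure.real
    rw [Measure.sum_apply _ hA, ENNReal.tsum_toReal_eq fun i => hne i A]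
  have htail : ∀ (n : ℕ) (A : Set (E d)), MeasurableSet A →
      0 ≤ (Measure.sum κ).real A - ∑ i ∈ Finset.range n, (κ i).real A ∧
      (Measure.sum κ).real A - ∑ i ∈ Finset.range n, (κ i).real A ≤
        (Measure.sum κ).real univ - ∑ i ∈ Finset.range n, (κ i).real univ := by
    intro n A hA
    have h1 := (hsA A).sum_add_tsum_nat_add n
    have h2 := hsum.sum_add_tsum_nat_add n
    rw [heq A hA, heq univ MeasurableSet.univ, ← h1, ← h2, add_sub_cancel_left,
      add_sub_cancel_left]
    exact ⟨tsum_nonneg fun i => measureReal_nonneg, Summable.tsum_le_tsum (fun i => hle _ A)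
      ((summable_nat_add_iff n).2 (hsA A)) ((summable_nat_add_iff n).2 hsum)⟩
  have hlim : Tendsto (fun n => (Measure.sum κ).real univ -
      ∑ i ∈ Finset.range n, (κ i).real univ) atTop (𝓝 0) := by
    have h1 := hsum.hasSum.tendsto_sum_nat.const_sub ((Measure.sum κ).real univ)
    rwa [← heq univ MeasurableSet.univ, sub_self] at h1
  obtain ⟨N, hN⟩ := eventually_atTop.1 (hlim.eventually_le_const hε)
  refine ⟨N, fun n hn => ⟨?_, fun y => ?_⟩⟩
  · rw [abs_of_nonneg (htail n univ MeasurableSet.univ).1]
    exact hN n hn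
  · have h1 := htail n _ (measurableSet_tr hP y)
    unfold Th
    rw [abs_of_nonneg h1.1]
    exact h1.2.trans (hN n hn)

/-- Proof. `Measure.conv` is commutative: `κ.prod α` and `α.prod κ` are exchanged by the swap. -/
theorem conv_comm' (κ α : Measure (E d)) [IsFiniteMeasure κ] [IsFiniteMeasure α] :
    κ ∗ α = α ∗ κ := Measure.conv_comm κ α

/-- Proof. `(κ ∗ α) univ = κ univ * α univ`. -/
theorem conv_univ (κ α : Measure (E d)) [IsFiniteMeasure κ] [IsFiniteMeasure α] :
    (κ ∗ α).real univ = κ.real univ * α.real univ := by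
  unfold Measure.real Measure.conv
  rw [Measure.map_apply measurable_add MeasurableSet.univ, preimage_univ, ← univ_prod_univ,
    Measure.prod_prod, ENNReal.toReal_mul]

/-- Proof. Evaluate at a measurable set: `(Measure.sum κ ∗ α) S = ∫⁻ z', (Measure.sum κ) {z | z +
z' ∈ S} ∂α = ∑' n, ∫⁻ …` (`lintegral_tsum` or `Measure.prod_sum_left`). -/
theorem sum_conv (κ : ℕ → Measure (E d)) (α : Measure (E d)) [IsFiniteMeasure (Measure.sum κ)]
    [IsFiniteMeasure α] : Measure.sum κ ∗ α = Measure.sum fun n => κ n ∗ α := by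
  unfold Measure.conv
  rw [Measure.prod_sum_left, Measure.map_sum measurable_add.aemeasurable]

end Pool.Agent.SpecAF
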