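import Pool.Agent.Lib.MP_53fa4a_an_AF.TV
import Pool.Agent.Lib.MP_53fa4a_an_AF.ThB
import Pool.Agent.Lib.MP_53fa4a_an_AF.BmA

/-!
# MP_53fa4a_an (project AF): the mean of a convolution
-/

set_option autoImplicit false

open MeasureTheory Set Filter Metric
open scoped ENNReal Topology ComplexConjugate

namespace Pool.Agent.SpecAF

open Pool.Agent.SpecND (E ee)

variable {d : ℕ}

/-- Small translations in the direction `W` change `Th P κ` little. -/
private lemma CellA_shift {P : Set (E d)} (hP : MeasurableSet P) {t : E d}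
    {W : Submodule ℝ (E d)} {κ : Measure (E d)} [IsFiniteMeasure κ] (h : AT t W κ) {ε : ℝ}
    (hε : 0 < ε) : ∃ δ : ℝ, 0 < δ ∧ ∀ u v : E d, v - u ∈ W → ‖v - u‖ ≤ δ →
      |Th P κ u - Th P κ v| ≤ ε := by
  obtain ⟨δ, hδ, H⟩ := at_shift h hε
  refine ⟨δ, hδ, fun u v huv hn => ?_⟩
  have h1 := H (v - u) huv hn (tr P v) (measurableSet_tr hP v)
  have h2 : {z | z + (v - u) ∈ tr P v} = tr P u := by
    ext z
    simp only [Set.mem_ofPred_eq, mem_tr]
    rw [show z + (v - u) - v = z - u by abel]
  rw [h2] at h1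
  exact h1

/-- The mean of `Th P κ` is invariant under the translations in `t' + W`. -/
private lemma CellA_inv {C X P : Set (E d)} {M : (E d → ℝ) → ℝ} (hM : Mean C X M)
    (hP : MeasurableSet P) {t t' : E d} {W : Submodule ℝ (E d)} (hX : t' ∈ X)
    (hd : (W : Set (E d)) ⊆ closure (X ∩ W)) {κ : Measure (E d)} [IsFiniteMeasure κ]
    (h : AT t W κ) {z : E d} (hz : z - t' ∈ W) :
    M (fun y => Th P κ (y - z)) = M (Th P κ) := by
  have hb : BM (Th P κ) := bm_th hP κ
  have hb' : ∀ w : E d, BM (fun y => Th P κ (y - w)) := fun w => by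
    have := hb.shift (-w)
    simpa only [sub_eq_add_neg] using this
  have h1 : M (fun y => Th P κ (y - z)) = M (fun y => Th P κ (y - (z - t'))) := by
    rw [← hM.inv t' hX (fun y => Th P κ (y - z)) (hb' z)]
    congr 1
    funext y
    rw [show y + t' - z = y - (z - t') by abel]
  rw [h1]
  have key : ∀ ε : ℝ, 0 < ε →
      |M (fun y => Th P κ (y - (z - t'))) - M (Th P κ)| ≤ ε := by
    intro ε hε
    obtain ⟨δ, hδ, H⟩ := CellA_shift hP h hε
    have hmem : -(z - t') ∈ closure (X ∩ (W : Set (E d))) := hd (W.neg_mem hz)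
    obtain ⟨x, ⟨hxX, hxW⟩, hx⟩ := Metric.mem_closure_iff.1 hmem δ hδ
    rw [← hM.inv x hxX (Th P κ) hb, ← hM.sub (hb' _) (hb.shift x)]
    refine hM.abs_le ((hb' _).sub (hb.shift x)) (Eventually.of_forall fun v => ?_)
    have h3 : v + x - (v - (z - t')) = x - -(z - t') := by abel
    refine H _ _ ?_ ?_
    · rw [h3]
      exact W.sub_mem hxW (W.neg_mem hz)
    · rw [h3, ← dist_eq_norm, dist_comm]
      exact hx.le
  by_contra hne
  have hpos : 0 < |M (fun y => Th P κ (y - (z - t'))) - M (Th P κ)| :=
    abs_pos.2 (sub_ne_zero.2 hne)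
  have := key _ (half_pos hpos)
  linarith

/-- The integral of a function of a simple function. -/
private lemma CellA_simple (s : SimpleFunc (E d) (E d)) (α : Measure (E d)) [IsFiniteMeasure α]
    (g : E d → ℝ) : ∫ z, g (s z) ∂α = ∑ v ∈ s.range, α.real (s ⁻¹' {v}) * g v := by
  have h1 : ∀ z, g (s z) = ∑ v ∈ s.range, (s ⁻¹' {v}).indicator (fun _ => g v) z := by
    intro z
    rw [Finset.sum_eq_single (s z)]
    · rw [Set.indicator_of_mem]
      exact rfl
    · intro v _ hv
      rw [Set.indicator_of_notMem]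
      exact fun hz => hv (Set.mem_singleton_iff.1 hz).symm
    · intro hn
      exact absurd (s.mem_range_self z) hn
  simp only [h1]
  rw [integral_finsetSum]
  · refine Finset.sum_congr rfl fun v _ => ?_
    rw [integral_indicator_const _ (s.measurableSet_fiber v), smul_eq_mul]
  · intro v _
    exact (integrable_const _).indicator (s.measurableSet_fiber v)

/-- Finite sums. -/
private lemma CellA_sum {C X : Set (E d)} {M : (E d → ℝ) → ℝ} (hM : Mean C X M)
    {ι : Type*} (J : Finset ι) (a : ι → ℝ) (f : ι → E d → ℝ) (hf : ∀ i, BM (f i)) :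
    BM (fun y => ∑ i ∈ J, a i * f i y) ∧
      M (fun y => ∑ i ∈ J, a i * f i y) = ∑ i ∈ J, a i * M (f i) := by
  classical
  induction J using Finset.induction_on with
  | empty =>
    simp only [Finset.sum_empty]
    exact ⟨bm_const 0, hM.const 0⟩
  | insert i J hi ih =>
    simp only [Finset.sum_insert hi]
    refine ⟨((hf i).mul_const (a i)).add ih.1, ?_⟩
    rw [hM.add _ _ ((hf i).mul_const (a i)) ih.1, hM.smul (a i) _ (hf i), ih.2]

/-- Proof. Let `φ = Th P κ`, bounded by `κ.real univ`.

(1) For `e ∈ W`: `M (fun y => φ (y - e)) = M φ`. Given `ε > 0` take `δ` from `at_shift` and `x ∈ X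
∩ W` with `‖e' - x‖ ≤ δ`, `e' = -e ∈ W` (density); `|φ (y + e') - φ (y + x)| ≤ ε` for all `y`
because `φ (y + e') = κ {z | z - y - e' ∈ P}` and `{z | z - y - e' ∈ P} = {z | z + (x - e') ∈ S}`
with `S = {z | z - y - x ∈ P}`, and `M (φ (· + x)) = M φ`. So `|M (φ (· - e)) - M φ| ≤ ε`. (2) For
`z = e + t'`, `e ∈ W`: `M (fun y => φ (y - z)) = M φ`, since `M (fun v => g (v + t')) = M g` for
`g v = φ (v - z)`, `g (v + t') = φ (v - e)`.

(3) By `th_conv` `Th P (κ ∗ κ') y = ∫ φ (y - z) ∂κ'`, and `κ'` is concentrated on `t' + W` (`h'`).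
Given `ε > 0` take `δ` from `at_shift`; cover the separable set `t' + W` by countably many
measurable disjoint sets `Z_j ⊆ t' + W` of diameter at most `δ` with points `z_j ∈ Z_j`; choose
`J` with `κ' (complement of the union of the Z_j, j < J) ≤ ε`. For `z ∈ Z_j`, `|φ (y - z) - φ (y -
z_j)| ≤ ε` for all `y` by `at_shift` (`z - z_j ∈ W`). So `|Th P (κ ∗ κ') y - ∑_{j < J} κ'.real Z_j
* φ (y - z_j)| ≤ ε * κ'.real univ + ε * κ.real univ` for all `y`. Apply `M` and (2): `|M (Th P (κ
∗ κ')) - ∑_{j < J} κ'.real Z_j * M φ| ≤ ε (κ'.real univ + κ.real univ)`, and `|∑_{j < J} κ'.real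
Z_j - κ'.real univ| ≤ ε`, `|M φ| ≤ κ.real univ`. Let `ε → 0`. -/
theorem mean_conv {C X P : Set (E d)} {M : (E d → ℝ) → ℝ} (hM : Mean C X M)
    (hP : MeasurableSet P) {t t' : E d} {W : Submodule ℝ (E d)} (hX : t' ∈ X)
    (hd : (W : Set (E d)) ⊆ closure (X ∩ W)) {κ κ' : Measure (E d)} [IsFiniteMeasure κ]
    [IsFiniteMeasure κ'] (h : AT t W κ) (h' : AT t' W κ') :
    M (Th P (κ ∗ κ')) = κ'.real univ * M (Th P κ) := by
  have hb : BM (Th P κ) := bm_th hP κ
  have hb' : ∀ w : E d, BM (fun y => Th P κ (y - w)) := fun w => by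
    have := hb.shift (-w)
    simpa only [sub_eq_add_neg] using this
  have hle : ∀ y, Th P κ y ≤ κ.real univ := fun y => measureReal_mono (subset_univ _)
  have hconv : Th P (κ ∗ κ') = Av κ' (Th P κ) := funext fun y => th_conv hP κ κ' y
  rw [hconv]
  -- the affine subspace
  set A : Set (E d) := {z | z - t' ∈ W} with hA
  have hAcl : IsClosed A :=
    (Submodule.closed_of_finiteDimensional W).preimage (continuous_id.sub continuous_const)
  have ht'A : t' ∈ A := by
    rw [hA, Set.mem_ofPred_eq, sub_self]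
    exact W.zero_mem
  have hAae : ∀ᵐ z ∂κ', z ∈ A := by
    have hm : AEMeasurable (fun z : W => (z : E d) + t') volume :=
      (measurable_subtype_coe.add_const t').aemeasurable
    have h0 : ∀ᵐ z ∂(Measure.map (fun z : W => (z : E d) + t') volume), z ∈ A := by
      refine (ae_map_iff hm hAcl.measurableSet).2 (Eventually.of_forall fun z => ?_)
      rw [add_sub_cancel_right]
      exact z.2
    exact h'.ae_le h0
  let s : ℕ → SimpleFunc (E d) (E d) := fun n =>
    SimpleFunc.approxOn id measurable_id A t' ht'A n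
  have hsA : ∀ n z, s n z ∈ A := fun n z => SimpleFunc.approxOn_mem measurable_id ht'A n z
  have hst : ∀ᵐ z ∂κ', Tendsto (fun n => s n z) atTop (𝓝 z) := by
    filter_upwards [hAae] with z hz
    exact SimpleFunc.tendsto_approxOn measurable_id ht'A (subset_closure hz)
  have hsM : ∀ n, M (fun y => ∫ z, Th P κ (y - s n z) ∂κ') = κ'.real univ * M (Th P κ) := by
    intro n
    have h1 : (fun y => ∫ z, Th P κ (y - s n z) ∂κ') =
        fun y => ∑ v ∈ (s n).range, κ'.real (s n ⁻¹' {v}) * Th P κ (y - v) := by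
      funext y
      exact CellA_simple (s n) κ' (fun v => Th P κ (y - v))
    rw [h1, (CellA_sum hM _ (fun v => κ'.real (s n ⁻¹' {v})) (fun v y => Th P κ (y - v))
      hb').2]
    have h2 : ∀ v ∈ (s n).range, κ'.real (s n ⁻¹' {v}) * M (fun y => Th P κ (y - v)) =
        κ'.real (s n ⁻¹' {v}) * M (Th P κ) := by
      intro v hv
      obtain ⟨z, rfl⟩ := SimpleFunc.mem_range.1 hv
      rw [CellA_inv hM hP hX hd h (hsA n z)]
    rw [Finset.sum_congr rfl h2, ← Finset.sum_mul]
    congr 1
    have h3 := CellA_simple (s n) κ' (fun _ => 1)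
    simp only [integral_const, smul_eq_mul, mul_one] at h3
    exact h3.symm
  have hsB : ∀ n, BM (fun y => ∫ z, Th P κ (y - s n z) ∂κ') := by
    intro n
    have h1 : (fun y => ∫ z, Th P κ (y - s n z) ∂κ') =
        fun y => ∑ v ∈ (s n).range, κ'.real (s n ⁻¹' {v}) * Th P κ (y - v) := by
      funext y
      exact CellA_simple (s n) κ' (fun v => Th P κ (y - v))
    rw [h1]
    exact (CellA_sum hM _ (fun v => κ'.real (s n ⁻¹' {v})) (fun v y => Th P κ (y - v)) hb').1
  have key : ∀ ε : ℝ, 0 < ε →
      |M (Av κ' (Th P κ)) - κ'.real univ * M (Th P κ)| ≤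
        ε * κ'.real univ + κ.real univ * ε := by
    intro ε hε
    obtain ⟨δ, hδ, H⟩ := CellA_shift hP h hε
    have hmeas : TendstoInMeasure κ' (fun n z => s n z) atTop (fun z => z) :=
      tendstoInMeasure_of_tendsto_ae
        (fun n => (s n).stronglyMeasurable.aestronglyMeasurable) hst
    have h1 := hmeas (ENNReal.ofReal δ) (ENNReal.ofReal_pos.2 hδ)
    have h2 := (ENNReal.tendsto_atTop_zero.1 h1) (ENNReal.ofReal ε) (ENNReal.ofReal_pos.2 hε)
    obtain ⟨n, hn⟩ := h2
    specialize hn n le_rfl
    set B : Set (E d) := {z | ENNReal.ofReal δ ≤ edist (s n z) z} with hB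
    have hBm : MeasurableSet B :=
      measurableSet_le measurable_const ((s n).measurable.edist measurable_id)
    have hBr : κ'.real B ≤ ε := by
      rw [measureReal_def]
      exact ENNReal.toReal_le_of_le_ofReal hε.le hn
    rw [← hsM n, ← hM.sub (bm_av hb κ') (hsB n)]
    refine hM.abs_le ((bm_av hb κ').sub (hsB n)) (Eventually.of_forall fun y => ?_)
    have hi1 : Integrable (fun z => Th P κ (y - z)) κ' := by
      refine Integrable.of_bound
        (hb.1.comp (measurable_const.sub measurable_id)).aestronglyMeasurable (κ.real univ)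
        (Eventually.of_forall fun z => ?_)
      rw [Real.norm_eq_abs, abs_of_nonneg (th_nonneg _ _ _)]
      exact hle _
    have hi2 : Integrable (fun z => Th P κ (y - s n z)) κ' := by
      refine Integrable.of_bound
        (hb.1.comp (measurable_const.sub (s n).measurable)).aestronglyMeasurable (κ.real univ)
        (Eventually.of_forall fun z => ?_)
      rw [Real.norm_eq_abs, abs_of_nonneg (th_nonneg _ _ _)]
      exact hle _
    rw [Av, ← integral_sub hi1 hi2]
    have h4 : ∀ᵐ z ∂κ', ‖Th P κ (y - z) - Th P κ (y - s n z)‖ ≤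
        ε + B.indicator (fun _ => κ.real univ) z := by
      filter_upwards [hAae] with z hz
      rw [Real.norm_eq_abs]
      by_cases hzB : z ∈ B
      · rw [Set.indicator_of_mem hzB]
        have a1 := hle (y - z)
        have a2 := hle (y - s n z)
        have a3 := th_nonneg P κ (y - z)
        have a4 := th_nonneg P κ (y - s n z)
        rw [_root_.abs_le]
        constructor <;> linarith
      · rw [Set.indicator_of_notMem hzB, add_zero]
        have h5 : edist (s n z) z < ENNReal.ofReal δ := not_le.1 hzB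
        rw [edist_dist, ENNReal.ofReal_lt_ofReal_iff hδ, dist_eq_norm] at h5
        have h6 : y - s n z - (y - z) = -(s n z - z) := by abel
        refine H _ _ ?_ ?_
        · rw [h6]
          have := W.sub_mem (hsA n z) hz
          rw [show s n z - t' - (z - t') = s n z - z by abel] at this
          exact W.neg_mem this
        · rw [h6, norm_neg]
          exact h5.le
    have h7 : Integrable (fun z => ε + B.indicator (fun _ => κ.real univ) z) κ' :=
      (integrable_const _).add ((integrable_const _).indicator hBm)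
    have h8 := norm_integral_le_of_norm_le h7 h4
    rw [integral_add (integrable_const _) ((integrable_const _).indicator hBm),
      integral_const, integral_indicator_const _ hBm, Real.norm_eq_abs, smul_eq_mul,
      smul_eq_mul] at h8
    refine h8.trans ?_
    have h9 := mul_le_mul_of_nonneg_left hBr (measureReal_nonneg (μ := κ) (s := univ))
    nlinarith [h9]
  by_contra hne
  have hpos : 0 < |M (Av κ' (Th P κ)) - κ'.real univ * M (Th P κ)| :=
    abs_pos.2 (sub_ne_zero.2 hne)
  have hK : 0 < κ'.real univ + κ.real univ + 1 := by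
    have a1 := measureReal_nonneg (μ := κ') (s := univ)
    have a2 := measureReal_nonneg (μ := κ) (s := univ)
    linarith
  have h10 := key _ (div_pos hpos hK)
  have h11 := div_mul_cancel₀ |M (Av κ' (Th P κ)) - κ'.real univ * M (Th P κ)| hK.ne'
  have h12 := div_pos hpos hK
  nlinarith [h10, h11, h12]

end Pool.Agent.SpecAF
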