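import Pool.Agent.Lib.MP_53fa4a_an_AF.CellA

/-!
# MP_53fa4a_an (project AF): the value of a subspace
-/

set_option autoImplicit false

open MeasureTheory Set Filter Metric
open scoped ENNReal Topology ComplexConjugate

namespace Pool.Agent.SpecAF

open Pool.Agent.SpecND (E ee)

variable {d : ℕ}

/-- Proof. Let `β = bm W 1`, a probability measure with `AT 0 W β` (`bm_prob`, `bm_at`), and `m =
M (Th P β) ≥ 0`. For `t ∈ X` and finite `κ` with `AT t W κ`, `mean_conv` gives `M (Th P (β ∗ κ)) =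
κ.real univ * m` (`t' = t ∈ X`) and `M (Th P (κ ∗ β)) = β.real univ * M (Th P κ) = M (Th P κ)`
(`t' = 0 ∈ X`); the two convolutions are equal (`conv_comm'`). -/
theorem exists_cell {C X P : Set (E d)} {M : (E d → ℝ) → ℝ} (hM : Mean C X M)
    (hP : MeasurableSet P) (h0 : (0 : E d) ∈ X) {W : Submodule ℝ (E d)}
    (hd : (W : Set (E d)) ⊆ closure (X ∩ W)) :
    ∃ m : ℝ, 0 ≤ m ∧ ∀ t ∈ X, ∀ κ : Measure (E d), IsFiniteMeasure κ → AT t W κ →
      M (Th P κ) = κ.real univ * m := by
  have hβ : IsProbabilityMeasure (bm W 1) := bm_prob W one_pos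
  refine ⟨M (Th P (bm W 1)), hM.nonneg (bm_th hP _) (Eventually.of_forall fun y =>
    th_nonneg P _ y), fun t ht κ hκ hat => ?_⟩
  have h1 := mean_conv hM hP ht hd (bm_at W 1) hat
  have h2 := mean_conv hM hP h0 hd hat (bm_at W 1)
  rw [← conv_comm' (bm W 1) κ, h1, probReal_univ (μ := bm W 1), one_mul] at h2
  exact h2.symm

end Pool.Agent.SpecAF
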