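import Pool.Agent.Lib.MP_53fa4a_an_AF.Defs

/-!
# MP_53fa4a_an (project AF): choice of the radius
-/

set_option autoImplicit false

open MeasureTheory Set Filter Metric
open scoped ENNReal Topology ComplexConjugate

namespace Pool.Agent.SpecAF

open Pool.Agent.SpecND (E ee)

variable {d : ℕ}

/-- Proof. If `1 ≤ η` take any large `ρ` (`N i (ρ - s) ≥ m₀ > 0` for `ρ ≥ s`). Let `η < 1`, `q = 1
- η ∈ (0, 1)`. Suppose there is no such `ρ`. Put `ρ_j = j s` and let `j₀ ≥ 1` be so large that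
`ρ_j ≥ max ρ₀ 1` for `j ≥ j₀`. For each `j ≥ j₀` some `i` has `N i (ρ_j - s) < q * N i ρ_j`, and
for the other `i'`, `N i' (ρ_{j-1}) ≤ N i' (ρ_j)`; so `P (j - 1) ≤ q * P j` for `P j = ∏_{i ∈ I} N
i (ρ_j)` (all factors are at least `m₀ > 0`). Hence `m₀ ^ #I ≤ P j₀ ≤ q ^ (j - j₀) * P j ≤ q ^ (j
- j₀) * (B * (j s) ^ d) ^ #I` for all `j ≥ j₀`, and the right side tends to `0` as `j → ∞`
(`tendsto_pow_const_mul_const_pow_of_abs_lt_one`), a contradiction. (If `I` is empty the assertion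
is trivial.) -/
theorem exists_radius {ι : Type*} (I : Finset ι) (N : ι → ℝ → ℝ) {m₀ B s η ρ₀ : ℝ} {d : ℕ}
    (hm₀ : 0 < m₀) (hs : 0 < s) (hη : 0 < η) (hmono : ∀ i ∈ I, Monotone (N i))
    (hlow : ∀ i ∈ I, ∀ ρ, 0 ≤ ρ → m₀ ≤ N i ρ) (hup : ∀ i ∈ I, ∀ ρ, 1 ≤ ρ → N i ρ ≤ B * ρ ^ d) :
    ∃ ρ : ℝ, ρ₀ ≤ ρ ∧ ∀ i ∈ I, N i ρ - N i (ρ - s) ≤ η * N i ρ := by
  classical
  rcases le_or_gt 1 η with h1 | h1
  · refine ⟨max ρ₀ s, le_max_left _ _, fun i hi => ?_⟩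
    have hge : s ≤ max ρ₀ s := le_max_right _ _
    have ha : m₀ ≤ N i (max ρ₀ s - s) := hlow i hi _ (by linarith)
    have hb : m₀ ≤ N i (max ρ₀ s) := hlow i hi _ (by linarith)
    nlinarith [mul_nonneg (sub_nonneg.2 h1) (hm₀.le.trans hb)]
  by_contra hcon
  push Not at hcon
  obtain ⟨q, hq⟩ : ∃ q : ℝ, q = 1 - η := ⟨_, rfl⟩
  have hq0 : 0 < q := by linarith
  have hq1 : q < 1 := by linarith
  obtain ⟨j₀, hj₀⟩ := exists_nat_ge (max (max ρ₀ 1) s / s)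
  have hj₀s : ∀ j : ℕ, j₀ ≤ j → max ρ₀ 1 ≤ (j : ℝ) * s := by
    intro j hj
    have h2 : max (max ρ₀ 1) s ≤ (j₀ : ℝ) * s := by
      rwa [div_le_iff₀ hs] at hj₀
    have h3 : (j₀ : ℝ) * s ≤ (j : ℝ) * s :=
      mul_le_mul_of_nonneg_right (by exact_mod_cast hj) hs.le
    exact (le_max_left _ _).trans (h2.trans h3)
  have hnn : ∀ (j : ℕ), (0 : ℝ) ≤ (j : ℝ) * s := fun j => by positivity
  have hstep : ∀ j : ℕ, j₀ ≤ j →
      ∏ i ∈ I, N i ((j : ℝ) * s) ≤ q * ∏ i ∈ I, N i (((j + 1 : ℕ) : ℝ) * s) := by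
    intro j hj
    have h4 : ρ₀ ≤ ((j + 1 : ℕ) : ℝ) * s :=
      (le_max_left _ _).trans (hj₀s (j + 1) (by omega))
    obtain ⟨i, hi, hlt⟩ := hcon _ h4
    have h5 : ((j + 1 : ℕ) : ℝ) * s - s = (j : ℝ) * s := by push_cast; ring
    rw [h5] at hlt
    have h6 : N i ((j : ℝ) * s) ≤ q * N i (((j + 1 : ℕ) : ℝ) * s) := by
      rw [hq]; linarith
    rw [← Finset.mul_prod_erase I _ hi, ← Finset.mul_prod_erase I (fun i => N i _) hi,
      ← mul_assoc]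
    refine mul_le_mul h6 ?_ ?_ ?_
    · refine Finset.prod_le_prod (fun k hk => ?_) (fun k hk => ?_)
      · exact hm₀.le.trans (hlow k (Finset.mem_of_mem_erase hk) _ (hnn j))
      · refine hmono k (Finset.mem_of_mem_erase hk) ?_
        push_cast
        linarith
    · exact Finset.prod_nonneg fun k hk =>
        hm₀.le.trans (hlow k (Finset.mem_of_mem_erase hk) _ (hnn j))
    · exact mul_nonneg hq0.le (hm₀.le.trans (hlow i hi _ (hnn (j + 1))))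
  have hind : ∀ k : ℕ, ∏ i ∈ I, N i ((j₀ : ℝ) * s) ≤
      q ^ k * ∏ i ∈ I, N i (((j₀ + k : ℕ) : ℝ) * s) := by
    intro k
    induction k with
    | zero => simp
    | succ k ih =>
      refine ih.trans ?_
      have h7 := mul_le_mul_of_nonneg_left (hstep (j₀ + k) (by omega)) (pow_nonneg hq0.le k)
      refine h7.trans (le_of_eq ?_)
      rw [pow_succ, mul_assoc, add_assoc]
  have hlowP : m₀ ^ I.card ≤ ∏ i ∈ I, N i ((j₀ : ℝ) * s) := by
    rw [← Finset.prod_const]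
    exact Finset.prod_le_prod (fun _ _ => hm₀.le) (fun i hi => hlow i hi _ (hnn j₀))
  have hupP : ∀ m : ℕ, j₀ ≤ m →
      ∏ i ∈ I, N i ((m : ℝ) * s) ≤ (B * ((m : ℝ) * s) ^ d) ^ I.card := by
    intro m hm
    rw [← Finset.prod_const]
    refine Finset.prod_le_prod (fun i hi => hm₀.le.trans (hlow i hi _ (hnn m)))
      (fun i hi => hup i hi _ ?_)
    exact (le_max_right _ _).trans (hj₀s m hm)
  have hlim : Tendsto (fun m : ℕ => (B * s ^ d) ^ I.card *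
      ((m : ℝ) ^ (d * I.card) * q ^ m)) atTop (𝓝 ((B * s ^ d) ^ I.card * 0)) := by
    refine Tendsto.const_mul _ ?_
    exact tendsto_pow_const_mul_const_pow_of_abs_lt_one _ (by rw [abs_of_pos hq0]; exact hq1)
  rw [mul_zero] at hlim
  have hpos : 0 < m₀ ^ I.card * q ^ j₀ := by positivity
  obtain ⟨m, hm1, hm2⟩ := ((hlim.eventually (gt_mem_nhds hpos)).and
    (eventually_ge_atTop j₀)).exists
  obtain ⟨k, rfl⟩ : ∃ k, m = j₀ + k := ⟨m - j₀, by omega⟩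
  have h8 : m₀ ^ I.card ≤ q ^ k * (B * (((j₀ + k : ℕ) : ℝ) * s) ^ d) ^ I.card :=
    hlowP.trans ((hind k).trans
      (mul_le_mul_of_nonneg_left (hupP _ (by omega)) (pow_nonneg hq0.le k)))
  have h9 : m₀ ^ I.card * q ^ j₀ ≤
      q ^ k * (B * (((j₀ + k : ℕ) : ℝ) * s) ^ d) ^ I.card * q ^ j₀ :=
    mul_le_mul_of_nonneg_right h8 (pow_nonneg hq0.le j₀)
  refine absurd hm1 (not_lt.2 (h9.trans (le_of_eq ?_)))
  rw [pow_add q j₀ k, pow_mul, mul_pow (((j₀ + k : ℕ) : ℝ)) s d]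
  rw [show B * ((((j₀ + k : ℕ) : ℝ)) ^ d * s ^ d) = (B * s ^ d) * (((j₀ + k : ℕ) : ℝ)) ^ d by ring,
    mul_pow (B * s ^ d)]
  ring

end Pool.Agent.SpecAF
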