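import Pool.Agent.Lib.MP_53fa4a_an_AF.Defs

/-!
# MP_53fa4a_an (project AF): points of a relatively dense set in a ball
-/

set_option autoImplicit false

open MeasureTheory Set Filter Metric
open scoped ENNReal Topology ComplexConjugate

namespace Pool.Agent.SpecAF

open Pool.Agent.SpecND (E ee)

variable {d : ℕ}

/-- Proof. For `R ≥ 2 T` the ball `closedBall z (R - T)` is covered by the balls `ball l T`, `l ∈
F`: for `ξ` in it there is `l ∈ Λ` with `dist l ξ < T`, so `dist l z ≤ R`, i.e. `l ∈ F`. Compare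
volumes (`Measure.addHaar_closedBall`): `v (R - T) ^ d ≤ F.card * v T ^ d`, and `R - T ≥ R / 2`.
So `c = 1 / (2 T) ^ d` works. -/
theorem count_ball {Λ : Set (E d)} {T : ℝ} (hT : 0 < T)
    (hden : ∀ ξ : E d, ∃ l ∈ Λ, dist l ξ < T) :
    ∃ c : ℝ, 0 < c ∧ ∀ R : ℝ, 2 * T ≤ R → ∀ z : E d, ∀ F : Finset (E d),
      (F : Set (E d)) = Λ ∩ closedBall z R → c * R ^ d ≤ (F.card : ℝ) := by
  have hv : 0 < (volume : Measure (E d)).real (ball (0 : E d) 1) :=
    ENNReal.toReal_pos (measure_ball_pos volume 0 one_pos).ne' measure_ball_lt_top.ne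
  refine ⟨1 / (2 * T) ^ d, by positivity, fun R hR z F hF => ?_⟩
  have hRT : 0 ≤ R - T := by linarith
  have hcov : closedBall z (R - T) ⊆ ⋃ l ∈ F, ball l T := by
    intro ξ hξ
    obtain ⟨l, hl, hlξ⟩ := hden ξ
    have hlF : l ∈ F := by
      rw [← Finset.mem_coe, hF]
      refine ⟨hl, ?_⟩
      rw [mem_closedBall] at hξ ⊢
      have := dist_triangle l ξ z
      linarith
    refine mem_iUnion₂.2 ⟨l, hlF, ?_⟩
    rw [mem_ball, dist_comm]
    exact hlξ
  have hfin : (volume : Measure (E d)) (⋃ l ∈ F, ball l T) ≠ ⊤ :=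
    ((measure_biUnion_finset_le F _).trans_lt
      (ENNReal.sum_lt_top.2 fun l _ => measure_ball_lt_top)).ne
  have h1 : (volume : Measure (E d)).real (closedBall z (R - T)) ≤
      (volume : Measure (E d)).real (⋃ l ∈ F, ball l T) := measureReal_mono hcov hfin
  have h2 : (volume : Measure (E d)).real (⋃ l ∈ F, ball l T) ≤
      ∑ l ∈ F, (volume : Measure (E d)).real (ball l T) := measureReal_biUnion_finset_le F _
  have h3 : ∀ l : E d, (volume : Measure (E d)).real (ball l T) =
      T ^ d * (volume : Measure (E d)).real (ball (0 : E d) 1) := by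
    intro l
    rw [Measure.real, Measure.addHaar_ball_of_pos volume l hT, finrank_euclideanSpace_fin,
      ENNReal.toReal_mul, ENNReal.toReal_ofReal (by positivity)]
    rfl
  have h4 : (volume : Measure (E d)).real (closedBall z (R - T)) =
      (R - T) ^ d * (volume : Measure (E d)).real (ball (0 : E d) 1) := by
    rw [Measure.addHaar_real_closedBall volume z hRT, finrank_euclideanSpace_fin]
  have h5 : ∑ l ∈ F, (volume : Measure (E d)).real (ball l T) =
      (F.card : ℝ) * (T ^ d * (volume : Measure (E d)).real (ball (0 : E d) 1)) := by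
    rw [Finset.sum_congr rfl fun l _ => h3 l, Finset.sum_const, nsmul_eq_mul]
  rw [h4] at h1
  rw [h5] at h2
  have h6 : (R - T) ^ d ≤ (F.card : ℝ) * T ^ d := by
    have := h1.trans h2
    rw [← mul_assoc] at this
    exact le_of_mul_le_mul_right this hv
  have h7 : (R / 2) ^ d ≤ (R - T) ^ d := pow_le_pow_left₀ (by linarith) (by linarith) d
  have h8 : (R / 2) ^ d ≤ (F.card : ℝ) * T ^ d := h7.trans h6
  rw [one_div, inv_mul_le_iff₀ (by positivity), mul_pow, mul_assoc]
  rw [div_pow, div_le_iff₀ (by positivity)] at h8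
  linarith

end Pool.Agent.SpecAF
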