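import Pool.Agent.Lib.MP_53fa4a_an_AF.Defs

/-!
# MP_53fa4a_an (project AF): points of a separated set in an annulus
-/

set_option autoImplicit false

open MeasureTheory Set Filter Metric
open scoped ENNReal Topology ComplexConjugate

namespace Pool.Agent.SpecAF

open Pool.Agent.SpecND (E ee)

variable {d : ℕ}

private theorem CntU_pow (n : ℕ) {a b : ℝ} (hb : 0 ≤ b) (hab : b ≤ a) :
    a ^ (n + 1) - b ^ (n + 1) ≤ (n + 1) * (a - b) * a ^ n := by
  induction n with
  | zero => simp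
  | succ n ih =>
    have ha : 0 ≤ a := hb.trans hab
    have h1 : a ^ (n + 2) - b ^ (n + 2) = a * (a ^ (n + 1) - b ^ (n + 1)) +
        b ^ (n + 1) * (a - b) := by ring
    have h2 : b ^ (n + 1) ≤ a ^ (n + 1) := pow_le_pow_left₀ hb hab _
    have h3 := mul_le_mul_of_nonneg_left ih ha
    have h4 := mul_le_mul_of_nonneg_right h2 (sub_nonneg.2 hab)
    rw [h1]
    push_cast
    calc a * (a ^ (n + 1) - b ^ (n + 1)) + b ^ (n + 1) * (a - b)
        ≤ a * ((n + 1) * (a - b) * a ^ n) + a ^ (n + 1) * (a - b) := add_le_add h3 h4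
      _ = (n + 1 + 1) * (a - b) * a ^ (n + 1) := by ring

private theorem CntU_ball (x : E d) {r : ℝ} (hr : 0 < r) :
    (volume : Measure (E d)).real (ball x r) =
      r ^ d * (volume : Measure (E d)).real (ball 0 1) := by
  have h := Measure.addHaar_ball_of_pos (volume : Measure (E d)) x hr
  rw [Measure.real, h, ENNReal.toReal_mul, ENNReal.toReal_ofReal (by positivity)]
  simp [Measure.real]

/-- packing in the complement of a ball -/
private theorem CntU_pack {r₀ A B : ℝ} (hr₀ : 0 < r₀) (hA : 0 ≤ A) (z : E d) (F : Finset (E d))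
    {l0 : E d} (hl0 : l0 ∈ F)
    (hsep : ∀ l ∈ F, ∀ l' ∈ F, l ≠ l' → r₀ ≤ dist l l')
    (h1 : ∀ l ∈ F, dist l z + r₀ / 2 ≤ A) (h2 : ∀ l ∈ F, B + r₀ / 2 ≤ dist l z) :
    (F.card : ℝ) * (r₀ / 2) ^ d * (volume : Measure (E d)).real (ball 0 1) +
      (volume : Measure (E d)).real (ball z B) ≤
      A ^ d * (volume : Measure (E d)).real (ball 0 1) := by
  have hdisj : (F : Set (E d)).PairwiseDisjoint fun l => ball l (r₀ / 2) := by
    intro l hl l' hl' hne
    have h3 := hsep l hl l' hl' hne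
    exact ball_disjoint_ball (by linarith)
  have hU : (volume : Measure (E d)).real (⋃ l ∈ F, ball l (r₀ / 2)) =
      (F.card : ℝ) * (r₀ / 2) ^ d * (volume : Measure (E d)).real (ball 0 1) := by
    rw [measureReal_biUnion_finset hdisj (fun l _ => measurableSet_ball)]
    rw [Finset.sum_congr rfl (fun l _ => CntU_ball l (half_pos hr₀)), Finset.sum_const,
      nsmul_eq_mul]
    ring
  have hd2 : Disjoint (⋃ l ∈ F, ball l (r₀ / 2)) (ball z B) := by
    rw [Set.disjoint_iUnion₂_left]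
    intro l hl
    refine ball_disjoint_ball ?_
    have := h2 l hl
    linarith
  have hsub : (⋃ l ∈ F, ball l (r₀ / 2)) ∪ ball z B ⊆ closedBall z (max A B) := by
    refine Set.union_subset ?_ ?_
    · refine Set.iUnion₂_subset fun l hl => ?_
      refine (ball_subset_closedBall).trans (closedBall_subset_closedBall' ?_)
      have := h1 l hl
      rw [add_comm]
      exact this.trans (le_max_left _ _)
    · exact (ball_subset_closedBall).trans (closedBall_subset_closedBall (le_max_right _ _))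
  have hBA : B ≤ A := by
    have h3 := h1 l0 hl0
    have h4 := h2 l0 hl0
    linarith
  rw [max_eq_left hBA] at hsub
  have hfin : (volume : Measure (E d)) (⋃ l ∈ F, ball l (r₀ / 2)) ≠ ∞ :=
    ((measure_mono (Set.subset_union_left.trans hsub)).trans_lt measure_closedBall_lt_top).ne
  rw [← hU, ← measureReal_union hd2 measurableSet_ball hfin]
  refine (measureReal_mono hsub measure_closedBall_lt_top.ne).trans ?_
  rw [Measure.addHaar_real_closedBall _ _ hA]
  simp

/-- Proof. The balls `ball l (r₀ / 2)`, `l ∈ F`, are disjoint and contained in the set `closedBall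
z (R + r₀) minus ball z (R - T - r₀)`, whose volume is `v ((R + r₀) ^ d - (max (R - T - r₀) 0) ^
d)`, `v` the volume of the unit ball (`EuclideanSpace.volume_ball` or `Measure.addHaar_ball`). As
`a ^ d - b ^ d ≤ d (a - b) a ^ (d - 1)` for `0 ≤ b ≤ a`, this is at most `v d (T + 2 r₀) (R + r₀)
^ (d - 1) ≤ v d (T + 2 r₀) (1 + r₀) ^ (d - 1) R ^ (d - 1)` for `R ≥ 1` (if `R - T - r₀ < 0` use `R
+ r₀ ≤ T + 2 r₀`). Divide by `v (r₀ / 2) ^ d`. -/
theorem count_annulus (hd : 0 < d) {Λ : Set (E d)} {r₀ : ℝ} (hr₀ : 0 < r₀)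
    (hsep : ∀ l ∈ Λ, ∀ l' ∈ Λ, l ≠ l' → r₀ ≤ dist l l') {T : ℝ} (hT : 0 < T) :
    ∃ C : ℝ, 0 < C ∧ ∀ R : ℝ, 1 ≤ R → ∀ z : E d, ∀ F : Finset (E d),
      (∀ l ∈ F, l ∈ Λ ∧ dist l z ≤ R ∧ R - T < dist l z) → (F.card : ℝ) ≤ C * R ^ (d - 1) := by
  obtain ⟨n, rfl⟩ : ∃ n, d = n + 1 := ⟨d - 1, by omega⟩
  refine ⟨(n + 1) * (T + 2 * r₀) * (1 + r₀) ^ n / (r₀ / 2) ^ (n + 1), by positivity, ?_⟩
  intro R hR z F hF
  have hR0 : 0 < R := by linarith
  have hv : 0 < (volume : Measure (E (n + 1))).real (ball 0 1) :=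
    ENNReal.toReal_pos (measure_ball_pos _ _ zero_lt_one).ne' measure_ball_lt_top.ne
  have hsepF : ∀ l ∈ F, ∀ l' ∈ F, l ≠ l' → r₀ ≤ dist l l' := fun l hl l' hl' h =>
    hsep l (hF l hl).1 l' (hF l' hl').1 h
  rw [Nat.add_sub_cancel, div_mul_eq_mul_div, le_div_iff₀ (by positivity)]
  rcases F.eq_empty_or_nonempty with hFe | ⟨l0, hl0⟩
  · rw [hFe]
    simp only [Finset.card_empty, Nat.cast_zero, zero_mul]
    positivity
  have hpack := CntU_pack (d := n + 1) (A := R + r₀) (B := R - T - r₀) hr₀ (by linarith) z F hl0 hsepF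
    (fun l hl => by have := (hF l hl).2.1; linarith)
    (fun l hl => by have := (hF l hl).2.2; linarith)
  have hRn : (R + r₀) ^ n ≤ (1 + r₀) ^ n * R ^ n := by
    rw [← mul_pow]
    refine pow_le_pow_left₀ (by linarith) ?_ n
    nlinarith
  have hkey : (F.card : ℝ) * (r₀ / 2) ^ (n + 1) ≤ (n + 1) * (T + 2 * r₀) * (R + r₀) ^ n := by
    rcases le_or_gt (R - T - r₀) 0 with hB | hB
    · have h1 : (F.card : ℝ) * (r₀ / 2) ^ (n + 1) * (volume : Measure (E (n + 1))).real (ball 0 1) ≤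
          (R + r₀) ^ (n + 1) * (volume : Measure (E (n + 1))).real (ball 0 1) := by
        have := measureReal_nonneg (μ := (volume : Measure (E (n + 1))))
          (s := ball z (R - T - r₀))
        linarith
      have h2 := le_of_mul_le_mul_right h1 hv
      have h3 : 0 ≤ (R + r₀) ^ n := by positivity
      have hn : (0 : ℝ) ≤ n := Nat.cast_nonneg n
      calc (F.card : ℝ) * (r₀ / 2) ^ (n + 1) ≤ (R + r₀) ^ (n + 1) := h2
        _ = (R + r₀) * (R + r₀) ^ n := by ring
        _ ≤ ((n + 1) * (T + 2 * r₀)) * (R + r₀) ^ n := by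
          refine mul_le_mul_of_nonneg_right ?_ h3
          nlinarith
    · rw [CntU_ball z hB] at hpack
      have h1 : ((F.card : ℝ) * (r₀ / 2) ^ (n + 1)) *
          (volume : Measure (E (n + 1))).real (ball 0 1) ≤
          ((R + r₀) ^ (n + 1) - (R - T - r₀) ^ (n + 1)) *
            (volume : Measure (E (n + 1))).real (ball 0 1) := by
        rw [sub_mul]
        linarith
      have h2 := le_of_mul_le_mul_right h1 hv
      have h3 := CntU_pow n hB.le (show R - T - r₀ ≤ R + r₀ by linarith)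
      have h4 : R + r₀ - (R - T - r₀) = T + 2 * r₀ := by ring
      rw [h4] at h3
      exact h2.trans h3
  refine hkey.trans ?_
  have h5 : (0 : ℝ) ≤ (n + 1) * (T + 2 * r₀) := by positivity
  calc ((n : ℝ) + 1) * (T + 2 * r₀) * (R + r₀) ^ n
      ≤ (n + 1) * (T + 2 * r₀) * ((1 + r₀) ^ n * R ^ n) := mul_le_mul_of_nonneg_left hRn h5
    _ = (n + 1) * (T + 2 * r₀) * (1 + r₀) ^ n * R ^ n := by ring

end Pool.Agent.SpecAF
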