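import Pool.Agent.Lib.MP_53fa4a_an_AF.Defs

/-!
# MP_53fa4a_an (project AF): absolutely continuous measures of translates
-/

set_option autoImplicit false

open MeasureTheory Set Filter Metric
open scoped ENNReal Topology ComplexConjugate

namespace Pool.Agent.SpecAF

open Pool.Agent.SpecND (E ee)

variable {d : ℕ}

private theorem ContA_symm {Ω : Set (E d)} (hm : MeasurableSet Ω) (hfin : volume Ω ≠ ∞)
    (y₀ : E d) :
    Tendsto (fun y => volume (symmDiff (tr Ω y) (tr Ω y₀))) (𝓝 y₀) (𝓝 0) := by
  obtain ⟨f, hf⟩ : ∃ f : C(E d, C(E d, E d)), ∀ y z, f y z = z - y :=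
    ⟨ContinuousMap.curry ⟨fun p : E d × E d => p.2 - p.1, continuous_snd.sub continuous_fst⟩,
      fun _ _ => rfl⟩
  have hpre : ∀ y, f y ⁻¹' Ω = tr Ω y := by
    intro y
    ext z
    rw [mem_preimage, hf]
    exact Iff.rfl
  have hmp : ∀ y, MeasurePreserving (f y) volume volume := by
    intro y
    have e : (f y : E d → E d) = fun z => z - y := funext fun z => hf y z
    rw [e]
    exact measurePreserving_sub_right volume y
  have h := tendsto_measure_symmDiff_preimage_nhds_zero (μ := (volume : Measure (E d)))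
    (ν := (volume : Measure (E d))) (l := 𝓝 y₀) (f := fun y => f y) (g := f y₀) (s := Ω)
    (f.continuous.tendsto y₀) (Eventually.of_forall hmp) (hmp y₀) hm.nullMeasurableSet hfin
  simp only [hpre] at h
  exact h

/-- Proof. Continuity at `y₀`: for `dist y y₀ ≤ 1` all sets `tr Ω y` lie in a fixed ball `B`. Let
`g = ν.rnDeriv volume` on `B`, an integrable function (`ν B < ∞`), so `ν (tr Ω y) = ∫_{tr Ω y ∩ B}
g`. `|ν.real (tr Ω y) - ν.real (tr Ω y₀)| ≤ ∫_{tr Ω y Δ tr Ω y₀} g`, and the measure of the
symmetric difference of `tr Ω y` and `tr Ω y₀` tends to `0` as `y → y₀` (continuity of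
translations in `L¹`; see `small_shift` in `Lib/MP_53fa4a_an/Trans.lean`); use the absolute
continuity of the integral (`tendsto_setLIntegral_zero` or `Measure.AbsolutelyContinuous` with
finite measures: for every `ε` there is `δ` such that `volume S ≤ δ` implies `(ν.restrict B) S ≤
ε`). -/
theorem cont_ac {ν : Measure (E d)} [IsLocallyFiniteMeasure ν] (hac : ν ≪ volume)
    {Ω : Set (E d)} (hm : MeasurableSet Ω) (hb : Bornology.IsBounded Ω) :
    Continuous fun y => ν.real (tr Ω y) := by
  obtain ⟨R, hR⟩ := hb.subset_closedBall 0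
  rw [continuous_iff_continuousAt]
  intro y₀
  have hfin : volume Ω ≠ ∞ := hb.measure_lt_top.ne
  have hB : ν (closedBall y₀ (R + 1)) < ∞ := (isCompact_closedBall y₀ (R + 1)).measure_lt_top
  have iB : IsFiniteMeasure (ν.restrict (closedBall y₀ (R + 1))) :=
    ⟨by rw [Measure.restrict_apply_univ]; exact hB⟩
  have hacB : ν.restrict (closedBall y₀ (R + 1)) ≪ volume :=
    Measure.absolutelyContinuous_of_le Measure.restrict_le_self |>.trans hac
  have hg := Measure.withDensity_rnDeriv_eq (ν.restrict (closedBall y₀ (R + 1))) volume hacB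
  have hsub : ∀ y, dist y y₀ ≤ 1 → tr Ω y ⊆ closedBall y₀ (R + 1) := by
    intro y hy z hz
    have h1 : z - y ∈ closedBall (0 : E d) R := hR hz
    rw [mem_closedBall, dist_zero_right, ← dist_eq_norm] at h1
    rw [mem_closedBall]
    have h2 := dist_triangle z y y₀
    linarith
  have hmeas : ∀ S : Set (E d), MeasurableSet S →
      (ν.restrict (closedBall y₀ (R + 1))) S =
        ∫⁻ x in S, (ν.restrict (closedBall y₀ (R + 1))).rnDeriv volume x := by
    intro S hS
    conv_lhs => rw [← hg]
    exact withDensity_apply _ hS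
  have hfinI : ∫⁻ x, (ν.restrict (closedBall y₀ (R + 1))).rnDeriv volume x ≠ ∞ := by
    have h1 := hmeas univ MeasurableSet.univ
    rw [Measure.restrict_univ] at h1
    rw [← h1]
    exact measure_ne_top _ _
  have hsym := ContA_symm hm hfin y₀
  have h0 : Tendsto (fun y => (ν.restrict (closedBall y₀ (R + 1)))
      (symmDiff (tr Ω y) (tr Ω y₀))) (𝓝 y₀) (𝓝 0) := by
    have h1 := tendsto_setLIntegral_zero hfinI (l := 𝓝 y₀)
      (s := fun y => symmDiff (tr Ω y) (tr Ω y₀)) hsym
    refine h1.congr fun y => ?_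
    rw [hmeas _ ((measurableSet_tr hm y).symmDiff (measurableSet_tr hm y₀))]
  have h0' : Tendsto (fun y => (ν.restrict (closedBall y₀ (R + 1))).real
      (symmDiff (tr Ω y) (tr Ω y₀))) (𝓝 y₀) (𝓝 0) := by
    have h1 := (ENNReal.tendsto_toReal ENNReal.zero_ne_top).comp h0
    rw [ENNReal.toReal_zero] at h1
    exact h1
  have hreal : ∀ y, dist y y₀ ≤ 1 →
      ν.real (tr Ω y) = (ν.restrict (closedBall y₀ (R + 1))).real (tr Ω y) := by
    intro y hy
    rw [Measure.real, Measure.real, Measure.restrict_eq_self ν (hsub y hy)]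
  rw [ContinuousAt, tendsto_iff_dist_tendsto_zero]
  refine squeeze_zero' (Eventually.of_forall fun _ => dist_nonneg) ?_ h0'
  have hnear : ∀ᶠ y in 𝓝 y₀, dist y y₀ ≤ 1 := by
    filter_upwards [closedBall_mem_nhds y₀ one_pos] with y hy
    exact hy
  filter_upwards [hnear] with y hy
  rw [Real.dist_eq, hreal y hy, hreal y₀ (by rw [dist_self]; exact zero_le_one)]
  exact abs_measureReal_sub_le_measureReal_symmDiff (measurableSet_tr hm y).nullMeasurableSet
    (measurableSet_tr hm y₀).nullMeasurableSet

end Pool.Agent.SpecAF
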