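import Pool.Agent.Lib.MP_53fa4a_an_AF.Defs

/-!
# MP_53fa4a_an (project AF): convolution of measures on affine subspaces
-/

set_option autoImplicit false

open MeasureTheory Set Filter Metric
open scoped ENNReal Topology ComplexConjugate

namespace Pool.Agent.SpecAF

open Pool.Agent.SpecND (E ee)

variable {d : ℕ}

/-- Proof. Let `N` be a measurable null set of `map (fun z : ↥(W ⊔ W') => z + (t + t')) volume`,
i.e. `N₁ = {u : ↥(W ⊔ W') | u + (t + t') ∈ N}` is a null set. The linear map `L : W × W' → W ⊔
W'`, `(w, w') ↦ w + w'`, is surjective, so the preimage of a null set is a null set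
(`LinearMap.exists_map_addHaar_eq_smul_addHaar` or the quasi measure preserving property of a
surjective linear map; the product measure on `W × W'` is an additive Haar measure). So `{(w, w')
| w + t + (w' + t') ∈ N}` is a null set of the product measure, that is, `{(z, z') | z + z' ∈ N}`
is a null set of the product of the two image measures (`Measure.map_prod_map`), hence of `κ.prod
κ'` (`Measure.AbsolutelyContinuous.prod`), i.e. `(κ ∗ κ') N = 0`. -/
theorem at_conv {t t' : E d} {W W' : Submodule ℝ (E d)} {κ κ' : Measure (E d)}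
    [IsFiniteMeasure κ] [IsFiniteMeasure κ'] (h : AT t W κ) (h' : AT t' W' κ') :
    AT (t + t') (W ⊔ W') (κ ∗ κ') := by
  unfold AT at h h' ⊢
  let L : (W × W') →ₗ[ℝ] ↥(W ⊔ W') := LinearMap.coprod
    (Submodule.inclusion (le_sup_left : W ≤ W ⊔ W'))
    (Submodule.inclusion (le_sup_right : W' ≤ W ⊔ W'))
  have hLv : ∀ p : W × W', ((L p : ↥(W ⊔ W')) : E d) = (p.1 : E d) + (p.2 : E d) := by
    intro p
    simp [L]
  have hL : Function.Surjective L := by
    rintro ⟨x, hx⟩
    obtain ⟨y, hy, z, hz, rfl⟩ := Submodule.mem_sup.1 hx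
    exact ⟨(⟨y, hy⟩, ⟨z, hz⟩), Subtype.ext (hLv _)⟩
  obtain ⟨c, _, hc⟩ := L.exists_map_addHaar_eq_smul_addHaar
    ((volume : Measure W).prod (volume : Measure W')) (volume : Measure ↥(W ⊔ W')) hL
  have hf : Measurable (fun z : W => (z : E d) + t) := by fun_prop
  have hf' : Measurable (fun z : W' => (z : E d) + t') := by fun_prop
  have hf'' : Measurable (fun z : ↥(W ⊔ W') => (z : E d) + (t + t')) := by fun_prop
  have hLm : Measurable L := L.continuous_of_finiteDimensional.measurable
  have h1 : κ.prod κ' ≪ (Measure.map (fun z : W => (z : E d) + t) volume).prod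
      (Measure.map (fun z : W' => (z : E d) + t') volume) := h.prod h'
  rw [Measure.map_prod_map _ _ hf hf'] at h1
  have h2 := h1.map (measurable_add : Measurable fun p : E d × E d => p.1 + p.2)
  rw [Measure.map_map measurable_add (hf.prodMap hf')] at h2
  have h3 : ((fun p : E d × E d => p.1 + p.2) ∘
      Prod.map (fun z : W => (z : E d) + t) (fun z : W' => (z : E d) + t')) =
      (fun z : ↥(W ⊔ W') => (z : E d) + (t + t')) ∘ L := by
    funext p
    simp only [Function.comp, Prod.map, hLv]
    abel
  rw [h3, ← Measure.map_map hf'' hLm, hc] at h2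
  refine (show κ ∗ κ' ≪ _ from h2).trans ?_
  exact (Measure.smul_absolutelyContinuous).map hf''

end Pool.Agent.SpecAF
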