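import Pool.Agent.Lib.MP_53fa4a_an.Appr

/-!
# MP_53fa4a_an, project AF: definitions

Measures on `ℝ^d` which are absolutely continuous with respect to Lebesgue measures on affine
subspaces, tiling measures of a bounded set, averages and differences of functions.
-/

set_option autoImplicit false

open MeasureTheory Set Filter Metric
open scoped ENNReal Topology ComplexConjugate

namespace Pool.Agent.SpecAF

open Pool.Agent.SpecND (E ee)

/-- `Λ` is a spectrum of `Ω`: the exponentials with frequencies in `Λ` are an orthogonal and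
complete family in `L²(Ω)`. -/
def IsSpectrum {d : ℕ} (Λ Ω : Set (E d)) : Prop :=
  (∀ l ∈ Λ, ∀ l' ∈ Λ, l ≠ l' → ∫ x in Ω, ee l x * conj (ee l' x) = 0) ∧
    ∀ f : E d → ℂ, MemLp f 2 (volume.restrict Ω) →
      (∀ l ∈ Λ, ∫ x in Ω, f x * conj (ee l x) = 0) → f =ᵐ[volume.restrict Ω] 0

/-- `ν` is a diffraction measure of `Λ`: a locally finite measure which is the vague limit of the
densities `|∑_{l ∈ F} e_l|² / #F`, `F` the part of `Λ` in balls with radii tending to infinity. -/
def IsDiffraction {d : ℕ} (Λ : Set (E d)) (ν : Measure (E d)) : Prop :=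
  IsLocallyFiniteMeasure ν ∧ ∃ (z : ℕ → E d) (R : ℕ → ℝ) (F : ℕ → Finset (E d)),
    Tendsto R atTop atTop ∧ (∀ k, (F k : Set (E d)) = Λ ∩ closedBall (z k) (R k)) ∧
      ∀ f : E d → ℝ, Continuous f → HasCompactSupport f →
        Tendsto (fun k => ∫ x, f x * (‖∑ l ∈ F k, ee l x‖ ^ 2 / (F k).card)) atTop
          (𝓝 (∫ x, f x ∂ν))

variable {d : ℕ}

/-- The translate of `A` by `y`. -/
def tr (A : Set (E d)) (y : E d) : Set (E d) := {z | z - y ∈ A}

/-- `κ` is absolutely continuous with respect to Lebesgue measure on the affine subspace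
`t + W`. -/
def AT (t : E d) (W : Submodule ℝ (E d)) (κ : Measure (E d)) : Prop :=
  κ ≪ Measure.map (fun z : W => (z : E d) + t) volume

/-- `ν` is of affine type: a countable sum of measures, each absolutely continuous with respect to
Lebesgue measure on an affine subspace, the directions being taken from a finite set. -/
def AffineType (ν : Measure (E d)) : Prop :=
  ∃ (L : Finset (Submodule ℝ (E d))) (κ : ℕ → Measure (E d)) (t : ℕ → E d)
    (F : ℕ → Submodule ℝ (E d)), (∀ n, F n ∈ L) ∧ (∀ n, AT (t n) (F n) (κ n)) ∧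
      ν = Measure.sum κ

/-- Bounded and measurable. -/
def BM (f : E d → ℝ) : Prop := Measurable f ∧ ∃ c : ℝ, ∀ v, |f v| ≤ c

/-- A mean on bounded measurable functions, invariant under the translations in `X`, which vanishes
on the set `C`. -/
structure Mean (C X : Set (E d)) (M : (E d → ℝ) → ℝ) : Prop where
  add : ∀ f g, BM f → BM g → M (fun v => f v + g v) = M f + M g
  smul : ∀ (a : ℝ) (f), BM f → M (fun v => a * f v) = a * M f
  mono : ∀ f g, BM f → BM g → (∀ᵐ v, f v ≤ g v) → M f ≤ M g
  one : M (fun _ => 1) = 1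
  inv : ∀ x ∈ X, ∀ f, BM f → M (fun v => f (v + x)) = M f
  null : M (C.indicator fun _ => 1) = 0

/-- The measure of the translate `P + y`. -/
noncomputable def Th (P : Set (E d)) (κ : Measure (E d)) (y : E d) : ℝ := κ.real (tr P y)

/-- The average of `f` against the measure `α`. -/
noncomputable def Av (α : Measure (E d)) (f : E d → ℝ) (y : E d) : ℝ := ∫ z, f (y - z) ∂α

/-- The product of the operators `1 - Av α`, `α` in the list. -/
noncomputable def Df : List (Measure (E d)) → (E d → ℝ) → E d → ℝ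
  | [], f => f
  | α :: l, f => Df l (fun y => f y - Av α f y)

/-- The product of the operators `1 + Av α`, `α` in the list. -/
noncomputable def Dp : List (Measure (E d)) → (E d → ℝ) → E d → ℝ
  | [], f => f
  | α :: l, f => Dp l (fun y => f y + Av α f y)

/-- The alternating sum of the values of `m` at the sums of `W` with the members of the list. -/
def cc (m : Submodule ℝ (E d) → ℝ) : List (Submodule ℝ (E d)) → Submodule ℝ (E d) → ℝ
  | [], W => m W
  | F :: l, W => cc m l W - cc m l (W ⊔ F)

/-- The sum of the values of `m` at the sums of `W` with the members of the list. -/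
def cp (m : Submodule ℝ (E d) → ℝ) : List (Submodule ℝ (E d)) → Submodule ℝ (E d) → ℝ
  | [], W => m W
  | F :: l, W => cp m l W + cp m l (W ⊔ F)

/-- The uniform probability measure on the ball of radius `δ` of the subspace `W`. -/
noncomputable def bm (W : Submodule ℝ (E d)) (δ : ℝ) : Measure (E d) :=
  Measure.map (fun z : W => (z : E d))
    ((volume (closedBall (0 : W) δ))⁻¹ • volume.restrict (closedBall (0 : W) δ))

/-- The vector `2 ρ l` of the lattice of periods. -/
noncomputable def lat (ρ : ℝ) (l : Fin d → ℤ) : E d := WithLp.toLp 2 fun i => 2 * ρ * (l i : ℝ)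

/-- The Fourier transform of the indicator function of `A`. -/
noncomputable def ft (A : Set (E d)) (η : E d) : ℂ := ∫ x in A, conj (ee η x)

open Classical in
/-- The sum of the pieces with directions in `V`. -/
noncomputable def low (κ : ℕ → Measure (E d)) (F : ℕ → Submodule ℝ (E d))
    (V : Submodule ℝ (E d)) : Measure (E d) := Measure.sum fun n => if F n ≤ V then κ n else 0

/-- The periodic set generated by `A`. -/
def per (ρ : ℝ) (A : Set (E d)) : Set (E d) := {x | ∃ l : Fin d → ℤ, x - lat ρ l ∈ A}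

/-- The cube with centre `0` and side `2 ρ`. -/
def cube (ρ : ℝ) : Set (E d) := {z | ∀ i, |z i| ≤ ρ}

/-- The points with distance more than `a` from the boundary of the lattice cubes. -/
def inn (ρ a : ℝ) : Set (E d) := {y | ∃ l : Fin d → ℤ, ∀ i, |(y - lat ρ l) i| < ρ - a}

lemma lat_apply (ρ : ℝ) (l : Fin d → ℤ) (i : Fin d) : lat ρ l i = 2 * ρ * (l i : ℝ) := rfl

lemma lat_add (ρ : ℝ) (l l' : Fin d → ℤ) : lat ρ (l + l') = lat ρ l + lat ρ l' := by
  ext i
  rw [PiLp.add_apply, lat_apply, lat_apply, lat_apply, Pi.add_apply]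
  push_cast
  ring

lemma lat_neg (ρ : ℝ) (l : Fin d → ℤ) : lat ρ (-l) = -lat ρ l := by
  ext i
  rw [PiLp.neg_apply, lat_apply, lat_apply, Pi.neg_apply]
  push_cast
  ring

lemma coord_le_norm (v : E d) (i : Fin d) : |v i| ≤ ‖v‖ := by
  have := PiLp.norm_apply_le v i
  rwa [Real.norm_eq_abs] at this

lemma mem_tr {A : Set (E d)} {y z : E d} : z ∈ tr A y ↔ z - y ∈ A := Iff.rfl

lemma tr_mono {A B : Set (E d)} (h : A ⊆ B) (y : E d) : tr A y ⊆ tr B y := fun _ hz => h hz

lemma measurableSet_tr {A : Set (E d)} (hA : MeasurableSet A) (y : E d) :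
    MeasurableSet (tr A y) := (measurable_id.sub_const y) hA

lemma measurableSet_cube (ρ : ℝ) : MeasurableSet (cube (d := d) ρ) := by
  have : cube (d := d) ρ = ⋂ i, {z | |z i| ≤ ρ} := by
    ext z
    simp [cube]
  rw [this]
  refine MeasurableSet.iInter fun i => ?_
  have h : Continuous fun z : E d => |z i| :=
    ((EuclideanSpace.proj i : E d →L[ℝ] ℝ).continuous).abs
  exact (isClosed_le h continuous_const).measurableSet

lemma measurableSet_per {A : Set (E d)} (hA : MeasurableSet A) (ρ : ℝ) :
    MeasurableSet (per ρ A) := by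
  have : per ρ A = ⋃ l : Fin d → ℤ, (fun x => x - lat ρ l) ⁻¹' A := by
    ext x
    simp [per]
  rw [this]
  exact MeasurableSet.iUnion fun l => (measurable_id.sub_const _) hA

lemma isOpen_inn (ρ a : ℝ) : IsOpen (inn (d := d) ρ a) := by
  have : inn (d := d) ρ a = ⋃ l : Fin d → ℤ, ⋂ i, {y : E d | |(y - lat ρ l) i| < ρ - a} := by
    ext y
    simp [inn]
  rw [this]
  refine isOpen_iUnion fun l => isOpen_iInter_of_finite fun i => ?_
  have h : Continuous fun y : E d => |(y - lat ρ l) i| :=
    ((EuclideanSpace.proj i : E d →L[ℝ] ℝ).continuous.comp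
      (continuous_id.sub continuous_const)).abs
  exact isOpen_lt h continuous_const

lemma cube_mono {ρ ρ' : ℝ} (h : ρ ≤ ρ') : cube (d := d) ρ ⊆ cube ρ' := fun _ hz i => (hz i).trans h

lemma BM.add {f g : E d → ℝ} (hf : BM f) (hg : BM g) : BM fun v => f v + g v := by
  obtain ⟨hf1, c, hc⟩ := hf
  obtain ⟨hg1, c', hc'⟩ := hg
  exact ⟨hf1.add hg1, c + c', fun v => (abs_add_le _ _).trans (add_le_add (hc v) (hc' v))⟩

lemma BM.sub {f g : E d → ℝ} (hf : BM f) (hg : BM g) : BM fun v => f v - g v := by
  obtain ⟨hf1, c, hc⟩ := hf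
  obtain ⟨hg1, c', hc'⟩ := hg
  exact ⟨hf1.sub hg1, c + c', fun v => (abs_sub _ _).trans (add_le_add (hc v) (hc' v))⟩

lemma BM.mul_const {f : E d → ℝ} (hf : BM f) (a : ℝ) : BM fun v => a * f v := by
  obtain ⟨hf1, c, hc⟩ := hf
  refine ⟨hf1.const_mul a, |a| * c, fun v => ?_⟩
  rw [abs_mul]
  exact mul_le_mul_of_nonneg_left (hc v) (abs_nonneg a)

lemma BM.abs {f : E d → ℝ} (hf : BM f) : BM fun v => |f v| := by
  obtain ⟨hf1, c, hc⟩ := hf
  exact ⟨hf1.abs, c, fun v => by rw [abs_abs]; exact hc v⟩

lemma bm_const (a : ℝ) : BM fun _ : E d => a := ⟨measurable_const, |a|, fun _ => le_rfl⟩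

lemma BM.shift {f : E d → ℝ} (hf : BM f) (x : E d) : BM fun v => f (v + x) :=
  ⟨hf.1.comp (measurable_id.add_const x), hf.2.imp fun _ h _ => h _⟩

lemma bm_th {P : Set (E d)} (hP : MeasurableSet P) (κ : Measure (E d)) [IsFiniteMeasure κ] :
    BM (Th P κ) := by
  refine ⟨?_, κ.real univ, fun v => ?_⟩
  · have h : Measurable fun y : E d => κ (tr P y) := by
      have hs : MeasurableSet {p : E d × E d | p.2 - p.1 ∈ P} :=
        (measurable_snd.sub measurable_fst) hP
      exact measurable_measure_prodMk_left hs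
    exact h.ennreal_toReal
  · rw [Th, abs_of_nonneg measureReal_nonneg]
    exact measureReal_mono (subset_univ _)

lemma th_nonneg (P : Set (E d)) (κ : Measure (E d)) (y : E d) : 0 ≤ Th P κ y := measureReal_nonneg

lemma bm_av {f : E d → ℝ} (hf : BM f) (α : Measure (E d)) [IsFiniteMeasure α] : BM (Av α f) := by
  obtain ⟨hf1, c, hc⟩ := hf
  refine ⟨?_, α.real univ * c, fun y => ?_⟩
  · have h : StronglyMeasurable fun p : E d × E d => f (p.1 - p.2) :=
      (hf1.comp (measurable_fst.sub measurable_snd)).stronglyMeasurable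
    exact (h.integral_prod_right (ν := α)).measurable
  · unfold Av
    have := norm_integral_le_of_norm_le_const (μ := α) (f := fun z => f (y - z)) (C := c)
      (Eventually.of_forall fun z => by rw [Real.norm_eq_abs]; exact hc _)
    rw [Real.norm_eq_abs] at this
    linarith [this, mul_comm c (α.real univ)]

lemma Mean.sub {C X : Set (E d)} {M : (E d → ℝ) → ℝ} (hM : Mean C X M) {f g : E d → ℝ}
    (hf : BM f) (hg : BM g) : M (fun v => f v - g v) = M f - M g := by
  have h1 := hM.add f (fun v => -1 * g v) hf (hg.mul_const (-1))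
  rw [hM.smul (-1) g hg] at h1
  have h2 : (fun v => f v - g v) = fun v => f v + -1 * g v := by
    funext v
    ring
  rw [h2, h1]
  ring

lemma Mean.const {C X : Set (E d)} {M : (E d → ℝ) → ℝ} (hM : Mean C X M) (a : ℝ) :
    M (fun _ => a) = a := by
  have h := hM.smul a (fun _ => 1) (bm_const 1)
  rw [hM.one, mul_one] at h
  simpa using h

lemma Mean.abs_le {C X : Set (E d)} {M : (E d → ℝ) → ℝ} (hM : Mean C X M) {f : E d → ℝ}
    (hf : BM f) {c : ℝ} (h : ∀ᵐ v, |f v| ≤ c) : |M f| ≤ c := by
  rw [_root_.abs_le]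
  constructor
  · rw [← hM.const (-c)]
    exact hM.mono _ _ (bm_const _) hf (h.mono fun v hv => (_root_.abs_le.1 hv).1)
  · conv_rhs => rw [← hM.const c]
    exact hM.mono _ _ hf (bm_const _) (h.mono fun v hv => (_root_.abs_le.1 hv).2)

lemma Mean.abs_le_abs {C X : Set (E d)} {M : (E d → ℝ) → ℝ} (hM : Mean C X M) {f : E d → ℝ}
    (hf : BM f) : |M f| ≤ M (fun v => |f v|) := by
  rw [_root_.abs_le]
  constructor
  · have h1 := hM.mono (fun v => -1 * |f v|) f (hf.abs.mul_const (-1)) hf
      (Eventually.of_forall fun v => by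
        have := neg_abs_le (f v)
        linarith)
    rw [hM.smul (-1) _ hf.abs] at h1
    linarith
  · exact hM.mono _ _ hf hf.abs (Eventually.of_forall fun v => le_abs_self _)

lemma Mean.nonneg {C X : Set (E d)} {M : (E d → ℝ) → ℝ} (hM : Mean C X M) {f : E d → ℝ}
    (hf : BM f) (h : ∀ᵐ v, 0 ≤ f v) : 0 ≤ M f := by
  rw [← hM.const 0]
  exact hM.mono _ _ (bm_const _) hf h

end Pool.Agent.SpecAF
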