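import Pool.Agent.Lib.MP_53fa4a_an_AF.Loc

/-!
# MP_53fa4a_an (project AF): a spectrum is relatively dense
-/

set_option autoImplicit false

open MeasureTheory Set Filter Metric
open scoped ENNReal Topology ComplexConjugate

namespace Pool.Agent.SpecAF

open Pool.Agent.SpecND (E ee)

variable {d : ℕ}

/-- Proof. Take `T` from `loc_mass` for `A = Ω`, `ε = |Ω|² / 2`. If no `l ∈ Λ` had `dist l ξ < T`,
the empty set `F` would be admissible and `0 < |Ω|² / 2 ≤ 0`. -/
theorem rel_dense {Ω : Set (E d)} (hm : MeasurableSet Ω) (hb : Bornology.IsBounded Ω)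
    (hpos : volume Ω ≠ 0) {Λ : Set (E d)} (hs : IsSpectrum Λ Ω) :
    ∃ T : ℝ, 0 < T ∧ ∀ ξ : E d, ∃ l ∈ Λ, dist l ξ < T := by
  have hfin : volume Ω ≠ ⊤ := hb.measure_lt_top.ne
  have hv : 0 < volume.real Ω := ENNReal.toReal_pos hpos hfin
  obtain ⟨T, hT, h⟩ := loc_mass hm hb hpos hs hm Subset.rfl
    (ε := volume.real Ω * volume.real Ω / 2) (by positivity)
  refine ⟨T, hT, fun ξ => ?_⟩
  by_contra hno
  push Not at hno
  have h1 := h ξ ∅ fun l hl hd => absurd hd (not_lt.2 (hno l hl))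
  rw [Finset.sum_empty] at h1
  have h2 : 0 < volume.real Ω * volume.real Ω := mul_pos hv hv
  linarith

end Pool.Agent.SpecAF
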