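import Pool.Agent.Lib.MP_53fa4a_an_AF.Defs

/-!
# MP_53fa4a_an (project AF): differences: linearity and bounds
-/

set_option autoImplicit false

open MeasureTheory Set Filter Metric
open scoped ENNReal Topology ComplexConjugate

namespace Pool.Agent.SpecAF

open Pool.Agent.SpecND (E ee)

variable {d : ℕ}

private theorem DfA_int (α : Measure (E d)) [IsProbabilityMeasure α] {f : E d → ℝ} (hf : BM f)
    (y : E d) : Integrable (fun z => f (y - z)) α := by
  obtain ⟨h1, c, hc⟩ := hf
  refine Integrable.of_bound
    (h1.comp (measurable_const.sub measurable_id)).aestronglyMeasurable c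
    (Eventually.of_forall fun v => ?_)
  rw [Real.norm_eq_abs]
  exact hc _

private theorem DfA_av_sub (α : Measure (E d)) [IsProbabilityMeasure α] {f g : E d → ℝ}
    (hf : BM f) (hg : BM g) (y : E d) :
    Av α (fun v => f v - g v) y = Av α f y - Av α g y :=
  integral_sub (DfA_int α hf y) (DfA_int α hg y)

private theorem DfA_av_add (α : Measure (E d)) [IsProbabilityMeasure α] {f g : E d → ℝ}
    (hf : BM f) (hg : BM g) (y : E d) :
    Av α (fun v => f v + g v) y = Av α f y + Av α g y :=
  integral_add (DfA_int α hf y) (DfA_int α hg y)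

private theorem DfA_av_abs (α : Measure (E d)) [IsProbabilityMeasure α] {f : E d → ℝ} {c : ℝ}
    (hc : ∀ v, |f v| ≤ c) (y : E d) : |Av α f y| ≤ c := by
  have h := norm_integral_le_of_norm_le_const (μ := α) (f := fun z => f (y - z)) (C := c)
    (Eventually.of_forall fun v => by rw [Real.norm_eq_abs]; exact hc _)
  rw [Real.norm_eq_abs] at h
  simpa [Av] using h

private theorem DfA_av_const (α : Measure (E d)) [IsProbabilityMeasure α] (c : ℝ) (y : E d) :
    Av α (fun _ => c) y = c := by
  simp [Av]

/-- Proof. Induction on `l`; `bm_av`, `BM.sub`, `BM.add`. -/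
theorem bm_df {l : List (Measure (E d))} (hl : ∀ α ∈ l, IsProbabilityMeasure α) {f : E d → ℝ}
    (hf : BM f) : BM (Df l f) ∧ BM (Dp l f) := by
  induction l generalizing f with
  | nil => exact ⟨hf, hf⟩
  | cons α l ih =>
    have hα : IsProbabilityMeasure α := hl α List.mem_cons_self
    have hl2 : ∀ β ∈ l, IsProbabilityMeasure β := fun β hβ => hl β (List.mem_cons_of_mem α hβ)
    exact ⟨(ih hl2 (hf.sub (bm_av hf α))).1, (ih hl2 (hf.add (bm_av hf α))).2⟩

/-- Proof. Induction on `l`, generalizing `f`; `Av` is linear on bounded measurable functions. -/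
theorem df_sub {l : List (Measure (E d))} (hl : ∀ α ∈ l, IsProbabilityMeasure α)
    {f g : E d → ℝ} (hf : BM f) (hg : BM g) (y : E d) :
    Df l (fun v => f v - g v) y = Df l f y - Df l g y := by
  induction l generalizing f g with
  | nil => rfl
  | cons α l ih =>
    have hα : IsProbabilityMeasure α := hl α List.mem_cons_self
    have hl2 : ∀ β ∈ l, IsProbabilityMeasure β := fun β hβ => hl β (List.mem_cons_of_mem α hβ)
    have h1 : (fun v => (f v - g v) - Av α (fun u => f u - g u) v) =
        fun v => (f v - Av α f v) - (g v - Av α g v) := by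
      funext v
      rw [DfA_av_sub α hf hg v]
      ring
    change Df l (fun v => (f v - g v) - Av α (fun u => f u - g u) v) y = _
    rw [h1, ih hl2 (hf.sub (bm_av hf α)) (hg.sub (bm_av hg α))]
    rfl

/-- Proof. As `df_sub`. -/
theorem df_add {l : List (Measure (E d))} (hl : ∀ α ∈ l, IsProbabilityMeasure α)
    {f g : E d → ℝ} (hf : BM f) (hg : BM g) (y : E d) :
    Df l (fun v => f v + g v) y = Df l f y + Df l g y := by
  induction l generalizing f g with
  | nil => rfl
  | cons α l ih =>
    have hα : IsProbabilityMeasure α := hl α List.mem_cons_self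
    have hl2 : ∀ β ∈ l, IsProbabilityMeasure β := fun β hβ => hl β (List.mem_cons_of_mem α hβ)
    have h1 : (fun v => (f v + g v) - Av α (fun u => f u + g u) v) =
        fun v => (f v - Av α f v) + (g v - Av α g v) := by
      funext v
      rw [DfA_av_add α hf hg v]
      ring
    change Df l (fun v => (f v + g v) - Av α (fun u => f u + g u) v) y = _
    rw [h1, ih hl2 (hf.sub (bm_av hf α)) (hg.sub (bm_av hg α))]
    rfl

/-- Proof. As `df_sub`. -/
theorem dp_add {l : List (Measure (E d))} (hl : ∀ α ∈ l, IsProbabilityMeasure α)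
    {f g : E d → ℝ} (hf : BM f) (hg : BM g) (y : E d) :
    Dp l (fun v => f v + g v) y = Dp l f y + Dp l g y := by
  induction l generalizing f g with
  | nil => rfl
  | cons α l ih =>
    have hα : IsProbabilityMeasure α := hl α List.mem_cons_self
    have hl2 : ∀ β ∈ l, IsProbabilityMeasure β := fun β hβ => hl β (List.mem_cons_of_mem α hβ)
    have h1 : (fun v => (f v + g v) + Av α (fun u => f u + g u) v) =
        fun v => (f v + Av α f v) + (g v + Av α g v) := by
      funext v
      rw [DfA_av_add α hf hg v]
      ring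
    change Dp l (fun v => (f v + g v) + Av α (fun u => f u + g u) v) y = _
    rw [h1, ih hl2 (hf.add (bm_av hf α)) (hg.add (bm_av hg α))]
    rfl

/-- Proof. Induction on `l`, generalizing `f` and `c`: `|f y - Av α f y| ≤ 2 c`. -/
theorem df_le {l : List (Measure (E d))} (hl : ∀ α ∈ l, IsProbabilityMeasure α)
    {f : E d → ℝ} (hf : BM f) {c : ℝ} (hc : ∀ v, |f v| ≤ c) (y : E d) :
    |Df l f y| ≤ 2 ^ l.length * c ∧ |Dp l f y| ≤ 2 ^ l.length * c := by
  induction l generalizing f c with
  | nil =>
    refine ⟨?_, ?_⟩
    · simpa [Df] using hc y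
    · simpa [Dp] using hc y
  | cons α l ih =>
    have hα : IsProbabilityMeasure α := hl α List.mem_cons_self
    have hl2 : ∀ β ∈ l, IsProbabilityMeasure β := fun β hβ => hl β (List.mem_cons_of_mem α hβ)
    have h1 : ∀ v, |f v - Av α f v| ≤ 2 * c := fun v =>
      (abs_sub _ _).trans (by linarith [hc v, DfA_av_abs α hc v])
    have h2 : ∀ v, |f v + Av α f v| ≤ 2 * c := fun v =>
      (abs_add_le _ _).trans (by linarith [hc v, DfA_av_abs α hc v])
    have h3 := (ih hl2 (hf.sub (bm_av hf α)) h1).1
    have h4 := (ih hl2 (hf.add (bm_av hf α)) h2).2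
    rw [List.length_cons, pow_succ, mul_assoc]
    exact ⟨h3, h4⟩

/-- Proof. Induction on `l`: constant functions have average equal to the constant. -/
theorem df_const {l : List (Measure (E d))} (hl : ∀ α ∈ l, IsProbabilityMeasure α)
    (hne : l ≠ []) (c : ℝ) (y : E d) : Df l (fun _ => c) y = 0 := by
  induction l generalizing c with
  | nil => exact absurd rfl hne
  | cons α l ih =>
    have hα : IsProbabilityMeasure α := hl α List.mem_cons_self
    have hl2 : ∀ β ∈ l, IsProbabilityMeasure β := fun β hβ => hl β (List.mem_cons_of_mem α hβ)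
    have h1 : (fun v : E d => c - Av α (fun _ => c) v) = fun _ => 0 := by
      funext v
      rw [DfA_av_const, sub_self]
    change Df l (fun v : E d => c - Av α (fun _ => c) v) y = 0
    rw [h1]
    by_cases h2 : l = []
    · rw [h2]
      rfl
    · exact ih hl2 h2 0

end Pool.Agent.SpecAF
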