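import Pool.Agent.Lib.MP_53fa4a_an_AF.DfA

/-!
# MP_53fa4a_an (project AF): differences and sums
-/

set_option autoImplicit false

open MeasureTheory Set Filter Metric
open scoped ENNReal Topology ComplexConjugate

namespace Pool.Agent.SpecAF

open Pool.Agent.SpecND (E ee)

variable {d : ℕ}

private theorem DfB_int {f : E d → ℝ} (hf : BM f) (α : Measure (E d)) [IsFiniteMeasure α]
    (y : E d) : Integrable (fun z => f (y - z)) α := by
  obtain ⟨h1, c, hc⟩ := hf
  exact Integrable.of_bound (h1.comp (measurable_const.sub measurable_id)).aestronglyMeasurable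
    c (Eventually.of_forall fun z => by rw [Real.norm_eq_abs]; exact hc _)

private theorem DfB_gen {l : List (Measure (E d))} (hl : ∀ α ∈ l, IsProbabilityMeasure α)
    {f g : E d → ℝ} (hf : BM f) (hg : BM g) (h : ∀ v, |f v| ≤ g v) (y : E d) :
    |Df l f y| ≤ Dp l g y := by
  induction l generalizing f g with
  | nil => exact h y
  | cons α l ih =>
    haveI := hl α List.mem_cons_self
    refine ih (fun β hβ => hl β (List.mem_cons_of_mem α hβ)) (hf.sub (bm_av hf α))
      (hg.add (bm_av hg α)) fun v => ?_
    refine (abs_sub _ _).trans (add_le_add (h v) ?_)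
    have h1 := norm_integral_le_of_norm_le (f := fun z => f (v - z)) (DfB_int hg α v)
      (Eventually.of_forall fun z => by rw [Real.norm_eq_abs]; exact h _)
    rw [Real.norm_eq_abs] at h1
    exact h1

/-- Proof. Induction on `l`, generalizing `f`, `g`; `Av` is monotone on bounded measurable
functions. -/
theorem dp_mono {l : List (Measure (E d))} (hl : ∀ α ∈ l, IsProbabilityMeasure α)
    {f g : E d → ℝ} (hf : BM f) (hg : BM g) (h : ∀ v, f v ≤ g v) (y : E d) :
    Dp l f y ≤ Dp l g y := by
  induction l generalizing f g with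
  | nil => exact h y
  | cons α l ih =>
    haveI := hl α List.mem_cons_self
    refine ih (fun β hβ => hl β (List.mem_cons_of_mem α hβ)) (hf.add (bm_av hf α))
      (hg.add (bm_av hg α)) fun v => ?_
    exact add_le_add (h v) (integral_mono (DfB_int hf α v) (DfB_int hg α v) fun z => h _)

/-- Proof. Show more generally `|Df l f y| ≤ Dp l g y` if `|f v| ≤ g v` for all `v`, by induction
on `l` generalizing `f`, `g`: `|f y - Av α f y| ≤ |f y| + Av α |f| y ≤ g y + Av α g y`. -/
theorem df_le_dp {l : List (Measure (E d))} (hl : ∀ α ∈ l, IsProbabilityMeasure α)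
    {f : E d → ℝ} (hf : BM f) (h : ∀ v, 0 ≤ f v) (y : E d) : |Df l f y| ≤ Dp l f y :=
  DfB_gen hl hf hf (fun v => (abs_of_nonneg (h v)).le) y

end Pool.Agent.SpecAF
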