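import Pool.Agent.Lib.MP_53fa4a_an_AF.DfA
import Pool.Agent.Lib.MP_53fa4a_an_AF.BmA

/-!
# MP_53fa4a_an (project AF): differences of functions with a modulus in one direction
-/

set_option autoImplicit false

open MeasureTheory Set Filter Metric
open scoped ENNReal Topology ComplexConjugate

namespace Pool.Agent.SpecAF

open Pool.Agent.SpecND (E ee)

variable {d : ℕ}

private theorem DfC_int {f : E d → ℝ} (hf : BM f) (μ : Measure (E d)) [IsFiniteMeasure μ]
    (y : E d) : Integrable (fun z => f (y - z)) μ := by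
  obtain ⟨h1, c, hc⟩ := hf
  exact Integrable.of_bound (h1.comp (measurable_const.sub measurable_id)).aestronglyMeasurable c
    (Eventually.of_forall fun z => by
      rw [Real.norm_eq_abs]
      exact hc _)

private theorem DfC_av {f : E d → ℝ} (hf : BM f) (μ : Measure (E d)) [IsProbabilityMeasure μ]
    {S : Set (E d)} (hS : ∀ᵐ z ∂μ, z ∈ S) {ε : ℝ} (y : E d)
    (h : ∀ e ∈ S, |f (y - e) - f y| ≤ ε) : |f y - Av μ f y| ≤ ε := by
  have h1 : f y - Av μ f y = ∫ z, (f y - f (y - z)) ∂μ := by
    rw [integral_sub (integrable_const _) (DfC_int hf μ y), integral_const, probReal_univ,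
      one_smul]
    rfl
  have h2 := norm_integral_le_of_norm_le_const (μ := μ) (f := fun z => f y - f (y - z)) (C := ε)
    (hS.mono fun z hz => by
      rw [Real.norm_eq_abs, abs_sub_comm]
      exact h z hz)
  rw [Real.norm_eq_abs, probReal_univ, mul_one] at h2
  rw [h1]
  exact h2

private theorem DfC_mod {f : E d → ℝ} (hf : BM f) (μ : Measure (E d)) [IsProbabilityMeasure μ]
    {ε : ℝ} (e y : E d) (h : ∀ y, |f (y - e) - f y| ≤ ε) :
    |Av μ f (y - e) - Av μ f y| ≤ ε := by
  have h1 : Av μ f (y - e) - Av μ f y = ∫ z, (f (y - e - z) - f (y - z)) ∂μ := by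
    rw [integral_sub (DfC_int hf μ (y - e)) (DfC_int hf μ y)]
    rfl
  have h2 := norm_integral_le_of_norm_le_const (μ := μ)
    (f := fun z => f (y - e - z) - f (y - z)) (C := ε)
    (Eventually.of_forall fun z => by
      rw [Real.norm_eq_abs, sub_right_comm]
      exact h (y - z))
  rw [Real.norm_eq_abs, probReal_univ, mul_one] at h2
  rw [h1]
  exact h2

/-- Proof. Induction on `l`, generalizing `f` and `ε`. Case `l = F :: l'` (the head is `F`): `|f y
- Av (bm F δ) f y| ≤ ε` for all `y` (average of `f y - f (y - z)`, `z ∈ F`, `‖z‖ ≤ δ`, `bm_ae`,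
`bm_prob`), so `df_le` gives `2 ^ l'.length * ε`. Case `l = G :: l'`, `F ∈ l'`: the function `g y
= f y - Av (bm G δ) f y` satisfies the hypothesis with `2 ε` (the average of translates of `f` has
the same modulus as `f`), so the induction hypothesis gives `2 ^ l'.length * (2 ε)`. -/
theorem df_modulus {l : List (Submodule ℝ (E d))} {δ : ℝ} (hδ : 0 < δ)
    {F : Submodule ℝ (E d)} (hF : F ∈ l) {f : E d → ℝ} (hf : BM f) {ε : ℝ} (hε : 0 ≤ ε)
    (h : ∀ e ∈ F, ‖e‖ ≤ δ → ∀ y, |f (y - e) - f y| ≤ ε) (y : E d) :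
    |Df (l.map fun G => bm G δ) f y| ≤ 2 ^ l.length * ε := by
  have hp : ∀ (l' : List (Submodule ℝ (E d))), ∀ α ∈ l'.map (fun G => bm G δ),
      IsProbabilityMeasure α := by
    intro l' α hα
    obtain ⟨G, _, rfl⟩ := List.mem_map.1 hα
    exact bm_prob G hδ
  induction l generalizing f ε with
  | nil => exact absurd hF List.not_mem_nil
  | cons G l' ih =>
    have := bm_prob G hδ
    have hg : BM fun y => f y - Av (bm G δ) f y := hf.sub (bm_av hf _)
    have hpow : (2 : ℝ) ^ (G :: l').length * ε = 2 ^ l'.length * (2 * ε) := by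
      rw [List.length_cons, pow_succ]
      ring
    rw [hpow]
    show |Df (l'.map fun G => bm G δ) (fun y => f y - Av (bm G δ) f y) y| ≤ _
    rcases List.mem_cons.1 hF with h1 | h1
    · subst h1
      have h2 := (df_le (hp l') hg (c := ε) (fun v => DfC_av hf (bm F δ)
        (S := {e | e ∈ F ∧ ‖e‖ ≤ δ}) (bm_ae F δ) v fun e he => h e he.1 he.2 v) y).1
      rw [List.length_map] at h2
      refine h2.trans (mul_le_mul_of_nonneg_left (by linarith) (by positivity))
    · refine ih h1 hg (by linarith) fun e he1 he2 v => ?_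
      have h2 := h e he1 he2 v
      have h3 := DfC_mod hf (bm G δ) e v (h e he1 he2)
      rw [abs_le] at h2 h3 ⊢
      constructor <;> linarith [h2.1, h2.2, h3.1, h3.2]

end Pool.Agent.SpecAF
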