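import Pool.Agent.Lib.MP_53fa4a_an_AF.DfA
import Pool.Agent.Lib.MP_53fa4a_an_AF.BmA

/-!
# MP_53fa4a_an (project AF): locality of the averages and differences
-/

set_option autoImplicit false

open MeasureTheory Set Filter Metric
open scoped ENNReal Topology ComplexConjugate

namespace Pool.Agent.SpecAF

open Pool.Agent.SpecND (E ee)

variable {d : ℕ}

/-- Proof. `bm G δ` is concentrated on `closedBall 0 δ` (`bm_ae`), so the two integrands agree
almost everywhere. -/
theorem av_congr (G : Submodule ℝ (E d)) {δ : ℝ} {f g : E d → ℝ} {y : E d}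
    (h : ∀ v, dist v y ≤ δ → f v = g v) : Av (bm G δ) f y = Av (bm G δ) g y := by
  refine integral_congr_ae ?_
  filter_upwards [bm_ae G δ] with z hz
  refine h _ ?_
  rw [dist_eq_norm, sub_sub_cancel_left, norm_neg]
  exact hz.2

/-- Proof. Induction on `l`, generalizing `f`, `g`: if `f = g` on `closedBall y ((n + 1) δ)` then
`f + Av f = g + Av g` on `closedBall y (n δ)` by `av_congr`. -/
theorem dp_congr (l : List (Submodule ℝ (E d))) {δ : ℝ} (hδ : 0 < δ) {f g : E d → ℝ} {y : E d}
    (h : ∀ v, dist v y ≤ l.length * δ → f v = g v) :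
    Dp (l.map fun G => bm G δ) f y = Dp (l.map fun G => bm G δ) g y := by
  induction l generalizing f g with
  | nil =>
    refine h y ?_
    rw [dist_self, List.length_nil, Nat.cast_zero, zero_mul]
  | cons G l ih =>
    rw [List.map_cons]
    refine ih fun v hv => ?_
    have hl : ((G :: l).length : ℝ) * δ = l.length * δ + δ := by
      rw [List.length_cons]
      push_cast
      ring
    rw [hl] at h
    have h1 : f v = g v := h v (by linarith)
    have h2 : Av (bm G δ) f v = Av (bm G δ) g v := av_congr G fun w hw =>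
      h w ((dist_triangle w v y).trans (by linarith))
    rw [h1, h2]

/-- Proof. Let `N = {v | v ∈ U ∧ f v ≠ g v}`, a null set (contained in a measurable null set
`N'`). By Fubini for almost every `y` the set of the `z` with `y - z ∈ N'` is a null set of `bm G
δ` (`∫⁻ y, (bm G δ) {z | y - z ∈ N'} = ∫⁻ z, volume {y | y - z ∈ N'} ∂(bm G δ) = 0`). If moreover
`closedBall y δ ⊆ U` then for almost all `z` (in `closedBall 0 δ`, `bm_ae`) `y - z ∈ U` and `y - z
∉ N'`, so `f (y - z) = g (y - z)`. -/
theorem av_ae {G : Submodule ℝ (E d)} {δ : ℝ} (hδ : 0 < δ) {U : Set (E d)} {f g : E d → ℝ}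
    (h : ∀ᵐ v, v ∈ U → f v = g v) :
    ∀ᵐ y, closedBall y δ ⊆ U → Av (bm G δ) f y = Av (bm G δ) g y := by
  haveI := bm_prob G hδ
  obtain ⟨N, hN1, hN2, hN3⟩ := exists_measurable_superset_of_null (ae_iff.1 h)
  have hT : MeasurableSet {p : E d × E d | p.1 - p.2 ∈ N} :=
    (measurable_fst.sub measurable_snd) hN2
  have h0 : (volume : Measure (E d)).prod (bm G δ) {p : E d × E d | p.1 - p.2 ∈ N} = 0 := by
    rw [Measure.prod_apply_symm hT, lintegral_eq_zero_iff (measurable_measure_prodMk_right hT)]
    refine Eventually.of_forall fun z => ?_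
    exact ((measurePreserving_sub_right (volume : Measure (E d)) z).measure_preimage
      hN2.nullMeasurableSet).trans hN3
  filter_upwards [Measure.measure_ae_null_of_prod_null h0] with y hy hU
  have hy' : ∀ᵐ z ∂(bm G δ), y - z ∉ N := by
    rw [ae_iff]
    simp only [not_not]
    exact hy
  refine integral_congr_ae ?_
  filter_upwards [bm_ae G δ, hy'] with z hz hzN
  by_contra hne
  refine hzN (hN1 ?_)
  intro himp
  refine hne (himp (hU ?_))
  rw [mem_closedBall, dist_eq_norm, sub_sub_cancel_left, norm_neg]
  exact hz.2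

/-- Proof. Induction on `l`, generalizing `f`, `g`, `U`: with `U' = {y | closedBall y δ ⊆ U}` the
functions `f - Av f` and `g - Av g` agree almost everywhere on `U'` by `av_ae`, and `closedBall y
((n + 1) δ) ⊆ U` implies `closedBall y (n δ) ⊆ U'`. -/
theorem df_ae (l : List (Submodule ℝ (E d))) {δ : ℝ} (hδ : 0 < δ) {U : Set (E d)}
    {f g : E d → ℝ} (h : ∀ᵐ v, v ∈ U → f v = g v) :
    ∀ᵐ y, closedBall y (l.length * δ) ⊆ U →
      Df (l.map fun G => bm G δ) f y = Df (l.map fun G => bm G δ) g y := by
  induction l generalizing f g U with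
  | nil =>
    filter_upwards [h] with y hy hU
    refine hy (hU ?_)
    rw [mem_closedBall, dist_self, List.length_nil, Nat.cast_zero, zero_mul]
  | cons G l ih =>
    rw [List.map_cons]
    have hl : ((G :: l).length : ℝ) * δ = l.length * δ + δ := by
      rw [List.length_cons]
      push_cast
      ring
    rw [hl]
    have h1 : ∀ᵐ v, v ∈ {y | closedBall y δ ⊆ U} →
        f v - Av (bm G δ) f v = g v - Av (bm G δ) g v := by
      filter_upwards [h, av_ae (G := G) hδ h] with v hv1 hv2 hvU
      rw [hv1 (hvU (mem_closedBall_self hδ.le)), hv2 hvU]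
    filter_upwards [ih h1] with y hy hU
    refine hy fun v hv => ?_
    refine (closedBall_subset_closedBall' ?_).trans hU
    rw [mem_closedBall] at hv
    linarith

end Pool.Agent.SpecAF
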