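import Pool.Agent.Lib.MP_53fa4a_an_AF.Defs

/-!
# MP_53fa4a_an (project AF): the sum over pairs of frequencies
-/

set_option autoImplicit false

open MeasureTheory Set Filter Metric
open scoped ENNReal Topology ComplexConjugate

namespace Pool.Agent.SpecAF

open Pool.Agent.SpecND (E ee)

variable {d : ℕ}

private lemma Diag_sub_left (l m x : E d) : ee (l - m) x = ee l x * conj (ee m x) := by
  rw [SpecND.ee_eq, SpecND.ee_eq, SpecND.ee_eq, ← Complex.exp_conj, ← Complex.exp_add, map_mul,
    Complex.conj_ofReal, Complex.conj_I, inner_sub_left]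
  congr 1
  push_cast
  ring

private lemma Diag_cont (l : E d) : Continuous fun x : E d => ee l x := by
  have h : (fun x : E d => ee l x) =
      fun x => Complex.exp (((2 * Real.pi * inner ℝ l x : ℝ) : ℂ) * Complex.I) := by
    funext x
    exact SpecND.ee_eq l x
  rw [h]
  have h2 : Continuous fun x : E d => inner ℝ l x := continuous_const.inner continuous_id
  exact Complex.continuous_exp.comp
    ((Complex.continuous_ofReal.comp (continuous_const.mul h2)).mul continuous_const)

private lemma Diag_norm (l x : E d) : ‖ee l x‖ = 1 := by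
  rw [SpecND.ee_eq]
  exact Complex.norm_exp_ofReal_mul_I _

private lemma Diag_sq (F : Finset (E d)) (u : E d) :
    (((‖∑ l ∈ F, ee l u‖ ^ 2 : ℝ)) : ℂ) = ∑ l' ∈ F, ∑ l ∈ F, ee (l - l') u := by
  push_cast
  rw [← Complex.mul_conj', map_sum, Finset.sum_mul_sum, Finset.sum_comm]
  exact Finset.sum_congr rfl fun l' _ => Finset.sum_congr rfl fun l _ =>
    (Diag_sub_left l l' u).symm

private lemma Diag_int {A : Set (E d)} [IsFiniteMeasure (volume.restrict A)] {f : E d → ℂ}
    (hf : Continuous f) {c : ℝ} (hc : ∀ x, ‖f x‖ ≤ c) : Integrable f (volume.restrict A) :=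
  Integrable.of_bound hf.aestronglyMeasurable c (Eventually.of_forall hc)

/-- the double integral -/
private lemma Diag_eq {A : Set (E d)} [IsFiniteMeasure (volume.restrict A)] (F : Finset (E d)) :
    ∑ l' ∈ F, ∑ l ∈ F, ‖ft A (l - l')‖ ^ 2 =
      ∫ y in A, ∫ x in A, ‖∑ l ∈ F, ee l (x - y)‖ ^ 2 := by
  have h0 : ∀ η : E d, ∫ x in A, ee η x = conj (ft A η) := by
    intro η
    unfold ft
    rw [integral_conj, Complex.conj_conj]
  have hinner : ∀ y : E d, ∫ x in A, (((‖∑ l ∈ F, ee l (x - y)‖ ^ 2 : ℝ)) : ℂ) =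
      ∑ l' ∈ F, ∑ l ∈ F, conj (ft A (l - l')) * conj (ee (l - l') y) := by
    intro y
    have h1 : (fun x : E d => (((‖∑ l ∈ F, ee l (x - y)‖ ^ 2 : ℝ)) : ℂ)) =
        fun x => ∑ l' ∈ F, ∑ l ∈ F, ee (l - l') x * conj (ee (l - l') y) := by
      funext x
      rw [Diag_sq]
      exact Finset.sum_congr rfl fun l' _ => Finset.sum_congr rfl fun l _ =>
        SpecND.ee_sub _ _ _
    have hi : ∀ η : E d, Integrable (fun x : E d => ee η x * conj (ee η y))
        (volume.restrict A) := by
      intro η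
      refine Diag_int ((Diag_cont η).mul continuous_const) (c := 1) (fun x => ?_)
      rw [norm_mul, RCLike.norm_conj, Diag_norm, Diag_norm, mul_one]
    rw [h1, integral_finsetSum _ fun l' _ => integrable_finsetSum _ fun l _ => hi _]
    refine Finset.sum_congr rfl fun l' _ => ?_
    rw [integral_finsetSum _ fun l _ => hi _]
    refine Finset.sum_congr rfl fun l _ => ?_
    rw [integral_mul_const, h0]
  apply Complex.ofReal_injective
  have e1 : (((∫ y in A, ∫ x in A, ‖∑ l ∈ F, ee l (x - y)‖ ^ 2 : ℝ)) : ℂ) =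
      ∫ y in A, ∫ x in A, (((‖∑ l ∈ F, ee l (x - y)‖ ^ 2 : ℝ)) : ℂ) := by
    rw [← integral_complex_ofReal]
    refine integral_congr_ae (Eventually.of_forall fun y => ?_)
    exact integral_complex_ofReal.symm
  rw [e1]
  have e2 : (fun y : E d => ∫ x in A, (((‖∑ l ∈ F, ee l (x - y)‖ ^ 2 : ℝ)) : ℂ)) =
      fun y => ∑ l' ∈ F, ∑ l ∈ F, conj (ft A (l - l')) * conj (ee (l - l') y) :=
    funext hinner
  have hi : ∀ η : E d, Integrable (fun y : E d => conj (ft A η) * conj (ee η y))
      (volume.restrict A) := by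
    intro η
    refine Diag_int (continuous_const.mul (Complex.continuous_conj.comp (Diag_cont η)))
      (c := ‖ft A η‖) (fun x => ?_)
    rw [norm_mul, RCLike.norm_conj, RCLike.norm_conj, Diag_norm, mul_one]
  rw [e2, integral_finsetSum _ fun l' _ => integrable_finsetSum _ fun l _ => hi _]
  rw [Complex.ofReal_sum]
  refine Finset.sum_congr rfl fun l' _ => ?_
  rw [integral_finsetSum _ fun l _ => hi _, Complex.ofReal_sum]
  refine Finset.sum_congr rfl fun l _ => ?_
  rw [integral_const_mul]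
  have e3 : ∫ y in A, conj (ee (l - l') y) = ft A (l - l') := rfl
  rw [e3, Complex.conj_mul']
  push_cast
  rfl

/-- Proof. Let `S u = ∑_{l ∈ F} ee l u`. For fixed `j`, `‖S (x - y)‖² = ∑_{l, l'} ee (l - l') (x -
y)`, so `∫_{x ∈ A j} ∫_{y ∈ A j} ‖S (x - y)‖² = ∑_{l, l'} ‖ft (A j) (l - l')‖²` (the double
integral of `ee η x * conj (ee η y)` is `conj (ft A η) * ft A η`). For `x, y ∈ A j` the difference
`u = x - y` lies in `closedBall 0 δ`, so for fixed `y ∈ A j` the integral over `x ∈ A j` is at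
most `∫_{closedBall 0 δ} ‖S u‖² du` (translation). Integrate over `y ∈ A j` and sum over `j`: the
total is at most `∑_j |A j| * ∫_{closedBall 0 δ} ‖S‖² ≤ |Ω| * ∫_{closedBall 0 δ} ‖S‖²`. -/
theorem diag_le {Ω : Set (E d)} (hm : MeasurableSet Ω) (hb : Bornology.IsBounded Ω) {δ : ℝ}
    {n : ℕ} {A : Fin n → Set (E d)} (hA : ∀ j, MeasurableSet (A j))
    (hdis : ∀ i j, i ≠ j → Disjoint (A i) (A j)) (hun : (⋃ j, A j) = Ω)
    (hdiam : ∀ j, ∀ x ∈ A j, ∀ y ∈ A j, dist x y ≤ δ) (F : Finset (E d)) :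
    ∑ j, ∑ l' ∈ F, ∑ l ∈ F, ‖ft (A j) (l - l')‖ ^ 2 ≤
      volume.real Ω * ∫ x in closedBall (0 : E d) δ, ‖∑ l ∈ F, ee l x‖ ^ 2 := by
  have hcont : Continuous fun u : E d => ‖∑ l ∈ F, ee l u‖ ^ 2 :=
    ((continuous_finsetSum _ fun l _ => Diag_cont l).norm).pow 2
  have hfin : ∀ j, IsFiniteMeasure (volume.restrict (A j)) := by
    intro j
    have h1 : Bornology.IsBounded (A j) := hb.subset (by
      rw [← hun]
      exact subset_iUnion A j)
    exact isFiniteMeasure_restrict.2 h1.measure_lt_top.ne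
  set I : ℝ := ∫ x in closedBall (0 : E d) δ, ‖∑ l ∈ F, ee l x‖ ^ 2 with hI
  have hI0 : 0 ≤ I := integral_nonneg fun _ => sq_nonneg _
  have hj : ∀ j, ∑ l' ∈ F, ∑ l ∈ F, ‖ft (A j) (l - l')‖ ^ 2 ≤ volume.real (A j) * I := by
    intro j
    have := hfin j
    rw [Diag_eq F]
    have h1 : ∀ y ∈ A j, ∫ x in A j, ‖∑ l ∈ F, ee l (x - y)‖ ^ 2 ≤ I := by
      intro y hy
      have hsub : A j ⊆ closedBall y δ := fun x hx => mem_closedBall.2 (hdiam j x hx y hy)
      have hc' : Continuous fun x : E d => ‖∑ l ∈ F, ee l (x - y)‖ ^ 2 :=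
        hcont.comp (continuous_id.sub continuous_const)
      have h2 : ∫ x in A j, ‖∑ l ∈ F, ee l (x - y)‖ ^ 2 ≤
          ∫ x in closedBall y δ, ‖∑ l ∈ F, ee l (x - y)‖ ^ 2 := by
        refine setIntegral_mono_set ?_ (Eventually.of_forall fun _ => sq_nonneg _)
          (Eventually.of_forall hsub)
        exact hc'.continuousOn.integrableOn_compact (isCompact_closedBall y δ)
      have h3 : (fun x : E d => x - y) ⁻¹' closedBall (0 : E d) δ = closedBall y δ := by
        ext x
        rw [mem_preimage, mem_closedBall_zero_iff, mem_closedBall, dist_eq_norm]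
      have h4 := (measurePreserving_sub_right (volume : Measure (E d)) y).setIntegral_preimage_emb
        (measurableEmbedding_subRight y) (fun u => ‖∑ l ∈ F, ee l u‖ ^ 2) (closedBall 0 δ)
      rw [h3] at h4
      rw [hI, ← h4]
      exact h2
    have h5 : ∫ y in A j, ∫ x in A j, ‖∑ l ∈ F, ee l (x - y)‖ ^ 2 ≤ ∫ _y in A j, I := by
      refine integral_mono_of_nonneg
        (Eventually.of_forall fun y => integral_nonneg fun _ => sq_nonneg _)
        (integrable_const I) ?_
      exact (ae_restrict_iff' (hA j)).2 (Eventually.of_forall h1)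
    rw [setIntegral_const, smul_eq_mul] at h5
    exact h5
  refine (Finset.sum_le_sum fun j _ => hj j).trans ?_
  rw [← Finset.sum_mul]
  refine mul_le_mul_of_nonneg_right (le_of_eq ?_) hI0
  have hm2 : volume Ω = ∑ j, volume (A j) := by
    rw [← hun, measure_iUnion (fun i j hij => hdis i j hij) hA, tsum_fintype]
  unfold Measure.real
  rw [hm2, ENNReal.toReal_sum]
  intro j _
  have h1 : Bornology.IsBounded (A j) := hb.subset (by
    rw [← hun]
    exact subset_iUnion A j)
  exact h1.measure_lt_top.ne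

end Pool.Agent.SpecAF
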