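import Pool.Agent.Lib.MP_53fa4a_an_AF.Defs

/-!
# MP_53fa4a_an (project AF): existence of the mean
-/

set_option autoImplicit false

open MeasureTheory Set Filter Metric
open scoped ENNReal Topology ComplexConjugate

namespace Pool.Agent.SpecAF

open Pool.Agent.SpecND (E ee)

variable {d : ℕ}

/-- The average of `f` over the points `y + j x`, `0 ≤ j ≤ n`. -/
noncomputable def Fun_A (n : ℕ) (x : E d) (f : E d → ℝ) (y : E d) : ℝ :=
  ((n : ℝ) + 1)⁻¹ * ∑ j ∈ Finset.range (n + 1), f (y + (j : ℝ) • x)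

/-- The composition of the averages along `x 0, …, x (m - 1)`. -/
noncomputable def Fun_P (n : ℕ) (x : ℕ → E d) : ℕ → (E d → ℝ) → E d → ℝ
  | 0, f => f
  | m + 1, f => Fun_A n (x m) (Fun_P n x m f)

private theorem Fun_A_avg (n : ℕ) (c : ℝ) :
    ((n : ℝ) + 1)⁻¹ * ∑ _j ∈ Finset.range (n + 1), c = c := by
  rw [Finset.sum_const, Finset.card_range, nsmul_eq_mul]
  have h : (n : ℝ) + 1 ≠ 0 := by positivity
  push_cast
  field_simp

private theorem Fun_A_abs (n : ℕ) (x : E d) (f : E d → ℝ) (c : ℝ) (hc : ∀ v, |f v| ≤ c) (y : E d) :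
    |Fun_A n x f y| ≤ c := by
  have h0 : (0 : ℝ) ≤ ((n : ℝ) + 1)⁻¹ := by positivity
  rw [Fun_A, abs_mul, abs_of_nonneg h0]
  refine le_trans (mul_le_mul_of_nonneg_left ((Finset.abs_sum_le_sum_abs _ _).trans
    (Finset.sum_le_sum fun j _ => hc _)) h0) (Fun_A_avg n c).le

private theorem Fun_A_meas (n : ℕ) (x : E d) (f : E d → ℝ) (hf : Measurable f) :
    Measurable (Fun_A n x f) := by
  unfold Fun_A
  refine Measurable.const_mul ?_ _
  refine Finset.measurable_fun_sum _ fun j _ => ?_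
  exact hf.comp (measurable_id.add_const _)

private theorem Fun_A_bm (n : ℕ) (x : E d) (f : E d → ℝ) (hf : BM f) : BM (Fun_A n x f) := by
  obtain ⟨h1, c, hc⟩ := hf
  exact ⟨Fun_A_meas n x f h1, c, Fun_A_abs n x f c hc⟩

private theorem Fun_A_add (n : ℕ) (x : E d) (f g : E d → ℝ) :
    Fun_A n x (fun v => f v + g v) = fun v => Fun_A n x f v + Fun_A n x g v := by
  funext y
  unfold Fun_A
  rw [Finset.sum_add_distrib, mul_add]

private theorem Fun_A_smul (n : ℕ) (x : E d) (a : ℝ) (f : E d → ℝ) :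
    Fun_A n x (fun v => a * f v) = fun v => a * Fun_A n x f v := by
  funext y
  unfold Fun_A
  rw [← Finset.mul_sum]
  ring

private theorem Fun_A_one (n : ℕ) (x : E d) :
    Fun_A n x (fun _ => (1 : ℝ)) = fun _ => 1 := by
  funext y
  exact Fun_A_avg n 1

private theorem Fun_A_shift (n : ℕ) (x z : E d) (f : E d → ℝ) :
    Fun_A n x (fun v => f (v + z)) = fun v => Fun_A n x f (v + z) := by
  funext y
  unfold Fun_A
  simp only [add_right_comm y _ z]

private theorem Fun_A_mono (n : ℕ) (x : E d) (f g : E d → ℝ) (h : ∀ᵐ v, f v ≤ g v) :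
    ∀ᵐ v, Fun_A n x f v ≤ Fun_A n x g v := by
  have h1 : ∀ j : ℕ, ∀ᵐ v : E d, f (v + (j : ℝ) • x) ≤ g (v + (j : ℝ) • x) := fun j =>
    (measurePreserving_add_right (volume : Measure (E d)) ((j : ℝ) • x)).quasiMeasurePreserving.ae h
  filter_upwards [ae_all_iff.2 h1] with v hv
  exact mul_le_mul_of_nonneg_left (Finset.sum_le_sum fun j _ => hv j) (by positivity)

private theorem Fun_A_self (n : ℕ) (x : E d) (f : E d → ℝ) (c : ℝ) (hc : ∀ v, |f v| ≤ c) (y : E d) :
    |Fun_A n x f (y + x) - Fun_A n x f y| ≤ 2 * c / ((n : ℝ) + 1) := by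
  have h1 : ∀ j : ℕ, y + x + (j : ℝ) • x = y + ((j + 1 : ℕ) : ℝ) • x := by
    intro j
    rw [Nat.cast_add, Nat.cast_one, add_smul, one_smul]
    abel
  have h2 : Fun_A n x f (y + x) - Fun_A n x f y =
      ((n : ℝ) + 1)⁻¹ * (f (y + ((n + 1 : ℕ) : ℝ) • x) - f (y + ((0 : ℕ) : ℝ) • x)) := by
    rw [← Finset.sum_range_sub (fun j : ℕ => f (y + (j : ℝ) • x)) (n + 1), Finset.sum_sub_distrib,
      mul_sub]
    unfold Fun_A
    simp only [h1]
  rw [h2, abs_mul, abs_of_nonneg (by positivity : (0 : ℝ) ≤ ((n : ℝ) + 1)⁻¹), div_eq_inv_mul]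
  refine mul_le_mul_of_nonneg_left ?_ (by positivity)
  refine (abs_sub _ _).trans ?_
  linarith [hc (y + ((n + 1 : ℕ) : ℝ) • x), hc (y + ((0 : ℕ) : ℝ) • x)]

private theorem Fun_A_other (n : ℕ) (x w : E d) (f : E d → ℝ) (b : ℝ)
    (hb : ∀ z, |f (z + w) - f z| ≤ b) (y : E d) :
    |Fun_A n x f (y + w) - Fun_A n x f y| ≤ b := by
  have h0 : (0 : ℝ) ≤ ((n : ℝ) + 1)⁻¹ := by positivity
  have h2 : Fun_A n x f (y + w) - Fun_A n x f y =
      ((n : ℝ) + 1)⁻¹ * ∑ j ∈ Finset.range (n + 1),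
        (f (y + (j : ℝ) • x + w) - f (y + (j : ℝ) • x)) := by
    rw [Finset.sum_sub_distrib, mul_sub]
    unfold Fun_A
    congr 2
    refine Finset.sum_congr rfl fun j _ => ?_
    congr 1
    abel
  rw [h2, abs_mul, abs_of_nonneg h0]
  refine le_trans (mul_le_mul_of_nonneg_left ((Finset.abs_sum_le_sum_abs _ _).trans
    (Finset.sum_le_sum fun j _ => hb _)) h0) (Fun_A_avg n b).le

private theorem Fun_P_abs (n : ℕ) (x : ℕ → E d) (f : E d → ℝ) (c : ℝ) (hc : ∀ v, |f v| ≤ c) :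
    ∀ m : ℕ, ∀ y : E d, |Fun_P n x m f y| ≤ c
  | 0 => hc
  | m + 1 => Fun_A_abs n (x m) _ c (Fun_P_abs n x f c hc m)

private theorem Fun_P_bm (n : ℕ) (x : ℕ → E d) (f : E d → ℝ) (hf : BM f) :
    ∀ m : ℕ, BM (Fun_P n x m f)
  | 0 => hf
  | m + 1 => Fun_A_bm n (x m) _ (Fun_P_bm n x f hf m)

private theorem Fun_P_add (n : ℕ) (x : ℕ → E d) (f g : E d → ℝ) :
    ∀ m : ℕ, Fun_P n x m (fun v => f v + g v) = fun v => Fun_P n x m f v + Fun_P n x m g v
  | 0 => rfl
  | m + 1 => by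
    change Fun_A n (x m) (Fun_P n x m fun v => f v + g v) = _
    rw [Fun_P_add n x f g m, Fun_A_add]
    rfl

private theorem Fun_P_smul (n : ℕ) (x : ℕ → E d) (a : ℝ) (f : E d → ℝ) :
    ∀ m : ℕ, Fun_P n x m (fun v => a * f v) = fun v => a * Fun_P n x m f v
  | 0 => rfl
  | m + 1 => by
    change Fun_A n (x m) (Fun_P n x m fun v => a * f v) = _
    rw [Fun_P_smul n x a f m, Fun_A_smul]
    rfl

private theorem Fun_P_one (n : ℕ) (x : ℕ → E d) :
    ∀ m : ℕ, Fun_P n x m (fun _ => (1 : ℝ)) = fun _ => 1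
  | 0 => rfl
  | m + 1 => by
    change Fun_A n (x m) (Fun_P n x m fun _ => (1 : ℝ)) = _
    rw [Fun_P_one n x m, Fun_A_one]

private theorem Fun_P_shift (n : ℕ) (x : ℕ → E d) (z : E d) (f : E d → ℝ) :
    ∀ m : ℕ, Fun_P n x m (fun v => f (v + z)) = fun v => Fun_P n x m f (v + z)
  | 0 => rfl
  | m + 1 => by
    change Fun_A n (x m) (Fun_P n x m fun v => f (v + z)) = _
    rw [Fun_P_shift n x z f m, Fun_A_shift]
    rfl

private theorem Fun_P_mono (n : ℕ) (x : ℕ → E d) (f g : E d → ℝ) (h : ∀ᵐ v, f v ≤ g v) :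
    ∀ m : ℕ, ∀ᵐ v, Fun_P n x m f v ≤ Fun_P n x m g v
  | 0 => h
  | m + 1 => Fun_A_mono n (x m) _ _ (Fun_P_mono n x f g h m)

private theorem Fun_P_near (n : ℕ) (x : ℕ → E d) (f : E d → ℝ) (c : ℝ) (hc : ∀ v, |f v| ≤ c)
    (i : ℕ) : ∀ m : ℕ, i < m → ∀ y : E d,
      |Fun_P n x m f (y + x i) - Fun_P n x m f y| ≤ 2 * c / ((n : ℝ) + 1)
  | 0 => fun h => absurd h (Nat.not_lt_zero i)
  | m + 1 => fun h y => by
    change |Fun_A n (x m) (Fun_P n x m f) (y + x i) - Fun_A n (x m) (Fun_P n x m f) y| ≤ _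
    rcases (Nat.lt_succ_iff.mp h).lt_or_eq with h1 | h1
    · exact Fun_A_other n (x m) (x i) _ _ (Fun_P_near n x f c hc i m h1) y
    · rw [h1]
      exact Fun_A_self n (x m) _ c (Fun_P_abs n x f c hc m) y

private theorem Fun_P_open (n : ℕ) (x : ℕ → E d) (f : E d → ℝ) (U : Set (E d)) (hU : IsOpen U)
    (hU' : Dense U) (hf : ∀ y ∈ U, f y = 0) :
    ∀ m : ℕ, ∃ V : Set (E d), IsOpen V ∧ Dense V ∧ ∀ y ∈ V, Fun_P n x m f y = 0
  | 0 => ⟨U, hU, hU', hf⟩
  | m + 1 => by
    obtain ⟨V, hV1, hV2, hV3⟩ := Fun_P_open n x f U hU hU' hf m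
    refine ⟨⋂ j : Fin (n + 1), (fun y : E d => y + ((j : ℕ) : ℝ) • x m) ⁻¹' V, ?_, ?_, ?_⟩
    · exact isOpen_iInter_of_finite fun j => hV1.preimage (continuous_id.add continuous_const)
    · exact dense_iInter_of_isOpen
        (fun j => hV1.preimage (continuous_id.add continuous_const))
        (fun j => hV2.preimage (isOpenMap_add_right _))
    · intro y hy
      rw [mem_iInter] at hy
      change ((n : ℝ) + 1)⁻¹ * ∑ j ∈ Finset.range (n + 1), Fun_P n x m f (y + (j : ℝ) • x m) = 0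
      rw [Finset.sum_eq_zero, mul_zero]
      intro j hj
      exact hV3 _ (hy ⟨j, Finset.mem_range.mp hj⟩)

private theorem Fun_meas (V : Set (E d)) (hV : IsOpen V) (hV' : V.Nonempty) :
    ∃ α : Measure (E d), IsProbabilityMeasure α ∧ α ≪ volume ∧ ∀ᵐ y ∂α, y ∈ V := by
  obtain ⟨y, hy⟩ := hV'
  obtain ⟨r, hr, hb⟩ := Metric.isOpen_iff.1 hV y hy
  have h0 : volume (ball y r) ≠ 0 := (measure_ball_pos volume y hr).ne'
  refine ⟨ProbabilityTheory.cond volume (ball y r),
    ProbabilityTheory.cond_isProbabilityMeasure_of_finite h0 measure_ball_lt_top.ne,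
    ProbabilityTheory.cond_absolutelyContinuous, ?_⟩
  refine (Measure.smul_absolutelyContinuous (μ := volume.restrict (ball y r))).ae_le ?_
  filter_upwards [ae_restrict_mem measurableSet_ball] with z hz
  exact hb hz

private theorem Fun_int (α : Measure (E d)) [IsProbabilityMeasure α] (f : E d → ℝ) (hf : BM f) :
    Integrable f α := by
  obtain ⟨h1, c, hc⟩ := hf
  exact Integrable.of_bound h1.aestronglyMeasurable c (Eventually.of_forall fun v => by
    rw [Real.norm_eq_abs]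
    exact hc v)

private theorem Fun_int_abs (α : Measure (E d)) [IsProbabilityMeasure α] (f : E d → ℝ) (c : ℝ)
    (hc : ∀ v, |f v| ≤ c) : |∫ y, f y ∂α| ≤ c := by
  have h := norm_integral_le_of_norm_le_const (μ := α) (f := f) (C := c)
    (Eventually.of_forall fun v => by rw [Real.norm_eq_abs]; exact hc v)
  rw [Real.norm_eq_abs] at h
  simpa using h

private theorem Fun_lim (g : ℕ → ℝ) (c : ℝ) (hg : ∀ k, |g k| ≤ c) :
    Tendsto g (hyperfilter ℕ : Filter ℕ) (𝓝 (limUnder (hyperfilter ℕ : Filter ℕ) g)) := by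
  refine tendsto_nhds_limUnder ?_
  have h1 : ((hyperfilter ℕ).map g : Filter ℝ) ≤ 𝓟 (Icc (-c) c) := by
    rw [le_principal_iff]
    refine Filter.mem_map.mpr (Filter.univ_mem' fun k => ?_)
    exact abs_le.mp (hg k)
  obtain ⟨a, -, ha⟩ := isCompact_Icc.ultrafilter_le_nhds _ h1
  exact ⟨a, ha⟩

/-- Proof. Let `x₀, x₁, …` be a sequence whose range contains `X` (`Set.Countable.exists_eq_range`
for `insert 0 X`). For `k : ℕ` let `I_k = Fin k → Fin (2 k + 1)` and `p_k n = ∑_{i < k} ((n i : ℝ)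
- k) • x_i`. The finite union `⋃_n {y | y + p_k n ∈ C}` of closed sets with empty interior is
closed with empty interior (Baire, or a finite intersection of open dense sets is open and dense),
so its complement contains a ball `B_k` with positive radius. Put `M_k f = (#I_k)⁻¹ ∑_n ⨍_{y ∈
B_k} f (y + p_k n)`; for `BM f` with bound `c`, `|M_k f| ≤ c`. Fix an ultrafilter `u` on `ℕ` finer
than `atTop` (`Filter.hyperfilter ℕ`); bounded real sequences converge along `u`
(`IsCompact.ultrafilter_le_nhds` for `Icc (-c) c`), let `M f` be the limit (`limUnder u`). `M` is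
additive, homogeneous, `M 1 = 1`; monotone (if `f ≤ g` almost everywhere then `f (· + p) ≤ g (· +
p)` almost everywhere). `null`: the indicator of `C` vanishes on all `B_k + p_k n`.

Invariance under `x = x_i`: for `k > i` and fixed `y` the sums `∑_n f (y + p_k n + x_i)` and `∑_n
f (y + p_k n)` differ by terms in which the `i`-th coordinate of `n` is `2 k` (shifted out) or
`0`, so `|M_k (f (· + x_i)) - M_k f| ≤ 2 c / (2 k + 1) → 0`. (It may be simpler to write the
average over `I_k` as the composition, for `i < k`, of the operators `A f (y) = (2 k + 1)⁻¹ ∑_{j =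
-k}^{k} f (y + j x_i)`: they commute with translations, do not increase the sup norm, and `|A f (y
+ x_i) - A f y| ≤ 2 c / (2 k + 1)`.) -/
theorem exists_mean {C : Set (E d)} (hC : IsClosed C) (hC' : interior C = ∅) {X : Set (E d)}
    (hX : X.Countable) : ∃ M : (E d → ℝ) → ℝ, Mean C X M := by
  classical
  obtain ⟨x, hx⟩ := (hX.insert 0).exists_eq_range (insert_nonempty 0 X)
  have hBC : BM (C.indicator fun _ : E d => (1 : ℝ)) := by
    refine ⟨measurable_const.indicator hC.measurableSet, 1, fun v => ?_⟩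
    by_cases hv : v ∈ C
    · rw [indicator_of_mem hv, abs_one]
    · rw [indicator_of_notMem hv, abs_zero]
      exact zero_le_one
  have hdense : Dense Cᶜ := interior_eq_empty_iff_dense_compl.mp hC'
  have hex : ∀ k : ℕ, ∃ α : Measure (E d), IsProbabilityMeasure α ∧ α ≪ volume ∧
      ∫ y, Fun_P k x k (C.indicator fun _ : E d => (1 : ℝ)) y ∂α = 0 := by
    intro k
    obtain ⟨V, hV1, hV2, hV3⟩ := Fun_P_open k x (C.indicator fun _ : E d => (1 : ℝ)) Cᶜ
      hC.isOpen_compl hdense (fun y hy => indicator_of_notMem hy _) k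
    obtain ⟨α, h1, h2, h3⟩ := Fun_meas V hV1 hV2.nonempty
    refine ⟨α, h1, h2, ?_⟩
    rw [integral_congr_ae (h3.mono fun y hy => hV3 y hy), integral_zero]
  choose α hα1 hα2 hα3 using hex
  have hlim : ∀ f : E d → ℝ, BM f → Tendsto (fun k => ∫ y, Fun_P k x k f y ∂(α k))
      (hyperfilter ℕ : Filter ℕ) (𝓝 (limUnder (hyperfilter ℕ : Filter ℕ)
        (fun k => ∫ y, Fun_P k x k f y ∂(α k)))) := by
    intro f hf
    obtain ⟨-, c, hc⟩ := hf
    exact Fun_lim _ c fun k => Fun_int_abs (α k) _ c (Fun_P_abs k x f c hc k)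
  refine ⟨fun f => limUnder (hyperfilter ℕ : Filter ℕ) (fun k => ∫ y, Fun_P k x k f y ∂(α k)),
    ?_, ?_, ?_, ?_, ?_, ?_⟩
  · intro f g hf hg
    refine tendsto_nhds_unique (hlim _ (hf.add hg)) ?_
    refine ((hlim f hf).add (hlim g hg)).congr fun k => ?_
    rw [Fun_P_add]
    exact (integral_add (Fun_int (α k) _ (Fun_P_bm k x f hf k))
      (Fun_int (α k) _ (Fun_P_bm k x g hg k))).symm
  · intro a f hf
    refine tendsto_nhds_unique (hlim _ (hf.mul_const a)) ?_
    refine ((hlim f hf).const_mul a).congr fun k => ?_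
    rw [Fun_P_smul]
    exact (integral_const_mul a _).symm
  · intro f g hf hg hfg
    refine le_of_tendsto_of_tendsto' (hlim f hf) (hlim g hg) fun k => ?_
    exact integral_mono_ae (Fun_int (α k) _ (Fun_P_bm k x f hf k))
      (Fun_int (α k) _ (Fun_P_bm k x g hg k)) ((hα2 k).ae_le (Fun_P_mono k x f g hfg k))
  · refine tendsto_nhds_unique (hlim _ (bm_const 1)) ?_
    refine tendsto_const_nhds.congr fun k => ?_
    rw [Fun_P_one]
    simp
  · intro z hz f hf
    have hz2 : z ∈ range x := by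
      rw [← hx]
      exact mem_insert_of_mem 0 hz
    obtain ⟨i, rfl⟩ := hz2
    have hf2 := hf
    obtain ⟨-, c, hc⟩ := hf2
    have h1 : Tendsto (fun k => ∫ y, Fun_P k x k (fun v => f (v + x i)) y ∂(α k) -
        ∫ y, Fun_P k x k f y ∂(α k)) (hyperfilter ℕ : Filter ℕ) (𝓝 0) := by
      refine Tendsto.mono_left ?_ Nat.hyperfilter_le_atTop
      have h2 : Tendsto (fun k : ℕ => 2 * c / ((k : ℝ) + 1)) atTop (𝓝 0) :=
        Tendsto.div_atTop tendsto_const_nhds
          (tendsto_atTop_add_const_right _ _ tendsto_natCast_atTop_atTop)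
      refine squeeze_zero_norm' ?_ h2
      filter_upwards [eventually_gt_atTop i] with k hk
      rw [Fun_P_shift, ← integral_sub (Fun_int (α k) _ ((Fun_P_bm k x f hf k).shift (x i)))
        (Fun_int (α k) _ (Fun_P_bm k x f hf k)), Real.norm_eq_abs]
      exact Fun_int_abs (α k) _ _ (Fun_P_near k x f c hc i k hk)
    have h3 := (hlim _ (hf.shift (x i))).sub (hlim f hf)
    exact sub_eq_zero.mp (tendsto_nhds_unique h3 h1)
  · refine tendsto_nhds_unique (hlim _ hBC) ?_
    refine tendsto_const_nhds.congr fun k => ?_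
    exact (hα3 k).symm

end Pool.Agent.SpecAF
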