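import Pool.Agent.Lib.MP_53fa4a_an_AF.Defs

/-!
# MP_53fa4a_an (project AF): polynomial growth of a tiling measure
-/

set_option autoImplicit false

open MeasureTheory Set Filter Metric
open scoped ENNReal Topology ComplexConjugate

namespace Pool.Agent.SpecAF

open Pool.Agent.SpecND (E ee)

variable {d : ℕ}

private lemma Grow_norm {v : E d} {r : ℝ} (hr : 0 ≤ r) (h : ∀ i, |v i| ≤ r) :
    ‖v‖ ≤ (d + 1) * r := by
  have h1 : ‖v‖ ^ 2 ≤ ((d + 1) * r) ^ 2 := by
    rw [EuclideanSpace.norm_sq_eq]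
    calc ∑ i, ‖v i‖ ^ 2 ≤ ∑ _i : Fin d, r ^ 2 := by
          refine Finset.sum_le_sum fun i _ => ?_
          rw [Real.norm_eq_abs]
          exact pow_le_pow_left₀ (abs_nonneg _) (h i) 2
      _ = d * r ^ 2 := by simp
      _ ≤ ((d + 1) * r) ^ 2 := by
          have hd : (0 : ℝ) ≤ d := Nat.cast_nonneg d
          have h2 : (d : ℝ) ≤ (d + 1) ^ 2 := by nlinarith
          rw [mul_pow]
          exact mul_le_mul_of_nonneg_right h2 (sq_nonneg r)
  exact (pow_le_pow_iff_left₀ (norm_nonneg v) (by positivity) two_ne_zero).1 h1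

private lemma Grow_vol (d : ℕ) {R : ℝ} (hR : 0 ≤ R) :
    volume (cube (d := d) R) ≤
      ENNReal.ofReal (((d + 1) * R) ^ d) * volume (ball (0 : E d) 1) := by
  have h1 : cube (d := d) R ⊆ closedBall 0 ((d + 1) * R) := by
    intro z hz
    rw [mem_closedBall_zero_iff]
    exact Grow_norm hR hz
  refine (measure_mono h1).trans (le_of_eq ?_)
  rw [Measure.addHaar_closedBall _ _ (by positivity), finrank_euclideanSpace_fin]

/-- Proof. Let `Ω ⊆ closedBall 0 r`, `r ≥ 0`. `c < ∞`, since `c = ν (tr Ω y)` for some `y` and `tr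
Ω y` is bounded. By Tonelli `c * volume (cube (ρ + r)) = ∫⁻_{y ∈ cube (ρ + r)} ν (tr Ω y) = ∫⁻ z,
volume {y ∈ cube (ρ + r) | z - y ∈ Ω} ∂ν ≥ ν (cube ρ) * volume Ω`, because for `z ∈ cube ρ` every
`y` with `z - y ∈ Ω` lies in `cube (ρ + r)` (`|y i| ≤ |z i| + r`) and `volume {y | z - y ∈ Ω} =
volume Ω`. (`ν` is σ-finite.) The volume of `cube R` is at most `(2 R) ^ d` times a constant (or:
`cube R = R • cube 1` and `Measure.addHaar_smul`), and `ρ + r ≤ (1 + r) ρ` for `ρ ≥ 1`. -/
theorem growth {Ω : Set (E d)} (hm : MeasurableSet Ω) (hb : Bornology.IsBounded Ω)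
    (hpos : volume Ω ≠ 0) {ν : Measure (E d)} [IsLocallyFiniteMeasure ν] {c : ℝ≥0∞}
    (hc : ∀ᵐ y, ν (tr Ω y) = c) :
    ∃ B : ℝ, 0 < B ∧ ∀ ρ : ℝ, 1 ≤ ρ → ν.real (cube ρ) ≤ B * ρ ^ d := by
  obtain ⟨r0, hr0⟩ := hb.subset_closedBall (0 : E d)
  set r : ℝ := max r0 0 with hr
  have hr1 : 0 ≤ r := le_max_right _ _
  have hΩr : ∀ x ∈ Ω, ‖x‖ ≤ r := fun x hx =>
    (mem_closedBall_zero_iff.1 (hr0 hx)).trans (le_max_left _ _)
  have hΩfin : volume Ω ≠ ∞ := hb.measure_lt_top.ne
  have hcfin : c ≠ ∞ := by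
    obtain ⟨y, hy⟩ := hc.exists
    rw [← hy]
    have h1 : tr Ω y ⊆ closedBall y r := by
      intro z hz
      rw [mem_closedBall, dist_eq_norm]
      exact hΩr _ hz
    exact (lt_of_le_of_lt (measure_mono h1) (isCompact_closedBall y r).measure_lt_top).ne
  -- the double integral
  have key : ∀ ρ : ℝ, 1 ≤ ρ → ν (cube ρ) * volume Ω ≤ c * volume (cube (d := d) (ρ + r)) := by
    intro ρ hρ
    set S : Set (E d × E d) := {p | p.1 ∈ cube (d := d) (ρ + r) ∧ p.2 - p.1 ∈ Ω} with hS
    have hSm : MeasurableSet S :=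
      (measurable_fst (measurableSet_cube (d := d) (ρ + r))).inter
        ((measurable_snd.sub measurable_fst) hm)
    have h1 : (volume.prod ν) S = c * volume (cube (d := d) (ρ + r)) := by
      rw [Measure.prod_apply hSm]
      have h2 : ∀ᵐ y : E d, ν (Prod.mk y ⁻¹' S) =
          (cube (d := d) (ρ + r)).indicator (fun _ => c) y := by
        filter_upwards [hc] with y hy
        by_cases hy1 : y ∈ cube (d := d) (ρ + r)
        · rw [indicator_of_mem hy1, ← hy]
          congr 1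
          ext z
          exact ⟨fun h => h.2, fun h => ⟨hy1, h⟩⟩
        · rw [indicator_of_notMem hy1]
          have h3 : Prod.mk y ⁻¹' S = ∅ := by
            ext z
            exact ⟨fun h => absurd h.1 hy1, fun h => absurd h (notMem_empty z)⟩
          rw [h3, measure_empty]
      rw [lintegral_congr_ae h2, lintegral_indicator (measurableSet_cube _), setLIntegral_const]
    have h2 : ν (cube ρ) * volume Ω ≤ (volume.prod ν) S := by
      rw [Measure.prod_apply_symm hSm]
      have h3 : ∀ z ∈ cube (d := d) ρ, volume Ω ≤ volume ((fun x => (x, z)) ⁻¹' S) := by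
        intro z hz
        have h4 : (fun x => z - x) ⁻¹' Ω ⊆ (fun x => (x, z)) ⁻¹' S := by
          intro y hy
          refine ⟨fun i => ?_, hy⟩
          have h5 : y i = z i - (z - y) i := by
            rw [PiLp.sub_apply]
            ring
          rw [h5]
          have h6 := (coord_le_norm (z - y) i).trans (hΩr _ hy)
          have h7 := hz i
          rw [abs_le] at h6 h7 ⊢
          exact ⟨by linarith, by linarith⟩
        refine le_trans (le_of_eq ?_) (measure_mono h4)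
        exact ((Measure.measurePreserving_sub_left volume z).measure_preimage
          hm.nullMeasurableSet).symm
      calc ν (cube ρ) * volume Ω = ∫⁻ _z in cube ρ, volume Ω ∂ν := by
            rw [setLIntegral_const, mul_comm]
        _ ≤ ∫⁻ z in cube ρ, volume ((fun x => (x, z)) ⁻¹' S) ∂ν :=
            setLIntegral_mono' (measurableSet_cube ρ) h3
        _ ≤ ∫⁻ z, volume ((fun x => (x, z)) ⁻¹' S) ∂ν := setLIntegral_le_lintegral _ _
    exact h2.trans h1.le
  set v1 : ℝ := volume.real (ball (0 : E d) 1) with hv1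
  have hv10 : 0 ≤ v1 := measureReal_nonneg
  have hΩ0 : 0 < volume.real Ω := ENNReal.toReal_pos hpos hΩfin
  refine ⟨c.toReal * (((d + 1) * (1 + r)) ^ d * v1) / volume.real Ω + 1, by positivity,
    fun ρ hρ => ?_⟩
  have h1 := (key ρ hρ).trans (mul_le_mul_right (Grow_vol d (show 0 ≤ ρ + r by linarith)) c)
  have hbf : volume (ball (0 : E d) 1) ≠ ∞ := measure_ball_lt_top.ne
  have h2 := ENNReal.toReal_mono (ENNReal.mul_ne_top hcfin (ENNReal.mul_ne_top
    ENNReal.ofReal_ne_top hbf)) h1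
  rw [ENNReal.toReal_mul, ENNReal.toReal_mul, ENNReal.toReal_mul,
    ENNReal.toReal_ofReal (by positivity)] at h2
  have h3 : ν.real (cube ρ) * volume.real Ω ≤ c.toReal * (((d + 1) * (ρ + r)) ^ d * v1) := h2
  have h4 : ((d + 1) * (ρ + r)) ^ d ≤ (((d : ℝ) + 1) * (1 + r)) ^ d * ρ ^ d := by
    rw [← mul_pow]
    refine pow_le_pow_left₀ (by positivity) ?_ d
    have h5 : ρ + r ≤ (1 + r) * ρ := by nlinarith
    have h6 : (0 : ℝ) ≤ d + 1 := by positivity
    nlinarith [mul_le_mul_of_nonneg_left h5 h6]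
  have h5 : ν.real (cube ρ) * volume.real Ω ≤
      c.toReal * (((d + 1) * (1 + r)) ^ d * v1) * ρ ^ d := by
    refine h3.trans ?_
    have h6 : ((d + 1) * (ρ + r)) ^ d * v1 ≤ (((d : ℝ) + 1) * (1 + r)) ^ d * ρ ^ d * v1 :=
      mul_le_mul_of_nonneg_right h4 hv10
    have h7 := mul_le_mul_of_nonneg_left h6 (ENNReal.toReal_nonneg (a := c))
    refine h7.trans (le_of_eq ?_)
    ring
  rw [← le_div_iff₀ hΩ0] at h5
  refine h5.trans ?_
  have h6 : (0 : ℝ) ≤ ρ ^ d := by positivity
  have h7 : (c.toReal * (((d + 1) * (1 + r)) ^ d * v1) / volume.real Ω + 1) * ρ ^ d =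
      c.toReal * (((d + 1) * (1 + r)) ^ d * v1) * ρ ^ d / volume.real Ω + ρ ^ d := by ring
  rw [h7]
  linarith

end Pool.Agent.SpecAF
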