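import Pool.Agent.Lib.MP_53fa4a_an_AF.Defs

/-!
# MP_53fa4a_an (project AF): the pieces with directions in a subspace
-/

set_option autoImplicit false

open MeasureTheory Set Filter Metric
open scoped ENNReal Topology ComplexConjugate

namespace Pool.Agent.SpecAF

open Pool.Agent.SpecND (E ee)

variable {d : ℕ}

/-- Proof. `Measure.sum` is additive and `(if F n ≤ V then κ n else 0) + (if F n ≤ V then 0 else κ
n) = κ n`. -/
theorem low_add (κ : ℕ → Measure (E d)) (F : ℕ → Submodule ℝ (E d)) (V : Submodule ℝ (E d)) :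
    ∃ κ' : ℕ → Measure (E d), Measure.sum κ = low κ F V + Measure.sum κ' ∧
      ∀ n, (F n ≤ V → κ' n = 0) ∧ (¬ F n ≤ V → κ' n = κ n) := by
  classical
  refine ⟨fun n => if F n ≤ V then 0 else κ n, ?_, fun n => ⟨fun h => if_pos h,
    fun h => if_neg h⟩⟩
  unfold low
  rw [Measure.sum_add_sum]
  congr 1
  funext n
  by_cases h : F n ≤ V
  · simp [h]
  · simp [h]

/-- Proof. `low κ F V ≤ Measure.sum κ` (termwise). -/
theorem low_le (κ : ℕ → Measure (E d)) (F : ℕ → Submodule ℝ (E d)) (V : Submodule ℝ (E d)) :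
    low κ F V ≤ Measure.sum κ := by
  rw [Measure.le_iff]
  intro s hs
  unfold low
  rw [Measure.sum_apply _ hs, Measure.sum_apply _ hs]
  refine ENNReal.tsum_le_tsum fun n => ?_
  by_cases h : F n ≤ V
  · simp [h]
  · simp [h]

/-- Proof. Termwise, if `F n ≤ V` then `F n ≤ V'`. -/
theorem low_mono (κ : ℕ → Measure (E d)) (F : ℕ → Submodule ℝ (E d))
    {V V' : Submodule ℝ (E d)} (h : V ≤ V') : low κ F V ≤ low κ F V' := by
  rw [Measure.le_iff]
  intro s hs
  unfold low
  rw [Measure.sum_apply _ hs, Measure.sum_apply _ hs]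
  refine ENNReal.tsum_le_tsum fun n => ?_
  by_cases h1 : F n ≤ V
  · simp [h1, h1.trans h]
  · simp [h1]

/-- Proof. Cubes are bounded (contained in a closed ball, compact) and `ν` is finite on compact
sets. -/
theorem cube_lt_top (ν : Measure (E d)) [IsLocallyFiniteMeasure ν] (ρ : ℝ) :
    ν (cube ρ) < ∞ := by
  have h : cube (d := d) ρ ⊆ closedBall 0 (Real.sqrt (d * ρ ^ 2)) := by
    intro z hz
    rw [mem_closedBall_zero_iff]
    refine Real.le_sqrt_of_sq_le ?_
    rw [EuclideanSpace.norm_sq_eq]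
    refine (Finset.sum_le_sum fun i _ => ?_).trans (le_of_eq ?_) (b := ∑ _i : Fin d, ρ ^ 2)
    · rw [Real.norm_eq_abs]
      exact pow_le_pow_left₀ (abs_nonneg _) (hz i) 2
    · rw [Finset.sum_const, Finset.card_univ, Fintype.card_fin, nsmul_eq_mul]
  exact (measure_mono h).trans_lt (isCompact_closedBall _ _).measure_lt_top

end Pool.Agent.SpecAF
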