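import Pool.Agent.Lib.MP_53fa4a_an_AF.Defs

/-!
# MP_53fa4a_an (project AF): the periodic set generated by a compact nowhere dense set
-/

set_option autoImplicit false

open MeasureTheory Set Filter Metric
open scoped ENNReal Topology ComplexConjugate

namespace Pool.Agent.SpecAF

open Pool.Agent.SpecND (E ee)

variable {d : ℕ}

open Pointwise in
/-- Proof. `{y | -y ∈ per ρ K} = ⋃_l {y | -y - lat ρ l ∈ K}` is a locally finite union (`K` is
bounded and `ρ > 0`: in a bounded region only finitely many `l` matter) of closed sets
(`LocallyFinite.isClosed_iUnion`, or directly: a convergent sequence meets finitely many of them),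
so it is closed. Each of the sets has empty interior, and a countable union of closed sets with
empty interior has empty interior (Baire, `interior_iUnion_of_closed_of_empty_interior` or
`nonempty_interior_of_iUnion_of_closed`). -/
theorem per_closed {K : Set (E d)} (hK : IsCompact K) (hK' : interior K = ∅) {ρ : ℝ}
    (hρ : 0 < ρ) : IsClosed {y : E d | -y ∈ per ρ K} ∧
      interior {y : E d | -y ∈ per ρ K} = ∅ := by
  have hU : {y : E d | -y ∈ per ρ K} = ⋃ l : Fin d → ℤ, {y : E d | -y - lat ρ l ∈ K} := by
    ext y
    simp [per]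
  constructor
  · have hL : IsClosed (range (lat (d := d) ρ)) := by
      refine Metric.isClosed_of_pairwise_le_dist (ε := 2 * ρ) (by positivity) ?_
      rintro _ ⟨l, rfl⟩ _ ⟨l', rfl⟩ hne
      have hll : l ≠ l' := fun h => hne (by rw [h])
      obtain ⟨i, hi⟩ := Function.ne_iff.1 hll
      have h1 := coord_le_norm (lat ρ l - lat ρ l') i
      rw [← dist_eq_norm] at h1
      refine le_trans ?_ h1
      have e : (lat ρ l - lat ρ l') i = 2 * ρ * ((l i - l' i : ℤ) : ℝ) := by
        rw [PiLp.sub_apply, lat_apply, lat_apply]
        push_cast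
        ring
      rw [e, abs_mul, abs_of_pos (by positivity : 0 < 2 * ρ)]
      have h2 : (1 : ℝ) ≤ |((l i - l' i : ℤ) : ℝ)| := by
        have h3 : (1 : ℤ) ≤ |l i - l' i| := Int.one_le_abs (sub_ne_zero.2 hi)
        exact_mod_cast h3
      nlinarith
    have hC : IsClosed (K + range (lat (d := d) ρ)) := hL.add_left_of_isCompact hK
    have e : per ρ K = K + range (lat (d := d) ρ) := by
      ext x
      constructor
      · rintro ⟨l, hl⟩
        exact ⟨x - lat ρ l, hl, lat ρ l, ⟨l, rfl⟩, by simp⟩
      · rintro ⟨k, hk, _, ⟨l, rfl⟩, rfl⟩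
        exact ⟨l, by simpa using hk⟩
    have h3 : {y : E d | -y ∈ per ρ K} = (fun y : E d => -y) ⁻¹' (K + range (lat (d := d) ρ)) := by
      rw [← e]
      rfl
    rw [h3]
    exact hC.preimage continuous_neg
  · rw [hU]
    rw [interior_eq_empty_iff_dense_compl, compl_iUnion]
    refine dense_iInter_of_isOpen ?_ ?_
    · intro l
      exact (hK.isClosed.preimage (continuous_neg.sub continuous_const)).isOpen_compl
    · intro l
      refine interior_eq_empty_iff_dense_compl.1 ?_
      have h1 : {y : E d | -y - lat ρ l ∈ K} =
          ((Homeomorph.neg (E d)).trans (Homeomorph.subRight (lat ρ l))) ⁻¹' K := rfl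
      rw [h1, ← Homeomorph.preimage_interior, hK', preimage_empty]

end Pool.Agent.SpecAF
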