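import Pool.Agent.Lib.MP_53fa4a_an_AF.Defs

/-!
# MP_53fa4a_an (project AF): closure under sums; a countable set of translations
-/

set_option autoImplicit false

open MeasureTheory Set Filter Metric
open scoped ENNReal Topology ComplexConjugate

namespace Pool.Agent.SpecAF

open Pool.Agent.SpecND (E ee)

variable {d : ℕ}

/-- Proof. Take all sums of subsets of `insert ⊤ L` (the image of the powerset under
`Finset.sup`); the empty subset gives `⊥`. -/
theorem exists_sup_closed (L : Finset (Submodule ℝ (E d))) :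
    ∃ L' : Finset (Submodule ℝ (E d)), L ⊆ L' ∧ ⊥ ∈ L' ∧ ⊤ ∈ L' ∧
      ∀ W ∈ L', ∀ W' ∈ L', W ⊔ W' ∈ L' := by
  classical
  refine ⟨(insert ⊤ L).powerset.image fun s => s.sup id, ?_, ?_, ?_, ?_⟩
  · intro W hW
    refine Finset.mem_image.2 ⟨{W}, ?_, ?_⟩
    · rw [Finset.mem_powerset, Finset.singleton_subset_iff]
      exact Finset.mem_insert_of_mem hW
    · rw [Finset.sup_singleton]
      rfl
  · refine Finset.mem_image.2 ⟨∅, Finset.empty_mem_powerset _, ?_⟩
    rw [Finset.sup_empty]
  · refine Finset.mem_image.2 ⟨{⊤}, ?_, ?_⟩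
    · rw [Finset.mem_powerset, Finset.singleton_subset_iff]
      exact Finset.mem_insert_self _ _
    · rw [Finset.sup_singleton]
      rfl
  · intro W hW W' hW'
    obtain ⟨s, hs, rfl⟩ := Finset.mem_image.1 hW
    obtain ⟨s', hs', rfl⟩ := Finset.mem_image.1 hW'
    refine Finset.mem_image.2 ⟨s ∪ s', ?_, ?_⟩
    · rw [Finset.mem_powerset] at hs hs' ⊢
      exact Finset.union_subset hs hs'
    · rw [Finset.sup_union]

/-- Proof. Each `W` is separable: there is a countable set `S_W ⊆ W` with `W ⊆ closure S_W`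
(`TopologicalSpace.exists_countable_dense` for the subtype, or `IsSeparable`). Take the union of
these sets, `{0}` and the range of `t`. -/
theorem exists_countable (L : Finset (Submodule ℝ (E d))) (t : ℕ → E d) :
    ∃ X : Set (E d), X.Countable ∧ (0 : E d) ∈ X ∧ (∀ n, t n ∈ X) ∧
      ∀ W ∈ L, (W : Set (E d)) ⊆ closure (X ∩ W) := by
  have h1 : ∀ W : Submodule ℝ (E d), ∃ S : Set (E d), S.Countable ∧ S ⊆ W ∧
      (W : Set (E d)) ⊆ closure S := by
    intro W
    have hsep : TopologicalSpace.IsSeparable (W : Set (E d)) :=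
      TopologicalSpace.IsSeparable.of_separableSpace _
    obtain ⟨S, hSW, hS, hc⟩ := hsep.exists_countable_dense_subset
    exact ⟨S, hS, hSW, hc⟩
  choose S hS hSW hSc using h1
  refine ⟨(⋃ W ∈ L, S W) ∪ ({0} ∪ range t), ?_, ?_, ?_, ?_⟩
  · refine Countable.union ?_ ((countable_singleton _).union (countable_range t))
    exact L.countable_toSet.biUnion fun W _ => hS W
  · exact Or.inr (Or.inl rfl)
  · exact fun n => Or.inr (Or.inr ⟨n, rfl⟩)
  · intro W hW
    refine (hSc W).trans (closure_mono fun x hx => ⟨Or.inl ?_, hSW W hx⟩)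
    exact mem_biUnion (show W ∈ (L : Set (Submodule ℝ (E d))) from hW) hx

end Pool.Agent.SpecAF
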