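import Pool.Agent.Lib.MP_53fa4a_an_AF.BmA

/-!
# MP_53fa4a_an (project AF): the value of the whole space is positive
-/

set_option autoImplicit false

open MeasureTheory Set Filter Metric
open scoped ENNReal Topology ComplexConjugate

namespace Pool.Agent.SpecAF

open Pool.Agent.SpecND (E ee)

variable {d : ℕ}

private lemma Top_cube_bdd (ρ : ℝ) :
    cube (d := d) ρ ⊆ closedBall 0 (√(∑ _i : Fin d, ρ ^ 2)) := by
  intro z hz
  rw [mem_closedBall, dist_zero_right, EuclideanSpace.norm_eq]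
  apply Real.sqrt_le_sqrt
  refine Finset.sum_le_sum fun i _ => ?_
  rw [Real.norm_eq_abs]
  exact pow_le_pow_left₀ (abs_nonneg _) (hz i) 2

private lemma Top_round {ρ : ℝ} (hρ : 0 < ρ) (y : E d) :
    ∃ l : Fin d → ℤ, ∀ i, |(y + lat ρ l) i| ≤ ρ := by
  refine ⟨fun i => -round (y i / (2 * ρ)), fun i => ?_⟩
  rw [PiLp.add_apply, lat_apply]
  have h1 := abs_sub_round (y i / (2 * ρ))
  have h2 : y i + 2 * ρ * ((-round (y i / (2 * ρ)) : ℤ) : ℝ) =
      2 * ρ * (y i / (2 * ρ) - round (y i / (2 * ρ))) := by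
    push_cast
    field_simp
    ring
  rw [h2, abs_mul, abs_of_pos (by positivity : 0 < 2 * ρ)]
  calc 2 * ρ * |y i / (2 * ρ) - round (y i / (2 * ρ))| ≤ 2 * ρ * (1 / 2) :=
        mul_le_mul_of_nonneg_left h1 (by positivity)
    _ = ρ := by ring

private lemma Top_vol_tr (A : Set (E d)) (y : E d) : volume (tr A y) = volume A := by
  have h : tr A y = (fun z => z + -y) ⁻¹' A := by
    ext z
    rw [mem_tr, mem_preimage, sub_eq_add_neg]
  rw [h, measure_preimage_add_right]

/-- Proof. Let `κ = volume.restrict (cube (2 * ρ))`, finite, `AT 0 ⊤ κ` (`at_top`). For every `y`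
there is `l` with `y' = y + lat ρ l ∈ cube ρ` (round each coordinate: `|y i + 2 ρ l i| ≤ ρ`). For
`z ∈ tr Ω y'` we have `z - y - lat ρ l ∈ Ω`, so `z ∈ tr (per ρ Ω) y`, and `|z i| ≤ |y' i| + ‖z -
y'‖ ≤ 2 ρ`, so `z ∈ cube (2 * ρ)`. Hence `Th (per ρ Ω) κ y ≥ volume.real (tr Ω y') = volume.real Ω
> 0` for all `y`, so `κ.real univ * m = M (Th …) ≥ volume.real Ω > 0` and `m ≠ 0`. -/
theorem top_pos {C X : Set (E d)} {M : (E d → ℝ) → ℝ} (hM : Mean C X M) {ρ : ℝ} (hρ : 0 < ρ)
    {Ω : Set (E d)} (hm : MeasurableSet Ω) (hb : Ω ⊆ closedBall 0 ρ) (hpos : volume Ω ≠ 0)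
    {m : ℝ} (hm0 : 0 ≤ m) (hc : ∀ κ : Measure (E d), IsFiniteMeasure κ → AT 0 ⊤ κ →
      M (Th (per ρ Ω) κ) = κ.real univ * m) : 0 < m := by
  have hΩ : volume Ω ≠ ⊤ := ((isBounded_closedBall.subset hb).measure_lt_top).ne
  have hcube : volume (cube (d := d) (2 * ρ)) < ⊤ :=
    (isBounded_closedBall.subset (Top_cube_bdd _)).measure_lt_top
  have hfin : IsFiniteMeasure ((volume : Measure (E d)).restrict (cube (2 * ρ))) :=
    ⟨by rw [Measure.restrict_apply_univ]; exact hcube⟩
  have hκ := hc ((volume : Measure (E d)).restrict (cube (2 * ρ))) hfin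
    (at_top Measure.restrict_le_self.absolutelyContinuous)
  have hV : 0 < volume.real Ω := by
    rw [measureReal_def]
    exact ENNReal.toReal_pos hpos hΩ
  have hlow : ∀ y : E d, volume.real Ω ≤
      Th (per ρ Ω) ((volume : Measure (E d)).restrict (cube (2 * ρ))) y := by
    intro y
    obtain ⟨l, hl⟩ := Top_round hρ y
    have hsub : tr Ω (y + lat ρ l) ⊆ tr (per ρ Ω) y ∩ cube (2 * ρ) := by
      intro z hz
      rw [mem_tr] at hz
      refine ⟨?_, fun i => ?_⟩
      · rw [mem_tr]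
        refine ⟨l, ?_⟩
        rwa [sub_sub]
      · have h1 := hb hz
        rw [mem_closedBall, dist_zero_right] at h1
        have h2 := coord_le_norm (z - (y + lat ρ l)) i
        have h3 := hl i
        have h4 : z i = (z - (y + lat ρ l)) i + (y + lat ρ l) i := by
          rw [PiLp.sub_apply]
          ring
        rw [h4]
        have h5 := abs_add_le ((z - (y + lat ρ l)) i) ((y + lat ρ l) i)
        linarith
    have h1 : volume Ω ≤ (volume : Measure (E d)).restrict (cube (2 * ρ)) (tr (per ρ Ω) y) := by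
      rw [Measure.restrict_apply (measurableSet_tr (measurableSet_per hm ρ) y),
        ← Top_vol_tr Ω (y + lat ρ l)]
      exact measure_mono hsub
    unfold Th
    rw [measureReal_def, measureReal_def]
    exact ENNReal.toReal_mono (measure_ne_top _ _) h1
  have h1 := hM.mono (fun _ => volume.real Ω)
    (Th (per ρ Ω) ((volume : Measure (E d)).restrict (cube (2 * ρ)))) (bm_const _)
    (bm_th (measurableSet_per hm ρ) _) (Eventually.of_forall hlow)
  rw [hM.const, hκ] at h1
  rcases hm0.lt_or_eq with h2 | h2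
  · exact h2
  · rw [← h2, mul_zero] at h1
    linarith

end Pool.Agent.SpecAF
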