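import Pool.Agent.Lib.MP_53fa4a_an_AF.MainB
import Pool.Agent.Lib.MP_53fa4a_an_AF.Atom
import Pool.Agent.Lib.MP_53fa4a_an_AF.Grow
import Pool.Agent.Lib.MP_53fa4a_an_AF.Choice
import Pool.Agent.Lib.MP_53fa4a_an_AF.Arith
import Pool.Agent.Lib.MP_53fa4a_an_AF.SupC
import Pool.Agent.Lib.MP_53fa4a_an_AF.Fun
import Pool.Agent.Lib.MP_53fa4a_an_AF.PerK
import Pool.Agent.Lib.MP_53fa4a_an_AF.Top
import Pool.Agent.Lib.MP_53fa4a_an_AF.Bot
import Pool.Agent.Lib.MP_53fa4a_an_AF.CellB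
import Pool.Agent.Lib.MP_53fa4a_an_AF.Low

/-!
# MP_53fa4a_an (project AF): no tiling measure of affine type has an atom
-/

set_option autoImplicit false

open MeasureTheory Set Filter Metric
open scoped ENNReal Topology ComplexConjugate

namespace Pool.Agent.SpecAF

open Pool.Agent.SpecND (E ee)

variable {d : ℕ}

private theorem finA_cp_nonneg (L : Finset (Submodule ℝ (E d)))
    (hsup : ∀ W ∈ L, ∀ W' ∈ L, W ⊔ W' ∈ L) (m : Submodule ℝ (E d) → ℝ)
    (hm : ∀ W ∈ L, 0 ≤ m W) : ∀ (l : List (Submodule ℝ (E d))), (∀ W ∈ l, W ∈ L) →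
      ∀ W ∈ L, 0 ≤ cp m l W
  | [], _, W, hW => hm W hW
  | F :: l, hl, W, hW => by
    have h1 := finA_cp_nonneg L hsup m hm l (fun W' hW' => hl W' (List.mem_cons_of_mem _ hW')) W hW
    have h2 := finA_cp_nonneg L hsup m hm l (fun W' hW' => hl W' (List.mem_cons_of_mem _ hW'))
      (W ⊔ F) (hsup W hW F (hl F List.mem_cons_self))
    exact add_nonneg h1 h2

/-- Proof. Suppose `ν {0} ≠ 0`; `m₀ = ν.real {0} > 0` (finite). Write `ν = Measure.sum κ`, `κ n`
satisfying `AT (t n) (F n)`, `F n ∈ L`; enlarge `L` by `exists_sup_closed`. Take `X` from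
`exists_countable` and `η` from `arith`. Let `Ω ⊆ closedBall 0 r`, `r ≥ 0`, `s = 2 r + 3`. The
functions `N V ρ = (low κ F V).real (cube ρ)`, `V ∈ L`, are monotone (`cube_mono`; finite by
`low_le` and `cube_lt_top`), at least `m₀` for `ρ ≥ 0` (`low κ F ⊥ {0} = ν {0}` by `low_bot_atom`,
`low_mono`, `0 ∈ cube ρ`) and at most `B ρ ^ d` (`growth`, `low_le`). By `exists_radius` there is
`ρ ≥ max r 1` with `N V ρ - N V (ρ - s) ≤ η * N V ρ` for all `V ∈ L`. Let `K = closure Ω`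
(compact, empty interior), `C = {y | -y ∈ per ρ K}` (`per_closed`) and `M` the mean of
`exists_mean` for `C`, `X`. For `W ∈ L` choose `m W` by `exists_cell` (`P = per ρ Ω`; put `m W =
0` for `W ∉ L`). `m ⊤ > 0` by `top_pos` (`Ω ⊆ closedBall 0 ρ`) and `m ⊥ = 0` by `bot_zero` (`t = 0
∈ X`). For `V ∈ L`, `V ≠ ⊤`, and a list `l` as in `arith`, `main_ineq` gives `N V ρ * |cc m l V| ≤
(low κ F V).real (cube ρ \ cube (ρ - s)) * cp m l V ≤ η * N V ρ * cp m l V` (the measure of the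
difference is `N V ρ - N V (ρ - s)`, and `cp m l V ≥ 0` since `m ≥ 0`); divide by `N V ρ > 0`. So
`arith` gives `0 < m ⊥`, a contradiction. -/
theorem no_affine {Ω : Set (E d)} (hm : MeasurableSet Ω) (hb : Bornology.IsBounded Ω)
    (hpos : volume Ω ≠ 0) (hnd : interior (closure Ω) = ∅) {ν : Measure (E d)}
    [IsLocallyFiniteMeasure ν] {c : ℝ≥0∞} (hc : ∀ᵐ y, ν (tr Ω y) = c) (hν : AffineType ν) :
    ν {0} = 0 := by
  by_contra h0
  obtain ⟨L₀, κ, t, F, hF₀, hκ, rfl⟩ := hν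
  obtain ⟨L, hLL, hbot, htop, hsup⟩ := exists_sup_closed L₀
  have hF : ∀ n, F n ∈ (L : Set (Submodule ℝ (E d))) := fun n => hLL (hF₀ n)
  obtain ⟨X, hXc, hX0, hXt, hXd⟩ := exists_countable L t
  obtain ⟨η, hη, har⟩ := arith L hbot htop hsup
  obtain ⟨r, hr, hbr⟩ : ∃ r : ℝ, 0 ≤ r ∧ Ω ⊆ closedBall 0 r := by
    obtain ⟨r, hr⟩ := hb.subset_closedBall 0
    exact ⟨max r 0, le_max_right _ _, hr.trans (closedBall_subset_closedBall (le_max_left _ _))⟩
  obtain ⟨B, hB, hgrow⟩ := growth hm hb hpos hc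
  have hfin : ∀ V ρ, (low κ F V) (cube ρ) < ∞ := fun V ρ =>
    (low_le κ F V (cube ρ)).trans_lt (cube_lt_top _ ρ)
  have h0c : ∀ ρ : ℝ, 0 ≤ ρ → ({0} : Set (E d)) ⊆ cube ρ := by
    intro ρ hρ
    rw [singleton_subset_iff]
    intro i
    simpa using hρ
  have hm₀ : 0 < (Measure.sum κ).real {0} := by
    refine ENNReal.toReal_pos h0 ?_
    exact ((measure_mono (h0c 0 le_rfl)).trans_lt (cube_lt_top _ 0)).ne
  have hmono : ∀ V, Monotone fun ρ => (low κ F V).real (cube ρ) := fun V a b hab =>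
    ENNReal.toReal_mono (hfin V b).ne (measure_mono (cube_mono hab))
  have hlow : ∀ V ρ, 0 ≤ ρ → (Measure.sum κ).real {0} ≤ (low κ F V).real (cube ρ) := by
    intro V ρ hρ
    refine ENNReal.toReal_mono (hfin V ρ).ne ?_
    rw [← low_bot_atom hκ 0]
    exact (low_mono κ F bot_le {0}).trans (measure_mono (h0c ρ hρ))
  have hup : ∀ V ρ, 1 ≤ ρ → (low κ F V).real (cube ρ) ≤ B * ρ ^ d := fun V ρ hρ =>
    (ENNReal.toReal_mono (cube_lt_top _ ρ).ne (low_le κ F V _)).trans (hgrow ρ hρ)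
  obtain ⟨ρ, hρ, hsmall⟩ := exists_radius (ρ₀ := max r 1) L
    (fun V ρ => (low κ F V).real (cube ρ)) hm₀ (show 0 < 2 * r + 3 by linarith) hη
    (fun V _ => hmono V) (fun V _ => hlow V) (fun V _ => hup V)
  have hρ1 : 1 ≤ ρ := (le_max_right _ _).trans hρ
  have hρr : r ≤ ρ := (le_max_left _ _).trans hρ
  have hρ0 : 0 < ρ := by linarith
  have hK : IsCompact (closure Ω) := hb.isCompact_closure
  obtain ⟨hC1, hC2⟩ := per_closed hK hnd hρ0
  obtain ⟨M, hM⟩ := exists_mean hC1 hC2 hXc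
  have hcell : ∀ W ∈ L, ∃ m : ℝ, 0 ≤ m ∧ ∀ t ∈ X, ∀ κ : Measure (E d), IsFiniteMeasure κ →
      AT t W κ → M (Th (per ρ Ω) κ) = κ.real univ * m := fun W hW =>
    exists_cell hM (measurableSet_per hm ρ) hX0 (hXd W hW)
  choose! m hmn hmc using hcell
  have htpos : 0 < m ⊤ := top_pos hM hρ0 hm (hbr.trans (closedBall_subset_closedBall hρr)) hpos
    (hmn ⊤ htop) (fun κ' h1 h2 => hmc ⊤ htop 0 hX0 κ' h1 h2)
  have hbz : m ⊥ = 0 := bot_zero hM hm hK.isClosed.measurableSet subset_closure (hmn ⊥ hbot)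
    (fun κ' h1 h2 => hmc ⊥ hbot 0 hX0 κ' h1 h2)
  have hfinal := har m hmn htpos (fun V hV hVt l hl _ => ?_)
  · rw [hbz] at hfinal
    exact lt_irrefl _ hfinal
  · have h1 := main_ineq hm hr hbr hκ hc (L := (L : Set (Submodule ℝ (E d)))) hF
      (fun W hW W' hW' => hsup W hW W' hW') htop hM hXt hρ0 (m := m)
      (fun W hW => hmc W hW) hV hVt (l := l) hl
    have h2 : (low κ F V).real (cube ρ \ cube (ρ - (2 * r + 3))) =
        (low κ F V).real (cube ρ) - (low κ F V).real (cube (ρ - (2 * r + 3))) :=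
      measureReal_sdiff (cube_mono (by linarith)) (measurableSet_cube _) (hfin V ρ).ne
    have h3 := hsmall V hV
    have h4 : 0 < (low κ F V).real (cube ρ) := hm₀.trans_le (hlow V ρ hρ0.le)
    have h5 : 0 ≤ cp m l V := finA_cp_nonneg L hsup m hmn l (fun W hW => ((hl W).1 hW).1) V hV
    rw [h2] at h1
    have h6 := mul_le_mul_of_nonneg_right h3 h5
    refine le_of_mul_le_mul_left ?_ h4
    calc _ ≤ _ := h1
      _ ≤ _ := h6
      _ = _ := by ring

end Pool.Agent.SpecAF
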