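import Pool.Agent.Lib.MP_53fa4a_an_AF.Defs

/-!
# MP_53fa4a_an (project AF): discrete measures: generic translates
-/

set_option autoImplicit false

open MeasureTheory Set Filter Metric
open scoped ENNReal Topology ComplexConjugate

namespace Pool.Agent.SpecAF

open Pool.Agent.SpecND (E ee)

variable {d : ℕ}

/-- Proof. Shrink `U` to a ball (nonempty, bounded); then all sets `tr K y`, `y ∈ U`, lie in a
closed ball `B` and `ν B < ∞`. `ν.restrict B` is concentrated on the countable set `S ∩ B`, so
there is a finite set `S₀ ⊆ S ∩ B` with `ν (B \ S₀) ≤ ε` (continuity of the measure along an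
enumeration of `S ∩ B`). The set of the `y` with `s ∈ tr K y`, i.e. `s - y ∈ K`, is closed with
empty interior for each `s ∈ S₀` (an image of `K` under a homeomorphism), and so is the finite
union over `S₀`; let `U'` be `U` minus this union. It is open and nonempty, and for `y ∈ U'` the
set `tr K y` is contained in `B \ S₀`. -/
theorem gen_small {ν : Measure (E d)} [IsLocallyFiniteMeasure ν] {S : Set (E d)}
    (hS : S.Countable) (hν : ν Sᶜ = 0) {K : Set (E d)} (hK : IsCompact K)
    (hK' : interior K = ∅) {U : Set (E d)} (hU : IsOpen U) (hne : U.Nonempty)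
    {ε : ℝ} (hε : 0 < ε) :
    ∃ U' ⊆ U, IsOpen U' ∧ U'.Nonempty ∧ ∀ y ∈ U', ν.real (tr K y) ≤ ε := by
  classical
  obtain ⟨y₀, hy₀⟩ := hne
  obtain ⟨r, hr⟩ := hK.isBounded.subset_closedBall (0 : E d)
  set B : Set (E d) := closedBall y₀ (r + 1) with hB
  have hBfin : ν B ≠ ⊤ := (isCompact_closedBall y₀ (r + 1)).measure_lt_top.ne
  obtain ⟨f, hf⟩ := (hS.union (countable_singleton (0 : E d))).exists_eq_range
    ⟨0, Or.inr rfl⟩
  have hνf : ν (range f)ᶜ = 0 := by
    rw [← hf]
    exact measure_mono_null (compl_subset_compl.2 subset_union_left) hν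
  have hlim : Tendsto (fun n : ℕ => ν (B \ f '' {i | i < n})) atTop
      (𝓝 (ν (⋂ n : ℕ, B \ f '' {i | i < n}))) := by
    refine tendsto_measure_iInter_atTop (fun n => ?_) (fun n m hnm => ?_) ⟨0, ?_⟩
    · exact (isClosed_closedBall.measurableSet.diff
        ((finite_lt_nat n).image f).measurableSet).nullMeasurableSet
    · exact sdiff_subset_sdiff_right (image_mono fun i (hi : i < n) => lt_of_lt_of_le hi hnm)
    · exact ((measure_mono sdiff_subset).trans_lt hBfin.lt_top).ne
  have hz : ν (⋂ n : ℕ, B \ f '' {i | i < n}) = 0 := by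
    refine measure_mono_null (fun z hz => ?_) hνf
    rw [mem_iInter] at hz
    rintro ⟨i, rfl⟩
    exact (hz (i + 1)).2 ⟨i, Nat.lt_succ_self i, rfl⟩
  rw [hz] at hlim
  obtain ⟨n, hn⟩ := (hlim.eventually (gt_mem_nhds (ENNReal.ofReal_pos.2 hε))).exists
  set S₀ : Set (E d) := f '' {i | i < n} with hS₀
  have hS₀fin : S₀.Finite := (finite_lt_nat n).image f
  set G : E d → Set (E d) := fun s => {y | s - y ∈ K}ᶜ with hG
  have hGc : ∀ s, {y : E d | s - y ∈ K} = (Homeomorph.subLeft s) ⁻¹' K := fun s => rfl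
  have hGo : ∀ s ∈ S₀, IsOpen (G s) := by
    intro s _
    rw [hG]
    dsimp only
    rw [hGc, isOpen_compl_iff]
    exact hK.isClosed.preimage (Homeomorph.subLeft s).continuous
  have hGd : ∀ s ∈ S₀, Dense (G s) := by
    intro s _
    rw [hG]
    dsimp only
    rw [← interior_eq_empty_iff_dense_compl, hGc, ← Homeomorph.preimage_interior, hK',
      preimage_empty]
  have hdense : Dense (⋂ s ∈ S₀, G s) := dense_biInter_of_isOpen hGo hS₀fin.countable hGd
  refine ⟨(U ∩ ball y₀ 1) ∩ ⋂ s ∈ S₀, G s, fun y hy => hy.1.1,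
    (hU.inter isOpen_ball).inter (hS₀fin.isOpen_biInter hGo),
    hdense.inter_open_nonempty _ (hU.inter isOpen_ball) ⟨y₀, hy₀, mem_ball_self one_pos⟩,
    fun y hy => ?_⟩
  have hsub : tr K y ⊆ B \ S₀ := by
    intro z hz
    refine ⟨?_, fun hzS => ?_⟩
    · have h1 : ‖z - y‖ ≤ r := by
        have := hr hz
        rwa [mem_closedBall_zero_iff] at this
      have h2 : dist y y₀ < 1 := hy.1.2
      rw [hB, mem_closedBall]
      have h3 := dist_triangle z y y₀
      rw [dist_eq_norm z y] at h3
      linarith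
    · have := mem_iInter₂.1 hy.2 z hzS
      exact this hz
  have h1 : ν (tr K y) ≤ ENNReal.ofReal ε := (measure_mono hsub).trans hn.le
  exact ENNReal.toReal_le_of_le_ofReal hε.le h1

end Pool.Agent.SpecAF
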