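import Pool.Agent.Lib.MP_53fa4a_an_AF.Defs

/-!
# MP_53fa4a_an (project AF): compact sets: upper semicontinuity
-/

set_option autoImplicit false

open MeasureTheory Set Filter Metric
open scoped ENNReal Topology ComplexConjugate

namespace Pool.Agent.SpecAF

open Pool.Agent.SpecND (E ee)

variable {d : ℕ}

private lemma UscK_compact {K : Set (E d)} (hK : IsCompact K) (y : E d) : IsCompact (tr K y) := by
  have h : tr K y = (fun z => z + y) '' K := by
    ext z
    simp only [tr, mem_ofPred_eq, mem_image]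
    constructor
    · intro hz
      exact ⟨z - y, hz, sub_add_cancel z y⟩
    · rintro ⟨w, hw, rfl⟩
      rwa [add_sub_cancel_right]
  rw [h]
  exact hK.image (continuous_id.add continuous_const)

/-- Proof. `tr K y₀` is compact. `ν (cthickening r (tr K y₀))` tends to `ν (tr K y₀)` as `r → 0`
(`tendsto_measure_cthickening_of_isCompact`), so it is at most `ν (tr K y₀) + ε` for some `r > 0`.
For `dist y y₀ < r` the set `tr K y` is contained in `cthickening r (tr K y₀)`: if `z - y ∈ K`
then `z' = z - y + y₀ ∈ tr K y₀` and `dist z z' = dist y y₀`. -/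
theorem usc_compact {ν : Measure (E d)} [IsLocallyFiniteMeasure ν] {K : Set (E d)}
    (hK : IsCompact K) (y₀ : E d) {ε : ℝ} (hε : 0 < ε) :
    ∀ᶠ y in 𝓝 y₀, ν.real (tr K y) ≤ ν.real (tr K y₀) + ε := by
  have hc := UscK_compact hK y₀
  have hfin : ν (tr K y₀) ≠ ∞ := hc.measure_lt_top.ne
  have ht := tendsto_measure_cthickening_of_isCompact (μ := ν) hc
  have h1 : ∀ᶠ r in 𝓝 (0 : ℝ), ν (cthickening r (tr K y₀)) < ν (tr K y₀) + ENNReal.ofReal ε :=
    ht.eventually_lt_const (ENNReal.lt_add_right hfin (ENNReal.ofReal_pos.2 hε).ne')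
  obtain ⟨δ, hδ, hr⟩ := Metric.eventually_nhds_iff.1 h1
  have h2 := hr (y := δ / 2) (by
    rw [Real.dist_eq, sub_zero, abs_of_pos (by positivity)]
    linarith)
  filter_upwards [Metric.ball_mem_nhds y₀ (half_pos hδ)] with y hy
  have hsub : tr K y ⊆ cthickening (δ / 2) (tr K y₀) := by
    intro z hz
    have hz' : z - y + y₀ ∈ tr K y₀ := by
      show z - y + y₀ - y₀ ∈ K
      rw [add_sub_cancel_right]
      exact hz
    refine mem_cthickening_of_dist_le z _ _ _ hz' ?_
    rw [dist_eq_norm]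
    have e : z - (z - y + y₀) = y - y₀ := by abel
    rw [e, ← dist_eq_norm]
    exact (mem_ball.1 hy).le
  have h3 : ν (tr K y) ≤ ν (tr K y₀) + ENNReal.ofReal ε := (measure_mono hsub).trans h2.le
  have h4 := ENNReal.toReal_mono (ENNReal.add_ne_top.2 ⟨hfin, ENNReal.ofReal_ne_top⟩) h3
  rw [ENNReal.toReal_add hfin ENNReal.ofReal_ne_top, ENNReal.toReal_ofReal hε.le] at h4
  exact h4

end Pool.Agent.SpecAF
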