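import Pool.Agent.Lib.MP_53fa4a_an_AF.ContA
import Pool.Agent.Lib.MP_53fa4a_an_AF.UscK
import Pool.Agent.Lib.MP_53fa4a_an_AF.GenK

/-!
# MP_53fa4a_an (project AF): the singular continuous part
-/

set_option autoImplicit false

open MeasureTheory Set Filter Metric
open scoped ENNReal Topology ComplexConjugate

namespace Pool.Agent.SpecAF

open Pool.Agent.SpecND (E ee)

variable {d : ℕ}

/-- Proof. Let `K = closure Ω`, compact with empty interior. Write `G_i y = ν_i.real (tr Ω y)`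
(finite). Let `y₀` be a point with `(ν₁ + ν₂ + ν₃) (tr Ω y₀) = c` (almost every point; `c < ∞`).
Let `ε > 0`. By `usc_compact` and `cont_ac` there is an open `U ∋ y₀` with `ν₂.real (tr K y) ≤
ν₂.real (tr K y₀) + ε` and `G_3 y ≤ G_3 y₀ + ε` on `U`. By `gen_small` there is a nonempty open
`U' ⊆ U` with `ν₁.real (tr K y) ≤ ε` on `U'`. As `U'` has positive measure there is `y ∈ U'` with
`G_1 y + G_2 y + G_3 y = c.toReal = G_1 y₀ + G_2 y₀ + G_3 y₀`. So `G_1 y₀ + G_2 y₀ + G_3 y₀ ≤ ε +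
ν₂.real (tr K y₀) + ε + G_3 y₀ + ε`. Let `ε → 0`: `G_1 y₀ + G_2 y₀ ≤ ν₂.real (tr K y₀)`. Subtract
`G_2 y₀`: the set `tr K y₀` is the disjoint union of `tr Ω y₀` and `tr (K \ Ω) y₀`. -/
theorem ineq_sc {Ω : Set (E d)} (hm : MeasurableSet Ω) (hb : Bornology.IsBounded Ω)
    (hnd : interior (closure Ω) = ∅) {ν₁ ν₂ ν₃ : Measure (E d)} [IsLocallyFiniteMeasure ν₁]
    [IsLocallyFiniteMeasure ν₂] [IsLocallyFiniteMeasure ν₃] {S : Set (E d)}
    (hS : S.Countable) (h₁ : ν₁ Sᶜ = 0) (h₃ : ν₃ ≪ volume) {c : ℝ≥0∞}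
    (hc : ∀ᵐ y, (ν₁ + ν₂ + ν₃) (tr Ω y) = c) :
    ∀ᵐ y, ν₁ (tr Ω y) ≤ ν₂ (tr (closure Ω \ Ω) y) := by
  have hK : IsCompact (closure Ω) := hb.isCompact_closure
  have hKt : ∀ y, IsCompact (tr (closure Ω) y) := fun y =>
    (Homeomorph.subRight y).isCompact_preimage.2 hK
  have hsub : ∀ y, tr Ω y ⊆ tr (closure Ω) y := fun y => tr_mono subset_closure y
  have fK : ∀ (ν : Measure (E d)) [IsLocallyFiniteMeasure ν] (y : E d),
      ν (tr (closure Ω) y) ≠ ⊤ := fun ν _ y => (hKt y).measure_lt_top.ne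
  have fΩ : ∀ (ν : Measure (E d)) [IsLocallyFiniteMeasure ν] (y : E d),
      ν (tr Ω y) ≠ ⊤ := fun ν _ y => ne_top_of_le_ne_top (fK ν y) (measure_mono (hsub y))
  have hreal : ∀ y, (ν₁ + ν₂ + ν₃) (tr Ω y) = c →
      ν₁.real (tr Ω y) + ν₂.real (tr Ω y) + ν₃.real (tr Ω y) = c.toReal := by
    intro y hy
    rw [Measure.add_apply, Measure.add_apply] at hy
    rw [← hy, ENNReal.toReal_add (ENNReal.add_ne_top.2 ⟨fΩ ν₁ y, fΩ ν₂ y⟩) (fΩ ν₃ y),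
      ENNReal.toReal_add (fΩ ν₁ y) (fΩ ν₂ y)]
    rfl
  filter_upwards [hc] with y₀ hy₀
  have key : ν₁.real (tr Ω y₀) + ν₂.real (tr Ω y₀) ≤ ν₂.real (tr (closure Ω) y₀) := by
    refine le_of_forall_pos_le_add fun ε hε => ?_
    have hε' : 0 < ε / 3 := by linarith
    have h1 := usc_compact (ν := ν₂) hK y₀ hε'
    have h2 : ∀ᶠ y in 𝓝 y₀, ν₃.real (tr Ω y) < ν₃.real (tr Ω y₀) + ε / 3 :=
      ((cont_ac h₃ hm hb).continuousAt).eventually_lt_const (by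
        change ν₃.real (tr Ω y₀) < ν₃.real (tr Ω y₀) + ε / 3
        linarith)
    obtain ⟨U, hU, hUo, hy₀U⟩ := _root_.eventually_nhds_iff.1 (h1.and h2)
    obtain ⟨U', hU'U, hU'o, hU'n, hU'⟩ :=
      gen_small (ν := ν₁) hS h₁ hK hnd hUo ⟨y₀, hy₀U⟩ hε'
    obtain ⟨y, hyU', hy⟩ := (Measure.dense_of_ae hc).inter_open_nonempty U' hU'o hU'n
    have e1 := hreal y hy
    have e2 := hreal y₀ hy₀
    have e3 := hU' y hyU'
    obtain ⟨e4, e5⟩ := hU y (hU'U hyU')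
    have e6 : ν₁.real (tr Ω y) ≤ ν₁.real (tr (closure Ω) y) :=
      measureReal_mono (hsub y) (fK ν₁ y)
    have e7 : ν₂.real (tr Ω y) ≤ ν₂.real (tr (closure Ω) y) :=
      measureReal_mono (hsub y) (fK ν₂ y)
    linarith
  have hdiff : tr (closure Ω \ Ω) y₀ = tr (closure Ω) y₀ \ tr Ω y₀ := rfl
  have hsplit := measure_inter_add_sdiff (μ := ν₂) (tr (closure Ω) y₀) (measurableSet_tr hm y₀)
  rw [inter_eq_self_of_subset_right (hsub y₀), ← hdiff] at hsplit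
  have fD : ν₂ (tr (closure Ω \ Ω) y₀) ≠ ⊤ :=
    ne_top_of_le_ne_top (fK ν₂ y₀) (measure_mono sdiff_subset)
  have hsplit' : ν₂.real (tr Ω y₀) + ν₂.real (tr (closure Ω \ Ω) y₀) =
      ν₂.real (tr (closure Ω) y₀) := by
    unfold Measure.real
    rw [← hsplit, ENNReal.toReal_add (fΩ ν₂ y₀) fD]
  rw [← ENNReal.toReal_le_toReal (fΩ ν₁ y₀) fD]
  change ν₁.real (tr Ω y₀) ≤ ν₂.real (tr (closure Ω \ Ω) y₀)
  linarith

end Pool.Agent.SpecAF
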