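import Pool.Agent.Lib.MP_53fa4a_an_AF.VagA
import Pool.Agent.Lib.MP_53fa4a_an_AF.Dense

/-!
# MP_53fa4a_an (project AF): a diffraction measure is a tiling measure
-/

set_option autoImplicit false

open MeasureTheory Set Filter Metric
open scoped ENNReal Topology ComplexConjugate

namespace Pool.Agent.SpecAF

open Pool.Agent.SpecND (E ee)

variable {d : ℕ}

open scoped Convolution in
/-- The smoothed indicator function of `Ω`. -/
private noncomputable def VagB_h (g : E d → ℝ) (Ω : Set (E d)) (z : E d) : ℝ :=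
  ∫ y, g y * Ω.indicator (fun _ => (1 : ℝ)) (z - y)

open scoped Convolution in
private theorem VagB_h_eq (g : E d → ℝ) (Ω : Set (E d)) :
    VagB_h g Ω = g ⋆[ContinuousLinearMap.mul ℝ ℝ, volume] (Ω.indicator fun _ => (1 : ℝ)) := rfl

private theorem VagB_ind_supp {Ω : Set (E d)} (hb : Bornology.IsBounded Ω) :
    HasCompactSupport (Ω.indicator fun _ => (1 : ℝ)) := by
  have h1 : IsCompact (closure Ω) := hb.isCompact_closure
  refine HasCompactSupport.intro h1 fun x hx => ?_
  exact Set.indicator_of_notMem (fun h => hx (subset_closure h)) _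

private theorem VagB_h_cont {g : E d → ℝ} (hg : Continuous g) (hgs : HasCompactSupport g)
    {Ω : Set (E d)} (hm : MeasurableSet Ω) : Continuous (VagB_h g Ω) := by
  rw [VagB_h_eq]
  refine hgs.continuous_convolution_left _ hg ?_
  exact ((locallyIntegrable_const (1 : ℝ)).indicator hm)

private theorem VagB_h_supp {g : E d → ℝ} (hgs : HasCompactSupport g)
    {Ω : Set (E d)} (hb : Bornology.IsBounded Ω) : HasCompactSupport (VagB_h g Ω) := by
  rw [VagB_h_eq]
  exact hgs.convolution _ (VagB_ind_supp hb)

private theorem VagB_tr_bdd {Ω : Set (E d)} (hb : Bornology.IsBounded Ω) :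
    ∃ r : ℝ, ∀ y : E d, tr Ω y ⊆ closedBall y r := by
  obtain ⟨r, hr⟩ := hb.subset_closedBall (0 : E d)
  refine ⟨r, fun y z hz => ?_⟩
  have h1 := hr hz
  rw [mem_closedBall, dist_zero_right] at h1
  rw [mem_closedBall, dist_eq_norm]
  exact h1

private theorem VagB_tr_lt {Ω : Set (E d)} (hb : Bornology.IsBounded Ω) (m : Measure (E d))
    [IsLocallyFiniteMeasure m] (y : E d) : m (tr Ω y) < ∞ := by
  obtain ⟨r, hr⟩ := VagB_tr_bdd hb
  exact (measure_mono (hr y)).trans_lt (isCompact_closedBall y r).measure_lt_top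

/-- Fubini. -/
private theorem VagB_fub {g : E d → ℝ} (hg : Continuous g) (hgs : HasCompactSupport g)
    {Ω : Set (E d)} (hm : MeasurableSet Ω) (hb : Bornology.IsBounded Ω) (m : Measure (E d))
    [IsLocallyFiniteMeasure m] :
    ∫ z, VagB_h g Ω z ∂m = ∫ y, g y * m.real (tr Ω y) := by
  have hint : Integrable (Function.uncurry fun z y : E d =>
      g y * Ω.indicator (fun _ => (1 : ℝ)) (z - y)) (m.prod volume) := by
    have hK : IsCompact ((fun p : E d × E d => (p.1 + p.2, p.2)) '' (closure Ω ×ˢ tsupport g)) :=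
      (hb.isCompact_closure.prod hgs).image (by fun_prop)
    set K := (fun p : E d × E d => (p.1 + p.2, p.2)) '' (closure Ω ×ˢ tsupport g) with hKdef
    obtain ⟨M, hM⟩ := hgs.exists_bound_of_continuous hg
    have hmeas : AEStronglyMeasurable (Function.uncurry fun z y : E d =>
        g y * Ω.indicator (fun _ => (1 : ℝ)) (z - y)) (m.prod volume) := by
      have h1 : Measurable fun p : E d × E d => g p.2 := hg.measurable.comp measurable_snd
      have h2 : Measurable fun p : E d × E d => Ω.indicator (fun _ => (1 : ℝ)) (p.1 - p.2) :=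
        (measurable_const.indicator hm).comp (measurable_fst.sub measurable_snd)
      exact (h1.mul h2).aestronglyMeasurable
    have hsub : Function.support (Function.uncurry fun z y : E d =>
        g y * Ω.indicator (fun _ => (1 : ℝ)) (z - y)) ⊆ K := by
      rintro ⟨z, y⟩ hzy
      have h1 : g y * Ω.indicator (fun _ => (1 : ℝ)) (z - y) ≠ 0 := hzy
      have h2 : g y ≠ 0 := left_ne_zero_of_mul h1
      have h3 : z - y ∈ Ω := by
        by_contra h
        exact right_ne_zero_of_mul h1 (Set.indicator_of_notMem h _)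
      exact ⟨(z - y, y), ⟨subset_closure h3, subset_tsupport g h2⟩, by simp⟩
    rw [← integrableOn_iff_integrable_of_support_subset hsub]
    refine Measure.integrableOn_of_bounded (M := M) hK.measure_lt_top.ne hmeas
      (Eventually.of_forall ?_)
    rintro ⟨z, y⟩
    have h1 := hM y
    change ‖g y * Ω.indicator (fun _ => (1 : ℝ)) (z - y)‖ ≤ M
    rw [norm_mul]
    have h2 : ‖Ω.indicator (fun _ => (1 : ℝ)) (z - y)‖ ≤ 1 := by
      by_cases h : z - y ∈ Ω
      · rw [Set.indicator_of_mem h, norm_one]
      · rw [Set.indicator_of_notMem h, norm_zero]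
        exact zero_le_one
    calc ‖g y‖ * ‖Ω.indicator (fun _ => (1 : ℝ)) (z - y)‖ ≤ ‖g y‖ * 1 :=
          mul_le_mul_of_nonneg_left h2 (norm_nonneg _)
      _ ≤ M := by rw [mul_one]; exact h1
  have h1 := integral_integral_swap hint
  unfold VagB_h
  rw [h1]
  refine integral_congr_ae (Eventually.of_forall fun y => ?_)
  change ∫ z, g y * Ω.indicator (fun _ => (1 : ℝ)) (z - y) ∂m = g y * m.real (tr Ω y)
  rw [integral_const_mul]
  congr 1
  have h2 : (fun z => Ω.indicator (fun _ => (1 : ℝ)) (z - y)) = (tr Ω y).indicator 1 := by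
    funext z
    rfl
  rw [h2, integral_indicator_one (measurableSet_tr hm y)]

private theorem VagB_D_cont (F : Finset (E d)) :
    Continuous fun x : E d => ‖∑ l ∈ F, ee l x‖ ^ 2 / (F.card : ℝ) := by
  have h1 : Continuous fun x : E d => ∑ l ∈ F, ee l x :=
    continuous_finsetSum _ fun l _ => Pool.Agent.SpecND.continuous_ee l
  exact (h1.norm.pow 2).div_const _

private theorem VagB_dens {Ω : Set (E d)} (hm : MeasurableSet Ω)
    (hb : Bornology.IsBounded Ω) {Λ : Set (E d)}
    (horth : ∀ l ∈ Λ, ∀ l' ∈ Λ, l ≠ l' → ∫ x in Ω, ee l x * conj (ee l' x) = 0)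
    {F : Finset (E d)} (hF : (F : Set (E d)) ⊆ Λ) (hne : F.Nonempty) {g : E d → ℝ}
    (hg : Continuous g) (hgs : HasCompactSupport g) :
    ∫ x, VagB_h g Ω x * (‖∑ l ∈ F, ee l x‖ ^ 2 / (F.card : ℝ)) =
      ∫ y, g y * volume.real Ω := by
  set D : E d → ℝ := fun x => ‖∑ l ∈ F, ee l x‖ ^ 2 / (F.card : ℝ) with hD
  have hDc : Continuous D := VagB_D_cont F
  have hD0 : ∀ x, 0 ≤ D x := fun x => by
    rw [hD]
    positivity
  have hloc : IsLocallyFiniteMeasure ((volume : Measure (E d)).withDensity
      fun x => ENNReal.ofReal (D x)) := IsLocallyFiniteMeasure.withDensity_ofReal hDc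
  set m : Measure (E d) := (volume : Measure (E d)).withDensity
      fun x => ENNReal.ofReal (D x) with hmdef
  have h1 : ∫ x, VagB_h g Ω x * D x = ∫ x, VagB_h g Ω x ∂m := by
    rw [hmdef, integral_withDensity_eq_integral_toReal_smul
      (hDc.measurable.ennreal_ofReal) (Eventually.of_forall fun x => ENNReal.ofReal_lt_top)]
    refine integral_congr_ae (Eventually.of_forall fun x => ?_)
    change VagB_h g Ω x * D x = (ENNReal.ofReal (D x)).toReal • VagB_h g Ω x
    rw [ENNReal.toReal_ofReal (hD0 x), smul_eq_mul, mul_comm]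
  change ∫ x, VagB_h g Ω x * D x = _
  rw [h1, VagB_fub hg hgs hm hb m]
  refine integral_congr_ae (Eventually.of_forall fun y => ?_)
  change g y * m.real (tr Ω y) = g y * volume.real Ω
  congr 1
  have h2 : m (tr Ω y) = ENNReal.ofReal (∫ z in tr Ω y, D z) := by
    rw [hmdef, withDensity_apply _ (measurableSet_tr hm y)]
    rw [ofReal_integral_eq_lintegral_ofReal]
    · obtain ⟨r, hr⟩ := VagB_tr_bdd hb
      exact (hDc.continuousOn.integrableOn_compact (isCompact_closedBall y r)).mono_set (hr y)
    · exact Eventually.of_forall hD0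
  rw [Measure.real, h2, ENNReal.toReal_ofReal (integral_nonneg hD0)]
  exact mass_tr hm hb horth hF hne y

/-- Proof. Let `V = volume.real Ω`. Let `φ` be a smooth function with compact support and `h z = ∫
y, φ y * (indicator of Ω at z - y)`. The function `h` is continuous (convolution of a continuous
function with compact support with an integrable function,
`HasCompactSupport.continuous_convolution _left` or dominated convergence) and has compact support
(`Ω` is bounded). With `D_k z = ‖∑_{l ∈ F k} ee l z‖ ^ 2 / #(F k)` (continuous, `≥ 0`), Fubini and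
`mass_tr` give `∫ h z * D_k z = ∫ φ y * (∫_{z ∈ tr Ω y} D_k z) = V ∫ φ` for large `k` (`F k` is
nonempty by `rel_dense` as soon as `R k` is large). So `∫ h ∂ν = V ∫ φ`, and by Fubini `∫ h ∂ν = ∫
φ y * ν.real (tr Ω y)` (`ν` is finite on bounded sets and `h` vanishes outside of a bounded set:
replace `ν` by its restriction to a large ball). The function `y ↦ ν.real (tr Ω y) - V` is locally
bounded and measurable and its integral against every smooth `φ` with compact support is `0`, so
it is `0` almost everywhere (`ae_eq_zero_of_integral_contDiff_smul_eq_zero`). Finally `ν (tr Ω y)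
< ∞`. -/
theorem diffraction_tiles {Ω : Set (E d)} (hm : MeasurableSet Ω)
    (hb : Bornology.IsBounded Ω) (hpos : volume Ω ≠ 0) {Λ : Set (E d)} (hs : IsSpectrum Λ Ω)
    {ν : Measure (E d)} (hν : IsDiffraction Λ ν) : ∀ᵐ y, ν (tr Ω y) = volume Ω := by
  obtain ⟨hloc, z, R, F, hR, hF, hlim⟩ := hν
  obtain ⟨T, hT, hdense⟩ := rel_dense hm hb hpos hs
  have hne : ∀ᶠ k in atTop, (F k).Nonempty := by
    filter_upwards [hR.eventually_ge_atTop T] with k hk
    obtain ⟨l, hl, hlz⟩ := hdense (z k)
    refine ⟨l, ?_⟩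
    have h1 : l ∈ (F k : Set (E d)) := by
      rw [hF k]
      exact ⟨hl, mem_closedBall.2 (hlz.le.trans hk)⟩
    exact h1
  have hVlt : volume Ω < ∞ := hb.measure_lt_top
  have hmeas : Measurable fun y : E d => ν (tr Ω y) := by
    have hs' : MeasurableSet {p : E d × E d | p.2 - p.1 ∈ Ω} :=
      (measurable_snd.sub measurable_fst) hm
    exact measurable_measure_prodMk_left hs'
  have hG : LocallyIntegrable (fun y : E d => ν.real (tr Ω y)) volume := by
    rw [locallyIntegrable_iff]
    intro K hK
    obtain ⟨r, hr⟩ := VagB_tr_bdd hb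
    obtain ⟨r', hr'⟩ := hK.isBounded.subset_closedBall (0 : E d)
    have hfin : ν (closedBall (0 : E d) (r' + r)) < ∞ :=
      (isCompact_closedBall _ _).measure_lt_top
    refine Measure.integrableOn_of_bounded (M := ν.real (closedBall (0 : E d) (r' + r)))
      hK.measure_lt_top.ne hmeas.ennreal_toReal.aestronglyMeasurable ?_
    refine (ae_restrict_iff' hK.measurableSet).2 (Eventually.of_forall fun y hy => ?_)
    rw [Real.norm_of_nonneg measureReal_nonneg]
    refine measureReal_mono ?_ hfin.ne
    intro x hx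
    have h1 := hr y hx
    have h2 := hr' hy
    rw [mem_closedBall] at h1 h2 ⊢
    linarith [dist_triangle x y 0]
  have hkey : ∀ᵐ y : E d, ν.real (tr Ω y) = volume.real Ω := by
    refine ae_eq_of_integral_contDiff_smul_eq hG (locallyIntegrable_const _) ?_
    intro g hg hgs
    have hgc : Continuous g := hg.continuous
    have h1 := hlim (VagB_h g Ω) (VagB_h_cont hgc hgs hm) (VagB_h_supp hgs hb)
    have h2 : ∀ᶠ k in atTop, ∫ x, VagB_h g Ω x * (‖∑ l ∈ F k, ee l x‖ ^ 2 / (F k).card) =
        ∫ y, g y * volume.real Ω := by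
      filter_upwards [hne] with k hk
      exact VagB_dens hm hb hs.1 (by rw [hF k]; exact inter_subset_left) hk hgc hgs
    have h3 : Tendsto (fun _ : ℕ => ∫ y, g y * volume.real Ω) atTop
        (𝓝 (∫ x, VagB_h g Ω x ∂ν)) := h1.congr' h2
    have h4 := tendsto_nhds_unique h3 tendsto_const_nhds
    rw [VagB_fub hgc hgs hm hb ν] at h4
    simpa only [smul_eq_mul] using h4
  filter_upwards [hkey] with y hy
  have h1 := VagB_tr_lt hb ν y
  rw [Measure.real, Measure.real] at hy
  exact (ENNReal.toReal_eq_toReal_iff' h1.ne hVlt.ne).1 hy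

end Pool.Agent.SpecAF
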