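import Pool.Agent.Lib.MP_53fa4a_an_AF.FinA
import Pool.Agent.Lib.MP_53fa4a_an_AF.Ineq
import Pool.Agent.Lib.MP_53fa4a_an_AF.Atm
import Pool.Agent.Lib.MP_53fa4a_an_AF.VagB

/-!
# MP_53fa4a_an (project AF): the two main theorems
-/

set_option autoImplicit false

open MeasureTheory Set Filter Metric
open scoped ENNReal Topology ComplexConjugate

namespace Pool.Agent.SpecAF

open Pool.Agent.SpecND (E ee)

variable {d : ℕ}

/-- translates of measures of affine type are of affine type -/
theorem AffineType.translate {ν : Measure (E d)} (h : AffineType ν) (p : E d) :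
    AffineType (Measure.map (fun z => z - p) ν) := by
  obtain ⟨L, κ, t, F, hF, hκ, rfl⟩ := h
  have hmeas : Measurable fun z : E d => z - p := measurable_id.sub_const p
  refine ⟨L, fun n => Measure.map (fun z => z - p) (κ n), fun n => t n - p, F, hF,
    fun n => ?_, ?_⟩
  · have h1 := (hκ n).map hmeas
    unfold AT
    have h2 : Measure.map (fun z : F n => (z : E d) + (t n - p)) volume =
        Measure.map (fun z => z - p)
          (Measure.map (fun z : F n => (z : E d) + t n) volume) := by
      rw [Measure.map_map hmeas (measurable_subtype_coe.add_const (t n))]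
      congr 1
      funext z
      simp only [Function.comp_apply]
      abel
    rw [h2]
    exact h1
  · exact Measure.map_sum hmeas.aemeasurable

/-- A tiling measure of affine type has no atoms. -/
theorem no_atoms_of_affine {Ω : Set (E d)} (hm : MeasurableSet Ω)
    (hb : Bornology.IsBounded Ω) (hpos : volume Ω ≠ 0) (hnd : interior (closure Ω) = ∅)
    {ν : Measure (E d)} (hlf : IsLocallyFiniteMeasure ν) {c : ℝ≥0∞}
    (hc : ∀ᵐ y, ν (tr Ω y) = c) (hν : AffineType ν) (p : E d) : ν {p} = 0 := by
  have hmeas : Measurable fun z : E d => z - p := measurable_id.sub_const p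
  have hlf' : IsLocallyFiniteMeasure (Measure.map (fun z => z - p) ν) := by
    refine ⟨fun x => ⟨closedBall x 1, closedBall_mem_nhds x one_pos, ?_⟩⟩
    rw [Measure.map_apply hmeas measurableSet_closedBall]
    refine lt_of_le_of_lt (measure_mono (t := closedBall (x + p) 1) fun z hz => ?_)
      (isCompact_closedBall (x + p) 1).measure_lt_top
    simp only [mem_preimage, mem_closedBall, dist_eq_norm] at hz ⊢
    rwa [← sub_sub, sub_right_comm]
  have h := no_affine hm hb hpos hnd (ν := Measure.map (fun z => z - p) ν) (c := c) ?_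
    (hν.translate p)
  · rw [Measure.map_apply hmeas (measurableSet_singleton 0)] at h
    have e : (fun z : E d => z - p) ⁻¹' {0} = {p} := by
      ext z
      simp [sub_eq_zero]
    rwa [e] at h
  · have h1 := (measurePreserving_add_right (volume : Measure (E d)) p).quasiMeasurePreserving.ae hc
    filter_upwards [h1] with y hy
    rw [Measure.map_apply hmeas (measurableSet_tr hm y), ← hy]
    congr 1
    ext z
    simp only [mem_preimage, mem_tr]
    rw [sub_sub, add_comm p y]

/-- The diffraction measures of a spectrum of a nowhere dense set. -/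
theorem diffraction_main {Ω : Set (E d)} (hm : MeasurableSet Ω)
    (hb : Bornology.IsBounded Ω) (hpos : volume Ω ≠ 0) (hnd : interior (closure Ω) = ∅)
    {Λ : Set (E d)} (hs : IsSpectrum Λ Ω) {ν : Measure (E d)} (hν : IsDiffraction Λ ν) :
    ¬ AffineType ν ∧ ∀ ν₁ ν₂ ν₃ : Measure (E d), ν = ν₁ + ν₂ + ν₃ →
      (∃ S : Set (E d), S.Countable ∧ ν₁ Sᶜ = 0) → ν₂ {0} = 0 → ν₃ ≪ volume →
        ∀ᵐ x ∂(volume.restrict Ω), volume Ω ≤ ν₂ {z | z + x ∈ closure Ω \ Ω} := by
  have hd : 0 < d := by
    rcases Nat.eq_zero_or_pos d with rfl | h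
    · exfalso
      have h1 : closure Ω = ∅ := by
        by_contra hne
        obtain ⟨x, hx⟩ := nonempty_iff_ne_empty.2 hne
        have h2 : interior (closure Ω) = univ := by
          have : closure Ω = univ := by
            ext y
            simp only [mem_univ, iff_true]
            rwa [Subsingleton.elim y x]
          rw [this, interior_univ]
        rw [hnd] at h2
        have h3 : x ∈ (∅ : Set (E 0)) := by
          rw [h2]
          exact mem_univ x
        exact h3
      have h2 : Ω = ∅ := by
        have := subset_closure (s := Ω)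
        rw [h1] at this
        exact subset_empty_iff.1 this
      rw [h2] at hpos
      simp at hpos
    · exact h
  have hlf := hν.1
  have hat := atom_ge hd hm hb hpos hs hν
  have htile := diffraction_tiles hm hb hpos hs hν
  have hfin : volume Ω ≠ ∞ := hb.measure_lt_top.ne
  constructor
  · intro haff
    have := no_affine hm hb hpos hnd (ν := ν) htile haff
    rw [this] at hat
    exact hpos (le_zero_iff.1 hat)
  · intro ν₁ ν₂ ν₃ hsum ⟨S, hS, hνS⟩ h0 hac
    have hle1 : ν₁ ≤ ν := by
      rw [hsum, add_assoc]
      exact Measure.le_add_right le_rfl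
    have hle2 : ν₂ ≤ ν := by
      rw [hsum]
      exact Measure.le_add_right (Measure.le_add_left le_rfl)
    have hle3 : ν₃ ≤ ν := by
      rw [hsum]
      exact Measure.le_add_left le_rfl
    have hlf1 : IsLocallyFiniteMeasure ν₁ := Measure.isLocallyFiniteMeasure_of_le hle1
    have hlf2 : IsLocallyFiniteMeasure ν₂ := Measure.isLocallyFiniteMeasure_of_le hle2
    have hlf3 : IsLocallyFiniteMeasure ν₃ := Measure.isLocallyFiniteMeasure_of_le hle3
    have htile' : ∀ᵐ y, (ν₁ + ν₂ + ν₃) (tr Ω y) = volume Ω := by rw [← hsum]; exact htile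
    have h := ineq_sc hm hb hnd hS hνS hac htile'
    have h1 : volume Ω ≤ ν₁ {0} := by
      have h3 : ν₃ {0} = 0 := by
        have : Nonempty (Fin d) := ⟨⟨0, hd⟩⟩
        have hnt : Nontrivial (E d) := inferInstance
        exact hac (measure_singleton 0)
      have h4 : ν {0} = ν₁ {0} := by
        rw [hsum, Measure.add_apply, Measure.add_apply, h0, h3, add_zero, add_zero]
      rw [← h4]
      exact hat
    have h5 : ∀ᵐ x : E d, ν₁ (tr Ω (-x)) ≤ ν₂ (tr (closure Ω \ Ω) (-x)) :=
      (Measure.measurePreserving_neg (volume : Measure (E d))).quasiMeasurePreserving.ae h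
    have h6 : ∀ᵐ x ∂(volume.restrict Ω), ν₁ (tr Ω (-x)) ≤ ν₂ (tr (closure Ω \ Ω) (-x)) :=
      ae_restrict_of_ae h5
    filter_upwards [h6, ae_restrict_mem hm] with x hx hxΩ
    have h7 : ν₁ {0} ≤ ν₁ (tr Ω (-x)) := by
      refine measure_mono ?_
      rw [singleton_subset_iff, mem_tr, zero_sub, neg_neg]
      exact hxΩ
    have h8 : tr (closure Ω \ Ω) (-x) = {z | z + x ∈ closure Ω \ Ω} := by
      ext z
      rw [mem_tr, sub_neg_eq_add]
      rfl
    rw [← h8]
    exact h1.trans (h7.trans hx)

end Pool.Agent.SpecAF
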