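import Pool.Agent.Lib.MP_53fa4a_an_AF.Defs

/-!
# MP_53fa4a_an (project AF): geometry of the periodic set
-/

set_option autoImplicit false

open MeasureTheory Set Filter Metric
open scoped ENNReal Topology ComplexConjugate

namespace Pool.Agent.SpecAF

open Pool.Agent.SpecND (E ee)

variable {d : ℕ}

private lemma geo_coord {Ω : Set (E d)} {r : ℝ} (hb : Ω ⊆ closedBall 0 r) {v : E d}
    (hv : v ∈ Ω) (i : Fin d) : |v i| ≤ r := by
  have h := hb hv
  rw [mem_closedBall_zero_iff] at h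
  exact (coord_le_norm v i).trans h

/-- Proof. For almost every `y` the identity `ν (tr Ω (y - lat ρ l)) = c` holds for all `l`
(countably many translates). Let `y ∈ inn ρ r`: there is `l` such that `y' = y - lat ρ l` has `|y'
i| < ρ - r` for all `i`. Claim: `tr (per ρ Ω) y ∩ cube ρ = tr Ω y'`. If `z` is in the left side
then `z - y - lat ρ l' ∈ Ω` for some `l'`, so `|z i - y' i - 2 ρ (l i + l' i)| ≤ r` and `2 ρ |l i
+ l' i| ≤ |z i| + |y' i| + r < 2 ρ`, so `l' = -l` and `z - y' ∈ Ω`. Conversely `z - y' ∈ Ω` gives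
`|z i| ≤ |y' i| + r < ρ` and `z - y - lat ρ (-l) ∈ Ω`. So `Th (per ρ Ω) (ν.restrict (cube ρ)) y =
(ν (tr Ω y')).toReal = c.toReal` (`Measure.restrict_apply'` with `measurableSet_cube`). -/
theorem th_const {Ω : Set (E d)} {r ρ : ℝ} (hr : 0 ≤ r) (hρ : 0 < ρ)
    (hb : Ω ⊆ closedBall 0 r) {ν : Measure (E d)} {c : ℝ≥0∞} (hc : ∀ᵐ y, ν (tr Ω y) = c) :
    ∀ᵐ y, y ∈ inn ρ r → Th (per ρ Ω) (ν.restrict (cube ρ)) y = c.toReal := by
  have h1 : ∀ᵐ y : E d, ∀ l : Fin d → ℤ, ν (tr Ω (y - lat ρ l)) = c := by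
    rw [ae_all_iff]
    intro l
    exact (measurePreserving_sub_right volume (lat ρ l)).quasiMeasurePreserving.ae hc
  filter_upwards [h1] with y hy hin
  obtain ⟨l, hl⟩ := hin
  have hl' : ∀ i, |y i - 2 * ρ * (l i : ℝ)| < ρ - r := hl
  have key : tr (per ρ Ω) y ∩ cube ρ = tr Ω (y - lat ρ l) := by
    ext z
    constructor
    · rintro ⟨⟨l', hz⟩, hzc⟩
      have hll : l' = -l := by
        funext i
        have e1 : |z i - y i - 2 * ρ * (l' i : ℝ)| ≤ r := geo_coord hb hz i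
        have e2 := hl' i
        have e3 : |z i| ≤ ρ := hzc i
        rw [abs_le] at e1 e3
        rw [abs_lt] at e2
        have e4 : 2 * ρ * ((l i + l' i : ℤ) : ℝ) < 2 * ρ * 1 := by
          push_cast
          linarith [e1.1, e1.2, e2.1, e2.2, e3.1, e3.2]
        have e5 : 2 * ρ * (-1) < 2 * ρ * ((l i + l' i : ℤ) : ℝ) := by
          push_cast
          linarith [e1.1, e1.2, e2.1, e2.2, e3.1, e3.2]
        have h2 : (0 : ℝ) < 2 * ρ := by positivity
        have e6 : ((l i + l' i : ℤ) : ℝ) < 1 := lt_of_mul_lt_mul_left e4 h2.le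
        have e7 : (-1 : ℝ) < ((l i + l' i : ℤ) : ℝ) := lt_of_mul_lt_mul_left e5 h2.le
        have e8 : l i + l' i < 1 := by exact_mod_cast e6
        have e9 : -1 < l i + l' i := by exact_mod_cast e7
        rw [Pi.neg_apply]
        omega
      rw [mem_tr]
      have e : z - (y - lat ρ l) = z - y - lat ρ l' := by
        rw [hll, lat_neg]
        abel
      rw [e]
      exact hz
    · intro hz
      rw [mem_tr] at hz
      refine ⟨⟨-l, ?_⟩, fun i => ?_⟩
      · have e : z - (y - lat ρ l) = z - y - lat ρ (-l) := by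
          rw [lat_neg]
          abel
        rwa [e] at hz
      · have e1 : |z i - (y i - 2 * ρ * (l i : ℝ))| ≤ r := geo_coord hb hz i
        have e2 := hl' i
        rw [abs_le] at e1 ⊢
        rw [abs_lt] at e2
        constructor <;> linarith [e1.1, e1.2, e2.1, e2.2]
  rw [Th, Measure.real, Measure.restrict_apply' (measurableSet_cube ρ), key, hy l]

/-- Proof. Suppose `z ∈ tr (per ρ Ω) y'`, i.e. `z - y' - lat ρ l ∈ Ω`, and `z ∈ cube (ρ - s)`.
Then `|(y' + lat ρ l) i| ≤ |z i| + r ≤ ρ - s + r` and `|(y - lat ρ (-l)) i| ≤ ρ - s + r + b < ρ -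
a`, so `y ∈ inn ρ a`, a contradiction. -/
theorem tr_layer {Ω : Set (E d)} {r ρ a b s : ℝ} (hb : Ω ⊆ closedBall 0 r)
    (hs : a + b + r < s) {y y' : E d} (hy : y ∉ inn ρ a) (hyy : dist y' y ≤ b) :
    tr (per ρ Ω) y' ⊆ (cube (ρ - s))ᶜ := by
  rintro z ⟨l, hz⟩ hzc
  apply hy
  refine ⟨-l, fun i => ?_⟩
  have e1 : |z i - y' i - 2 * ρ * (l i : ℝ)| ≤ r := geo_coord hb hz i
  have e2 : |y' i - y i| ≤ b := by
    have h := coord_le_norm (y' - y) i
    rw [← dist_eq_norm] at h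
    exact h.trans hyy
  have e3 : |z i| ≤ ρ - s := hzc i
  have e : (y - lat ρ (-l)) i = y i + 2 * ρ * (l i : ℝ) := by
    rw [lat_neg, sub_neg_eq_add]
    rfl
  rw [e, abs_lt]
  rw [abs_le] at e1 e2 e3
  constructor <;> linarith [e1.1, e1.2, e2.1, e2.2, e3.1, e3.2]

/-- Proof. If `y ∈ inn ρ (r + 1)` with `l` and `dist v y ≤ 1` then `|(v - lat ρ l) i| ≤ |(y - lat
ρ l) i| + 1 < ρ - r`. -/
theorem ball_inn {r ρ : ℝ} {y : E d} (hy : y ∈ inn ρ (r + 1)) :
    closedBall y 1 ⊆ inn ρ r := by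
  intro v hv
  obtain ⟨l, hl⟩ := hy
  refine ⟨l, fun i => ?_⟩
  have e1 : |y i - 2 * ρ * (l i : ℝ)| < ρ - (r + 1) := hl i
  have e2 : |v i - y i| ≤ 1 := by
    have h := coord_le_norm (v - y) i
    rw [← dist_eq_norm] at h
    exact h.trans hv
  change |v i - 2 * ρ * (l i : ℝ)| < ρ - r
  rw [abs_lt] at e1 ⊢
  rw [abs_le] at e2
  constructor <;> linarith [e1.1, e1.2, e2.1, e2.2]

end Pool.Agent.SpecAF
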