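import Pool.Agent.Lib.MP_53fa4a_an_AF.Defs

/-!
# MP_53fa4a_an (project AF): completeness for the function 1_A e_ξ
-/

set_option autoImplicit false

open MeasureTheory Set Filter Metric
open scoped ENNReal Topology ComplexConjugate

namespace Pool.Agent.SpecAF

open Pool.Agent.SpecND (E ee)

variable {d : ℕ}

open Pool.Agent.SpecND (norm_ee continuous_ee trig continuous_trig parseval exists_approx ee_eq)

private lemma Pars_ee (ξ l x : E d) : ee ξ x * conj (ee l x) = conj (ee (l - ξ) x) := by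
  rw [← Complex.conj_conj (ee ξ x), ← map_mul]
  congr 1
  unfold ee
  rw [← Complex.exp_conj, ← Complex.exp_add, inner_sub_left]
  congr 1
  simp only [map_mul, Complex.conj_I, Complex.conj_ofReal, Complex.ofReal_sub, map_ofNat]
  ring

private lemma Pars_trig_sq {Ω : Set (E d)} (hfin : volume Ω ≠ ∞) {Λ : Set (E d)}
    (horth : ∀ l ∈ Λ, ∀ l' ∈ Λ, l ≠ l' → ∫ x in Ω, ee l x * conj (ee l' x) = 0)
    {S : Finset (E d)} (hS : (S : Set (E d)) ⊆ Λ) (c : E d → ℂ)
    (hint : Integrable (fun x => ‖trig S c x‖ ^ 2) (volume.restrict Ω)) :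
    ∫ x in Ω, ‖trig S c x‖ ^ 2 = volume.real Ω * ∑ l ∈ S, ‖c l‖ ^ 2 := by
  have h := parseval hfin horth hS c
  have h1 : ∫⁻ x in Ω, ‖trig S c x‖ₑ ^ 2 = ENNReal.ofReal (∫ x in Ω, ‖trig S c x‖ ^ 2) := by
    rw [ofReal_integral_eq_lintegral_ofReal hint (Eventually.of_forall fun x => by positivity)]
    refine lintegral_congr fun x => ?_
    rw [ENNReal.ofReal_pow (norm_nonneg _), ofReal_norm]
  rw [h1] at h
  exact (ENNReal.ofReal_eq_ofReal_iff (integral_nonneg fun x => by positivity)
    (mul_nonneg measureReal_nonneg (Finset.sum_nonneg fun l _ => by positivity))).1 h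

/-- Proof. Let `f x = ee ξ x` on `A` and `0` elsewhere; `f ∈ L²(Ω)`, `∫_Ω |f|² = |A|` and `∫_Ω f x
* conj (ee l x) = ft A (l - ξ)` (as `ee ξ x * conj (ee l x) = conj (ee (l - ξ) x)` and `A ⊆ Ω`).
By `exists_approx` (`Lib/MP_53fa4a_an/Appr.lean`) there are a finite `S ⊆ Λ` and `c` with `∫_Ω
|trig S c - f|² ≤ ε / |Ω|`. Expanding the square with the orthogonality (`∫_Ω ee l * conj (ee l')
= |Ω|` if `l = l'` and `0` otherwise), `∫_Ω |trig S c - f|² = ∑_{l ∈ S} (|Ω| |c l|² - 2 Re (conj
(c l) * ft A (l - ξ))) + |A| ≥ |A| - ∑_{l ∈ S} |ft A (l - ξ)|² / |Ω|`. Multiply by `|Ω|`. -/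
theorem pars {Ω : Set (E d)} (hm : MeasurableSet Ω) (hb : Bornology.IsBounded Ω)
    (hpos : volume Ω ≠ 0) {Λ : Set (E d)} (hs : IsSpectrum Λ Ω)
    {A : Set (E d)} (hA : MeasurableSet A) (hAΩ : A ⊆ Ω) (ξ : E d) {ε : ℝ} (hε : 0 < ε) :
    ∃ S : Finset (E d), (S : Set (E d)) ⊆ Λ ∧
      volume.real Ω * volume.real A - ε ≤ ∑ l ∈ S, ‖ft A (l - ξ)‖ ^ 2 := by
  have hfin : volume Ω ≠ ∞ := hb.measure_lt_top.ne
  have : IsFiniteMeasure (volume.restrict Ω) :=
    ⟨by rwa [Measure.restrict_apply_univ, lt_top_iff_ne_top]⟩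
  have hV : 0 < volume.real Ω := ENNReal.toReal_pos hpos hfin
  set V := volume.real Ω with hVd
  set f : E d → ℂ := A.indicator (ee ξ) with hf
  have hfm : Measurable f := (continuous_ee ξ).measurable.indicator hA
  have hfb : ∀ x, ‖f x‖ ≤ 1 := by
    intro x
    rw [hf]
    refine (norm_indicator_le_norm_self _ _).trans ?_
    rw [norm_ee]
  have hfL : MemLp f 2 (volume.restrict Ω) :=
    MemLp.of_bound hfm.aestronglyMeasurable 1 (Eventually.of_forall hfb)
  obtain ⟨S, c, hS, hlt⟩ := exists_approx hfin hs.2 hfL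
    (δ := ENNReal.ofReal (Real.sqrt (ε / V))) (ENNReal.ofReal_pos.2 (by positivity))
  refine ⟨S, hS, ?_⟩
  have hbd : ∀ x, ‖trig S c x‖ ≤ ∑ l ∈ S, ‖c l‖ := by
    intro x
    unfold trig
    refine (norm_sum_le _ _).trans (Finset.sum_le_sum fun l _ => ?_)
    rw [norm_mul, norm_ee, mul_one]
  have hTm : Continuous (trig S c) := continuous_trig S c
  have hTL : MemLp (trig S c) 2 (volume.restrict Ω) :=
    MemLp.of_bound hTm.aestronglyMeasurable _ (Eventually.of_forall hbd)
  have hDL : MemLp (fun x => trig S c x - f x) 2 (volume.restrict Ω) := hTL.sub hfL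
  -- the bound for the square integral
  have h1 : ∫ x in Ω, ‖trig S c x - f x‖ ^ 2 < ε / V := by
    have h := hDL.eLpNorm_eq_integral_rpow_norm (by norm_num) (by norm_num)
    rw [h, ENNReal.ofReal_lt_ofReal_iff (by positivity)] at hlt
    have h2 : ∫ x in Ω, ‖trig S c x - f x‖ ^ (2 : ℝ≥0∞).toReal =
        ∫ x in Ω, ‖trig S c x - f x‖ ^ 2 := by
      simp
    rw [h2, ENNReal.toReal_ofNat, Real.sqrt_eq_rpow, one_div] at hlt
    by_contra hcon
    rw [not_lt] at hcon
    have := Real.rpow_le_rpow (by positivity) hcon (show (0 : ℝ) ≤ 2⁻¹ by norm_num)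
    linarith
  -- integrability
  have i1 : Integrable (fun x => ‖trig S c x‖ ^ 2) (volume.restrict Ω) := by
    refine Integrable.of_bound (hTm.norm.pow 2).aestronglyMeasurable
      ((∑ l ∈ S, ‖c l‖) ^ 2) (Eventually.of_forall fun x => ?_)
    rw [Real.norm_eq_abs, abs_of_nonneg (by positivity)]
    exact pow_le_pow_left₀ (norm_nonneg _) (hbd x) 2
  have i2 : Integrable (fun x => ‖f x‖ ^ 2) (volume.restrict Ω) := by
    refine Integrable.of_bound (hfm.norm.pow_const 2).aestronglyMeasurable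
      (1 ^ 2) (Eventually.of_forall fun x => ?_)
    rw [Real.norm_eq_abs, abs_of_nonneg (by positivity)]
    exact pow_le_pow_left₀ (norm_nonneg _) (hfb x) 2
  have i3 : ∀ l, Integrable (fun x => f x * conj (ee l x)) (volume.restrict Ω) := by
    intro l
    refine Integrable.of_bound (hfm.mul
      (Complex.continuous_conj.comp (continuous_ee l)).measurable).aestronglyMeasurable
      1 (Eventually.of_forall fun x => ?_)
    rw [norm_mul, RCLike.norm_conj, norm_ee, mul_one]
    exact hfb x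
  have i4 : ∀ l, Integrable (fun x => (conj (c l) * (f x * conj (ee l x))).re)
      (volume.restrict Ω) := fun l => ((i3 l).const_mul (conj (c l))).re
  -- the Fourier coefficients
  have e1 : ∀ l, ∫ x in Ω, f x * conj (ee l x) = ft A (l - ξ) := by
    intro l
    have e2 : ∀ x, f x * conj (ee l x) = A.indicator (fun x => conj (ee (l - ξ) x)) x := by
      intro x
      rw [hf]
      by_cases hx : x ∈ A
      · rw [indicator_of_mem hx, indicator_of_mem hx, Pars_ee]
      · rw [indicator_of_notMem hx, indicator_of_notMem hx, zero_mul]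
    rw [integral_congr_ae (Eventually.of_forall e2), integral_indicator hA,
      Measure.restrict_restrict hA, inter_eq_left.2 hAΩ]
    rfl
  have e3 : ∀ l, ∫ x in Ω, (conj (c l) * (f x * conj (ee l x))).re =
      (conj (c l) * ft A (l - ξ)).re := by
    intro l
    have h := integral_re ((i3 l).const_mul (conj (c l)))
    simp only [RCLike.re_to_complex] at h
    rw [h, integral_const_mul, e1]
  have e4 : ∫ x in Ω, ‖f x‖ ^ 2 = volume.real A := by
    have e5 : ∀ x, ‖f x‖ ^ 2 = A.indicator (fun _ => (1 : ℝ)) x := by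
      intro x
      rw [hf]
      by_cases hx : x ∈ A
      · rw [indicator_of_mem hx, indicator_of_mem hx, norm_ee, one_pow]
      · rw [indicator_of_notMem hx, indicator_of_notMem hx, norm_zero]
        norm_num
    rw [integral_congr_ae (Eventually.of_forall e5), integral_indicator hA,
      Measure.restrict_restrict hA, inter_eq_left.2 hAΩ]
    simp
  -- the expansion
  have e6 : ∀ x, ‖trig S c x - f x‖ ^ 2 = ‖trig S c x‖ ^ 2 -
      2 * (∑ l ∈ S, (conj (c l) * (f x * conj (ee l x))).re) + ‖f x‖ ^ 2 := by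
    intro x
    rw [← Complex.normSq_eq_norm_sq, ← Complex.normSq_eq_norm_sq, ← Complex.normSq_eq_norm_sq,
      Complex.normSq_sub]
    have e7 : (trig S c x * conj (f x)).re = ∑ l ∈ S, (conj (c l) * (f x * conj (ee l x))).re := by
      have e8 : (trig S c x * conj (f x)).re = (conj (trig S c x) * f x).re := by
        rw [← Complex.conj_re (trig S c x * conj (f x)), map_mul, Complex.conj_conj]
      rw [e8]
      unfold trig
      rw [map_sum, Finset.sum_mul, Complex.re_sum]
      refine Finset.sum_congr rfl fun l _ => ?_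
      rw [map_mul]
      congr 1
      ring
    rw [e7]
    ring
  have i5 : Integrable (fun x => 2 * (∑ l ∈ S, (conj (c l) * (f x * conj (ee l x))).re))
      (volume.restrict Ω) := (integrable_finsetSum _ fun l _ => i4 l).const_mul 2
  have e9 : ∫ x in Ω, ‖trig S c x - f x‖ ^ 2 = V * ∑ l ∈ S, ‖c l‖ ^ 2 -
      2 * ∑ l ∈ S, (conj (c l) * ft A (l - ξ)).re + volume.real A := by
    have i6 : Integrable (fun x => ‖trig S c x‖ ^ 2 -
      2 * (∑ l ∈ S, (conj (c l) * (f x * conj (ee l x))).re)) (volume.restrict Ω) := i1.sub i5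
    rw [integral_congr_ae (Eventually.of_forall e6), integral_add i6 i2,
      integral_sub i1 i5, e4, Pars_trig_sq hfin hs.1 hS c i1, integral_const_mul,
      integral_finsetSum _ fun l _ => i4 l]
    congr 2
    congr 1
    exact Finset.sum_congr rfl fun l _ => e3 l
  have e10 : ∀ l ∈ S, V * (2 * (conj (c l) * ft A (l - ξ)).re) ≤
      V * (V * ‖c l‖ ^ 2) + ‖ft A (l - ξ)‖ ^ 2 := by
    intro l _
    have h2 : (conj (c l) * ft A (l - ξ)).re ≤ ‖c l‖ * ‖ft A (l - ξ)‖ := by
      refine (Complex.re_le_norm _).trans ?_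
      rw [norm_mul, RCLike.norm_conj]
    nlinarith [sq_nonneg (V * ‖c l‖ - ‖ft A (l - ξ)‖), mul_le_mul_of_nonneg_left h2 hV.le]
  have e11 := Finset.sum_le_sum e10
  rw [← Finset.mul_sum, ← Finset.mul_sum, Finset.sum_add_distrib, ← Finset.mul_sum,
    ← Finset.mul_sum] at e11
  rw [e9, lt_div_iff₀ hV] at h1
  nlinarith

end Pool.Agent.SpecAF
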