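import Pool.Agent.Lib.MP_53fa4a_an_AF.TailB
import Pool.Agent.Lib.MP_53fa4a_an_AF.Pars

/-!
# MP_53fa4a_an (project AF): most of the mass comes from the near frequencies
-/

set_option autoImplicit false

open MeasureTheory Set Filter Metric
open scoped ENNReal Topology ComplexConjugate

namespace Pool.Agent.SpecAF

open Pool.Agent.SpecND (E ee)

variable {d : ℕ}

/-- Proof. Take `T` from `tail` for `ε / 2` and `S` from `pars` for `ε / 2`. Then `∑_S ≤ ∑_{l ∈ S,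
dist l ξ < T} + ∑_{l ∈ S, T ≤ dist l ξ} ≤ ∑_F + ε / 2`, since the first set is contained in `F`.
-/
theorem loc_mass {Ω : Set (E d)} (hm : MeasurableSet Ω) (hb : Bornology.IsBounded Ω)
    (hpos : volume Ω ≠ 0) {Λ : Set (E d)} (hs : IsSpectrum Λ Ω)
    {A : Set (E d)} (hA : MeasurableSet A) (hAΩ : A ⊆ Ω) {ε : ℝ} (hε : 0 < ε) :
    ∃ T : ℝ, 0 < T ∧ ∀ ξ : E d, ∀ F : Finset (E d), (∀ l ∈ Λ, dist l ξ < T → l ∈ F) →
      volume.real Ω * volume.real A - ε ≤ ∑ l ∈ F, ‖ft A (l - ξ)‖ ^ 2 := by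
  classical
  obtain ⟨T, hT, h⟩ := tail hm hb hpos hs.1 hA (hb.subset hAΩ) (half_pos hε)
  refine ⟨T, hT, fun ξ F hF => ?_⟩
  obtain ⟨S, hS, hS2⟩ := pars hm hb hpos hs hA hAΩ ξ (half_pos hε)
  have h1 : ∑ l ∈ S with dist l ξ < T, ‖ft A (l - ξ)‖ ^ 2 ≤ ∑ l ∈ F, ‖ft A (l - ξ)‖ ^ 2 := by
    refine Finset.sum_le_sum_of_subset_of_nonneg (fun l hl => ?_) (fun _ _ _ => sq_nonneg _)
    rw [Finset.mem_filter] at hl
    exact hF l (hS hl.1) hl.2
  have h2 : ∑ l ∈ S with ¬ dist l ξ < T, ‖ft A (l - ξ)‖ ^ 2 ≤ ε / 2 := by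
    refine h ξ _ (fun l hl => ?_) (fun l hl => ?_)
    · exact hS (Finset.mem_filter.1 (Finset.mem_coe.1 hl)).1
    · exact not_lt.1 (Finset.mem_filter.1 hl).2
  have h3 := Finset.sum_filter_add_sum_filter_not S (fun l => dist l ξ < T)
    (fun l => ‖ft A (l - ξ)‖ ^ 2)
  linarith

end Pool.Agent.SpecAF
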