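import Pool.Agent.Lib.MP_53fa4a_an_AF.Rest
import Pool.Agent.Lib.MP_53fa4a_an_AF.DfB
import Pool.Agent.Lib.MP_53fa4a_an_AF.DfD
import Pool.Agent.Lib.MP_53fa4a_an_AF.Geo
import Pool.Agent.Lib.MP_53fa4a_an_AF.Low

/-!
# MP_53fa4a_an (project AF): the inequality almost everywhere
-/

set_option autoImplicit false

open MeasureTheory Set Filter Metric
open scoped ENNReal Topology ComplexConjugate

namespace Pool.Agent.SpecAF

open Pool.Agent.SpecND (E ee)

variable {d : ℕ}

private theorem MainA_int {f : E d → ℝ} (hf : BM f) (α : Measure (E d)) [IsFiniteMeasure α]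
    (y : E d) : Integrable (fun z => f (y - z)) α := by
  obtain ⟨h1, c, hc⟩ := hf
  refine Integrable.of_bound
    (h1.comp (measurable_const.sub measurable_id)).aestronglyMeasurable c
    (Eventually.of_forall fun z => ?_)
  rw [Real.norm_eq_abs]
  exact hc _

private theorem MainA_add {f g : E d → ℝ} (hf : BM f) (hg : BM g) (α : Measure (E d))
    [IsFiniteMeasure α] : Av α (fun v => f v + g v) = fun y => Av α f y + Av α g y := by
  funext y
  exact integral_add (MainA_int hf α y) (MainA_int hg α y)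

private theorem MainA_const (α : Measure (E d)) [IsProbabilityMeasure α] (c : ℝ) (y : E d) :
    Av α (fun _ => c) y = c := by
  unfold Av
  rw [integral_const, probReal_univ, one_smul]

private theorem MainA_nonneg {f : E d → ℝ} (hf : ∀ v, 0 ≤ f v) (α : Measure (E d)) (y : E d) :
    0 ≤ Av α f y :=
  integral_nonneg fun _ => hf _

private theorem MainA_layer {P : Set (E d)} (hP : MeasurableSet P) (μ : Measure (E d))
    {Q S : Set (E d)} {v : E d} (h : tr P v ⊆ Sᶜ) :
    Th P (μ.restrict Q) v = Th P (μ.restrict (Q \ S)) v := by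
  unfold Th
  rw [Measure.real, Measure.real, Measure.restrict_apply (measurableSet_tr hP v),
    Measure.restrict_apply (measurableSet_tr hP v)]
  congr 2
  ext z
  constructor
  · rintro ⟨h1, h2⟩
    exact ⟨h1, h2, h h1⟩
  · rintro ⟨h1, h2, _⟩
    exact ⟨h1, h2⟩

/-- Proof. Let `P = per ρ Ω`, `Q = cube ρ`, `Q' = cube ρ \ cube (ρ - (2 r + 3))`, `ν = Measure.sum
κ`, `ν = low κ F V + Measure.sum κ'` (`low_add`). All restrictions to `Q` are finite
(`cube_lt_top`, `low_le`). Put `f_V = Th P ((low κ F V).restrict Q)`, `f' = Th P ((Measure.sum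
κ').restrict Q)`, `f = Th P (ν.restrict Q) = f_V + f'` (`th_add`). Let `F' n = F n` if not `F n ≤
V` and `F' n = ⊤` otherwise; then `F' n ∈ l` (`hl`; `⊤ ∈ L`, not `⊤ ≤ V`), `AT (t n) (F' n) ((κ'
n).restrict Q)` (the zero measure satisfies every `AT`), and `(Measure.sum κ').restrict Q =
Measure.sum fun n => (κ' n).restrict Q`. `rest_small` gives `δ₀`. Let `δ₁` be the least of `δ₀`
and `1 / (l.length + 1)`; let `0 < δ ≤ δ₁`, so that `(l.length + 1) δ ≤ 1`. Write `D = Df (l.map
fun G => bm G δ)`, `D⁺ = Dp (…)`, `A = Av (bm V δ)`; `Th P (μ ∗ bm V δ) = A (Th P μ)` (`th_conv`).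

(1) `|D (A f')| ≤ ε` everywhere (`rest_small` with `β = bm V δ`). (2) By `th_const` `f = c.toReal`
almost everywhere on the set `inn ρ r`, so by `av_ae` `A f = c.toReal` (`= A` of the constant)
almost everywhere on `{y | closedBall y δ ⊆ inn ρ r}`, and by `df_ae` and `df_const` (`l ≠ []`
since `⊤ ∈ l`) `D (A f) = 0` at almost every `y` with `closedBall y ((l.length + 1) δ) ⊆ inn ρ r`,
in particular (by `ball_inn`) at almost every `y ∈ inn ρ (r + 1)`. There `|D (A f_V)| = |D (A f')|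
≤ ε` by linearity (`df_sub`), and the last term of the assertion is nonnegative (`df_le_dp`, it is
at least the absolute value of a difference). (3) If `y ∉ inn ρ (r + 1)`: `|D (A f_V) y| ≤ D⁺ (A
f_V) y` (`df_le_dp`), and for all `v` with `dist v y ≤ 1`, `tr P v ⊆ (cube (ρ - (2 r + 3)))ᶜ` by
`tr_layer` (`a = r + 1`, `b = 1`, `s = 2 r + 3`; `a + b + r = 2 r + 2 < s`), so `f_V v = Th P
((low κ F V).restrict Q') v`. By `av_congr` and `dp_congr` `D⁺ (A f_V) y = D⁺ (A (Th P ((low κ F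
V).restrict Q'))) y`. -/
theorem main_ae {Ω : Set (E d)} (hΩ : MeasurableSet Ω) {r : ℝ} (hr : 0 ≤ r)
    (hb : Ω ⊆ closedBall 0 r) {κ : ℕ → Measure (E d)} {t : ℕ → E d}
    {F : ℕ → Submodule ℝ (E d)} (hκ : ∀ n, AT (t n) (F n) (κ n))
    [IsLocallyFiniteMeasure (Measure.sum κ)] {c : ℝ≥0∞}
    (hc : ∀ᵐ y, Measure.sum κ (tr Ω y) = c) {L : Set (Submodule ℝ (E d))} (hF : ∀ n, F n ∈ L)
    (htop : ⊤ ∈ L) {ρ : ℝ} (hρ : 0 < ρ) {V : Submodule ℝ (E d)} (hV' : V ≠ ⊤)
    {l : List (Submodule ℝ (E d))} (hl : ∀ W, W ∈ l ↔ W ∈ L ∧ ¬ W ≤ V) {ε : ℝ} (hε : 0 < ε) :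
    ∃ δ₁ : ℝ, 0 < δ₁ ∧ ∀ δ : ℝ, 0 < δ → δ ≤ δ₁ → ∀ᵐ y,
      |Df (l.map fun G => bm G δ) (Th (per ρ Ω) ((low κ F V).restrict (cube ρ) ∗ bm V δ)) y| ≤
        ε + Dp (l.map fun G => bm G δ) (Th (per ρ Ω)
          ((low κ F V).restrict (cube ρ \ cube (ρ - (2 * r + 3))) ∗ bm V δ)) y := by
  have hP : MeasurableSet (per ρ Ω) := measurableSet_per hΩ ρ
  obtain ⟨κ', hν, hκ'⟩ := low_add κ F V
  have hQ : Measure.sum κ (cube ρ) < ∞ := cube_lt_top (Measure.sum κ) ρ
  have hQV : low κ F V (cube ρ) < ∞ := lt_of_le_of_lt (low_le κ F V (cube ρ)) hQ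
  have hQ' : Measure.sum κ' (cube ρ) < ∞ := by
    refine lt_of_le_of_lt ?_ hQ
    rw [hν, Measure.add_apply]
    exact le_add_self
  have i1 : IsFiniteMeasure ((Measure.sum κ).restrict (cube ρ)) :=
    ⟨by rw [Measure.restrict_apply_univ]; exact hQ⟩
  have i2 : IsFiniteMeasure ((low κ F V).restrict (cube ρ)) :=
    ⟨by rw [Measure.restrict_apply_univ]; exact hQV⟩
  have i3 : IsFiniteMeasure ((Measure.sum κ').restrict (cube ρ)) :=
    ⟨by rw [Measure.restrict_apply_univ]; exact hQ'⟩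
  have i4 : IsFiniteMeasure ((low κ F V).restrict (cube ρ \ cube (ρ - (2 * r + 3)))) :=
    ⟨by
      rw [Measure.restrict_apply_univ]
      exact lt_of_le_of_lt (measure_mono sdiff_subset) hQV⟩
  -- the directions of the rest
  have hsum : (Measure.sum κ').restrict (cube ρ) =
      Measure.sum fun n => (κ' n).restrict (cube ρ) :=
    Measure.restrict_sum κ' (measurableSet_cube ρ)
  obtain ⟨F', hF'⟩ : ∃ F' : ℕ → Submodule ℝ (E d),
      ∀ n, (F n ≤ V → F' n = ⊤) ∧ (¬ F n ≤ V → F' n = F n) := by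
    classical
    refine ⟨fun n => if F n ≤ V then ⊤ else F n, fun n => ⟨fun h => if_pos h, fun h => if_neg h⟩⟩
  have hF'l : ∀ n, F' n ∈ l := by
    intro n
    rw [hl]
    by_cases h : F n ≤ V
    · rw [(hF' n).1 h]
      exact ⟨htop, fun h' => hV' (top_le_iff.1 h')⟩
    · rw [(hF' n).2 h]
      exact ⟨hF n, h⟩
  have hAT : ∀ n, AT (t n) (F' n) ((κ' n).restrict (cube ρ)) := by
    intro n
    by_cases h : F n ≤ V
    · rw [(hκ' n).1 h, Measure.restrict_zero]
      exact Measure.AbsolutelyContinuous.zero _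
    · rw [(hκ' n).2 h, (hF' n).2 h]
      exact at_restrict (hκ n) _
  have i5 : IsFiniteMeasure (Measure.sum fun n => (κ' n).restrict (cube ρ)) := by
    rw [← hsum]
    exact i3
  obtain ⟨δ₀, hδ₀, hrest⟩ := rest_small hP l hAT hF'l hε
  have hlen : (0 : ℝ) < (l.length : ℝ) + 1 := by positivity
  refine ⟨min δ₀ (1 / ((l.length : ℝ) + 1)), lt_min hδ₀ (by positivity), ?_⟩
  intro δ hδ hδ1
  have hδa : δ ≤ δ₀ := hδ1.trans (min_le_left _ _)
  have hδb : ((l.length : ℝ) + 1) * δ ≤ 1 := by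
    have h1 := mul_le_mul_of_nonneg_left (hδ1.trans (min_le_right _ _)) hlen.le
    rwa [mul_one_div_cancel hlen.ne'] at h1
  have iV : IsProbabilityMeasure (bm V δ) := bm_prob V hδ
  have hprob : ∀ α ∈ l.map (fun G => bm G δ), IsProbabilityMeasure α := by
    intro α hα
    obtain ⟨G, _, rfl⟩ := List.mem_map.1 hα
    exact bm_prob G hδ
  have hne : l.map (fun G => bm G δ) ≠ [] := by
    intro h
    rw [List.map_eq_nil_iff] at h
    have h1 := hF'l 0
    rw [h] at h1
    exact absurd h1 (List.not_mem_nil)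
  -- the functions
  have eV : Th (per ρ Ω) ((low κ F V).restrict (cube ρ) ∗ bm V δ) =
      Av (bm V δ) (Th (per ρ Ω) ((low κ F V).restrict (cube ρ))) :=
    funext fun y => th_conv hP _ _ y
  have eL : Th (per ρ Ω) ((low κ F V).restrict (cube ρ \ cube (ρ - (2 * r + 3))) ∗ bm V δ) =
      Av (bm V δ) (Th (per ρ Ω) ((low κ F V).restrict (cube ρ \ cube (ρ - (2 * r + 3))))) :=
    funext fun y => th_conv hP _ _ y
  have e' : Th (per ρ Ω) ((Measure.sum fun n => (κ' n).restrict (cube ρ)) ∗ bm V δ) =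
      Av (bm V δ) (Th (per ρ Ω) ((Measure.sum κ').restrict (cube ρ))) := by
    rw [← hsum]
    exact funext fun y => th_conv hP _ _ y
  have ef : Th (per ρ Ω) ((Measure.sum κ).restrict (cube ρ)) =
      fun y => Th (per ρ Ω) ((low κ F V).restrict (cube ρ)) y +
        Th (per ρ Ω) ((Measure.sum κ').restrict (cube ρ)) y := by
    funext y
    rw [hν, Measure.restrict_add]
    exact th_add _ _ _ y
  have bV : BM (Th (per ρ Ω) ((low κ F V).restrict (cube ρ))) := bm_th hP _
  have b' : BM (Th (per ρ Ω) ((Measure.sum κ').restrict (cube ρ))) := bm_th hP _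
  have bL : BM (Th (per ρ Ω) ((low κ F V).restrict (cube ρ \ cube (ρ - (2 * r + 3))))) :=
    bm_th hP _
  have eA : Av (bm V δ) (Th (per ρ Ω) ((Measure.sum κ).restrict (cube ρ))) =
      fun y => Av (bm V δ) (Th (per ρ Ω) ((low κ F V).restrict (cube ρ))) y +
        Av (bm V δ) (Th (per ρ Ω) ((Measure.sum κ').restrict (cube ρ))) y := by
    rw [ef]
    exact MainA_add bV b' _
  rw [eV, eL]
  -- almost everywhere in the inner part
  have s1 : ∀ᵐ y, y ∈ inn ρ r →
      Th (per ρ Ω) ((Measure.sum κ).restrict (cube ρ)) y = (fun _ => c.toReal) y :=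
    th_const hr hρ hb hc
  have s2 := av_ae (G := V) hδ s1
  have s3 : ∀ᵐ y, y ∈ {y : E d | closedBall y δ ⊆ inn ρ r} →
      Av (bm V δ) (Th (per ρ Ω) ((Measure.sum κ).restrict (cube ρ))) y =
        (fun _ => c.toReal) y := by
    filter_upwards [s2] with y hy hyU
    rw [hy hyU]
    exact MainA_const _ _ _
  have s4 := df_ae l hδ s3
  filter_upwards [s4] with y hy
  have hnn : 0 ≤ Dp (l.map fun G => bm G δ) (Av (bm V δ)
      (Th (per ρ Ω) ((low κ F V).restrict (cube ρ \ cube (ρ - (2 * r + 3)))))) y :=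
    (abs_nonneg _).trans (df_le_dp hprob (bm_av bL _)
      (fun v => MainA_nonneg (fun v => th_nonneg _ _ v) _ v) y)
  by_cases hin : y ∈ inn ρ (r + 1)
  · have hsub : closedBall y (l.length * δ) ⊆ {y : E d | closedBall y δ ⊆ inn ρ r} := by
      intro v hv w hw
      refine ball_inn hin ?_
      rw [mem_closedBall] at hv hw ⊢
      have h1 := dist_triangle w v y
      linarith
    have h1 := hy hsub
    rw [df_const hprob hne, eA, df_add hprob (bm_av bV _) (bm_av b' _)] at h1
    have h2 := hrest δ hδ hδa (bm V δ) iV y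
    rw [e'] at h2
    have h3 : Df (l.map fun G => bm G δ) (Av (bm V δ)
        (Th (per ρ Ω) ((low κ F V).restrict (cube ρ)))) y =
        -Df (l.map fun G => bm G δ) (Av (bm V δ)
        (Th (per ρ Ω) ((Measure.sum κ').restrict (cube ρ)))) y := by linarith
    rw [h3, abs_neg]
    linarith
  · have h1 := df_le_dp hprob (bm_av bV (bm V δ))
      (fun v => MainA_nonneg (fun v => th_nonneg _ _ v) _ v) y
    have h2 : Dp (l.map fun G => bm G δ) (Av (bm V δ)
        (Th (per ρ Ω) ((low κ F V).restrict (cube ρ)))) y =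
        Dp (l.map fun G => bm G δ) (Av (bm V δ)
        (Th (per ρ Ω) ((low κ F V).restrict (cube ρ \ cube (ρ - (2 * r + 3)))))) y := by
      refine dp_congr l hδ fun v hv => av_congr V fun w hw => MainA_layer hP _ ?_
      refine tr_layer (a := r + 1) (b := 1) hb (by linarith) hin ?_
      have h3 := dist_triangle w v y
      linarith
    rw [h2] at h1
    linarith

end Pool.Agent.SpecAF
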