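import Pool.Agent.Lib.MP_53fa4a_an_AF.Val

/-!
# MP_53fa4a_an (project AF): the mean of a difference: countable sums
-/

set_option autoImplicit false

open MeasureTheory Set Filter Metric
open scoped ENNReal Topology ComplexConjugate

namespace Pool.Agent.SpecAF

open Pool.Agent.SpecND (E ee)

variable {d : ℕ}

/-- Means of a linear operator on a countable sum. -/
private lemma ValS_gen {C X P : Set (E d)} {M : (E d → ℝ) → ℝ} (hM : Mean C X M)
    (hP : MeasurableSet P) {κ : ℕ → Measure (E d)} [IsFiniteMeasure (Measure.sum κ)]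
    {D : (E d → ℝ) → E d → ℝ} (hB : ∀ f, BM f → BM (D f))
    (hadd : ∀ f g, BM f → BM g → ∀ y, D (fun v => f v + g v) y = D f y + D g y) {K b : ℝ}
    (hle : ∀ f, BM f → ∀ c : ℝ, (∀ v, |f v| ≤ c) → ∀ y, |D f y| ≤ K * c)
    (hval : ∀ n, M (D (Th P (κ n))) = (κ n).real univ * b) :
    M (D (Th P (Measure.sum κ))) = (Measure.sum κ).real univ * b := by
  have hfin : ∀ n, IsFiniteMeasure (κ n) := fun n =>
    isFiniteMeasure_of_le (Measure.sum κ) (Measure.le_sum κ n)
  have hb : ∀ n, BM (Th P (κ n)) := fun n => bm_th hP (κ n)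
  have hbs : BM (Th P (Measure.sum κ)) := bm_th hP _
  -- finite sums
  have hfs : ∀ n : ℕ, BM (fun y => ∑ i ∈ Finset.range n, Th P (κ i) y) ∧
      M (D (fun y => ∑ i ∈ Finset.range n, Th P (κ i) y)) =
        (∑ i ∈ Finset.range n, (κ i).real univ) * b := by
    intro n
    induction n with
    | zero =>
      simp only [Finset.range_zero, Finset.sum_empty, zero_mul]
      refine ⟨bm_const 0, ?_⟩
      have h0 : D (fun _ => 0) = fun _ => 0 := by
        funext y
        have := hle (fun _ => 0) (bm_const 0) 0 (fun v => by rw [abs_zero]) y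
        rw [mul_zero] at this
        exact abs_nonpos_iff.1 this
      rw [h0, hM.const 0]
    | succ n ih =>
      simp only [Finset.sum_range_succ]
      refine ⟨ih.1.add (hb n), ?_⟩
      rw [funext (hadd _ _ ih.1 (hb n)), hM.add _ _ (hB _ ih.1) (hB _ (hb n)), ih.2, hval n,
        add_mul]
  have key : ∀ ε : ℝ, 0 < ε →
      |M (D (Th P (Measure.sum κ))) - (Measure.sum κ).real univ * b| ≤ K * ε + ε * |b| := by
    intro ε hε
    obtain ⟨N, hN⟩ := th_sum hP κ hε
    obtain ⟨h1, h2⟩ := hN N le_rfl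
    obtain ⟨h3, h4⟩ := hfs N
    have h5 : ∀ y, D (Th P (Measure.sum κ)) y -
        D (fun y => ∑ i ∈ Finset.range N, Th P (κ i) y) y =
        D (fun v => Th P (Measure.sum κ) v - ∑ i ∈ Finset.range N, Th P (κ i) v) y := by
      intro y
      have h6 := hadd (fun v => Th P (Measure.sum κ) v - ∑ i ∈ Finset.range N, Th P (κ i) v)
        (fun y => ∑ i ∈ Finset.range N, Th P (κ i) y) (hbs.sub h3) h3 y
      simp only [sub_add_cancel] at h6
      have h7 : (fun v => Th P (Measure.sum κ) v) = Th P (Measure.sum κ) := rfl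
      rw [h7] at h6
      linarith
    have h8 : |M (D (Th P (Measure.sum κ))) -
        M (D (fun y => ∑ i ∈ Finset.range N, Th P (κ i) y))| ≤ K * ε := by
      rw [← hM.sub (hB _ hbs) (hB _ h3)]
      refine hM.abs_le ((hB _ hbs).sub (hB _ h3)) (Eventually.of_forall fun y => ?_)
      rw [h5 y]
      exact hle _ (hbs.sub h3) ε h2 y
    have h9 : |(∑ i ∈ Finset.range N, (κ i).real univ) * b -
        (Measure.sum κ).real univ * b| ≤ ε * |b| := by
      rw [← sub_mul, abs_mul, abs_sub_comm]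
      exact mul_le_mul_of_nonneg_right h1 (abs_nonneg b)
    rw [h4] at h8
    refine (abs_sub_le _ _ _).trans (add_le_add h8 h9)
  by_contra hne
  have hpos : 0 < |M (D (Th P (Measure.sum κ))) - (Measure.sum κ).real univ * b| :=
    abs_pos.2 (sub_ne_zero.2 hne)
  have hK : 0 < |K| + |b| + 1 := by positivity
  have h10 := key _ (div_pos hpos hK)
  have h11 := div_mul_cancel₀ |M (D (Th P (Measure.sum κ))) - (Measure.sum κ).real univ * b|
    hK.ne'
  have h12 := div_pos hpos hK
  have h13 := mul_le_mul_of_nonneg_right (le_abs_self K) h12.le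
  nlinarith [h10, h11, h12, h13]

/-- Proof. Each `κ n` is finite. By `mean_df` and additivity the assertion holds for the finite
sums: with `f_n = ∑_{i < n} Th P (κ i)`, `M (Df … f_n) = (∑_{i < n} (κ i).real univ) * cc m l W`
(induction on `n`, `df_add`). By `th_sum` for every `ε > 0` and large `n`, `|Th P (Measure.sum κ)
- f_n| ≤ ε` everywhere, so `|Df … (Th P (Measure.sum κ)) - Df … f_n| ≤ 2 ^ l.length * ε` (`df_sub`
and `df_le`) and the means differ by at most that (`Mean.sub`, `Mean.abs_le`); the total masses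
differ by at most `ε`. Let `ε → 0`. The same for `Dp`. -/
theorem mean_df_sum {C X P : Set (E d)} {M : (E d → ℝ) → ℝ} (hM : Mean C X M)
    (hP : MeasurableSet P) {L : Set (Submodule ℝ (E d))}
    (hsup : ∀ W ∈ L, ∀ W' ∈ L, W ⊔ W' ∈ L) {m : Submodule ℝ (E d) → ℝ}
    (hm : ∀ W ∈ L, ∀ t ∈ X, ∀ κ : Measure (E d), IsFiniteMeasure κ → AT t W κ →
      M (Th P κ) = κ.real univ * m W) {δ : ℝ} (hδ : 0 < δ) (l : List (Submodule ℝ (E d)))
    (hl : ∀ F ∈ l, F ∈ L) {t : ℕ → E d} (ht : ∀ n, t n ∈ X) {W : Submodule ℝ (E d)}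
    (hW : W ∈ L) {κ : ℕ → Measure (E d)} [IsFiniteMeasure (Measure.sum κ)]
    (h : ∀ n, AT (t n) W (κ n)) :
    M (Df (l.map fun F => bm F δ) (Th P (Measure.sum κ))) =
        (Measure.sum κ).real univ * cc m l W ∧
      M (Dp (l.map fun F => bm F δ) (Th P (Measure.sum κ))) =
        (Measure.sum κ).real univ * cp m l W := by
  have hfin : ∀ n, IsFiniteMeasure (κ n) := fun n =>
    isFiniteMeasure_of_le (Measure.sum κ) (Measure.le_sum κ n)
  have hpr : ∀ α ∈ l.map (fun F => bm F δ), IsProbabilityMeasure α := by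
    intro α hα
    obtain ⟨F, _, rfl⟩ := List.mem_map.1 hα
    exact bm_prob F hδ
  exact ⟨ValS_gen hM hP (fun f hf => (bm_df hpr hf).1)
      (fun f g hf hg y => df_add hpr hf hg y)
      (fun f hf c hc y => (df_le hpr hf hc y).1)
      (fun n => (mean_df hM hP hsup hm hδ l hl (ht n) hW (h n)).1),
    ValS_gen hM hP (fun f hf => (bm_df hpr hf).2)
      (fun f g hf hg y => dp_add hpr hf hg y)
      (fun f hf c hc y => (df_le hpr hf hc y).2)
      (fun n => (mean_df hM hP hsup hm hδ l hl (ht n) hW (h n)).2)⟩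

end Pool.Agent.SpecAF
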