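import Pool.Agent.Lib.MP_53fa4a_an_AF.MainA
import Pool.Agent.Lib.MP_53fa4a_an_AF.ValS

/-!
# MP_53fa4a_an (project AF): the main inequality
-/

set_option autoImplicit false

open MeasureTheory Set Filter Metric
open scoped ENNReal Topology ComplexConjugate

namespace Pool.Agent.SpecAF

open Pool.Agent.SpecND (E ee)

variable {d : ℕ}

/-- The convolution of a restriction of `low κ F V` with `bm V δ` as a countable sum. -/
private theorem MainB_low {κ : ℕ → Measure (E d)} {t : ℕ → E d}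
    {F : ℕ → Submodule ℝ (E d)} (hκ : ∀ n, AT (t n) (F n) (κ n))
    [IsLocallyFiniteMeasure (Measure.sum κ)] (V : Submodule ℝ (E d)) {δ : ℝ} (hδ : 0 < δ)
    {ρ : ℝ} {Q : Set (E d)} (hQ : MeasurableSet Q) (hQρ : Q ⊆ cube ρ) :
    ∃ κ' : ℕ → Measure (E d), (∀ n, AT (t n) V (κ' n)) ∧
      (low κ F V).restrict Q ∗ bm V δ = Measure.sum κ' ∧ IsFiniteMeasure (Measure.sum κ') ∧
        (Measure.sum κ').real univ = (low κ F V).real Q := by
  classical
  have hfin : IsFiniteMeasure ((low κ F V).restrict Q) := by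
    refine ⟨?_⟩
    rw [Measure.restrict_apply_univ]
    exact ((measure_mono hQρ).trans (low_le κ F V _)).trans_lt (cube_lt_top _ ρ)
  have hp := bm_prob V hδ
  obtain ⟨κ₁, hκ₁⟩ : ∃ κ₁ : ℕ → Measure (E d),
      κ₁ = fun n => if F n ≤ V then κ n else 0 := ⟨_, rfl⟩
  have hlow : low κ F V = Measure.sum κ₁ := by
    rw [hκ₁]
    unfold low
    congr 1
  have hres : (low κ F V).restrict Q = Measure.sum fun n => (κ₁ n).restrict Q := by
    rw [hlow, Measure.restrict_sum _ hQ]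
  have hfin' : IsFiniteMeasure (Measure.sum fun n => (κ₁ n).restrict Q) := by
    rw [← hres]
    exact hfin
  have hfinn : ∀ n, IsFiniteMeasure ((κ₁ n).restrict Q) := by
    intro n
    refine ⟨?_⟩
    have h1 : (κ₁ n).restrict Q ≤ Measure.sum fun n => (κ₁ n).restrict Q :=
      Measure.le_sum (fun n => (κ₁ n).restrict Q) n
    exact (h1 univ).trans_lt (measure_lt_top _ _)
  have hconv : (low κ F V).restrict Q ∗ bm V δ =
      Measure.sum fun n => (κ₁ n).restrict Q ∗ bm V δ := by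
    rw [hres]
    exact sum_conv (fun n => (κ₁ n).restrict Q) (bm V δ)
  refine ⟨fun n => (κ₁ n).restrict Q ∗ bm V δ, fun n => ?_, hconv, ?_, ?_⟩
  · beta_reduce
    by_cases h : F n ≤ V
    · have h1 : κ₁ n = κ n := by
        rw [hκ₁]
        beta_reduce
        rw [if_pos h]
      have h2 : AT (t n) (F n) ((κ₁ n).restrict Q) := by
        rw [h1]
        exact at_restrict (hκ n) Q
      have hf := hfinn n
      have h3 := at_conv h2 (bm_at V δ)
      rwa [add_zero, sup_eq_right.2 h] at h3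
    · have h1 : κ₁ n = 0 := by
        rw [hκ₁]
        beta_reduce
        rw [if_neg h]
      rw [h1, Measure.restrict_zero, Measure.zero_conv]
      exact Measure.AbsolutelyContinuous.zero _
  · rw [← hconv]
    infer_instance
  · rw [← hconv, conv_univ, probReal_univ (μ := bm V δ), mul_one, Measure.real, Measure.restrict_apply_univ]
    rfl

/-- Proof. For a measurable set `Q` (the cube or the layer) `(low κ F V).restrict Q = Measure.sum
fun n => (if F n ≤ V then κ n else 0).restrict Q` and its convolution with `bm V δ` is the sum of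
the measures `(…).restrict Q ∗ bm V δ` (`sum_conv`), which satisfy `AT (t n) V` (`at_conv` with `F
n ⊔ V = V` if `F n ≤ V`, `at_restrict`, `bm_at`; otherwise the measure is zero), and its total
mass is `(low κ F V).real Q` (`conv_univ`, `bm_prob`). So `mean_df_sum` gives `M (Df …) = (low κ F
V).real (cube ρ) * cc m l V` and `M (Dp …) = (low κ F V).real (layer) * cp m l V`. For `ε > 0`
take `δ = δ₁` from `main_ae`; by `Mean.abs_le_abs` and `mono` `(low κ F V).real (cube ρ) * |cc m l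
V| = |M (Df …)| ≤ M |Df …| ≤ ε + M (Dp …)`. Let `ε → 0`. -/
theorem main_ineq {Ω : Set (E d)} (hΩ : MeasurableSet Ω) {r : ℝ} (hr : 0 ≤ r)
    (hb : Ω ⊆ closedBall 0 r) {κ : ℕ → Measure (E d)} {t : ℕ → E d}
    {F : ℕ → Submodule ℝ (E d)} (hκ : ∀ n, AT (t n) (F n) (κ n))
    [IsLocallyFiniteMeasure (Measure.sum κ)] {c : ℝ≥0∞}
    (hc : ∀ᵐ y, Measure.sum κ (tr Ω y) = c) {L : Set (Submodule ℝ (E d))} (hF : ∀ n, F n ∈ L)
    (hsup : ∀ W ∈ L, ∀ W' ∈ L, W ⊔ W' ∈ L) (htop : ⊤ ∈ L) {C X : Set (E d)}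
    {M : (E d → ℝ) → ℝ} (hM : Mean C X M) (hX : ∀ n, t n ∈ X) {ρ : ℝ} (hρ : 0 < ρ)
    {m : Submodule ℝ (E d) → ℝ}
    (hm : ∀ W ∈ L, ∀ t ∈ X, ∀ κ : Measure (E d), IsFiniteMeasure κ → AT t W κ →
      M (Th (per ρ Ω) κ) = κ.real univ * m W)
    {V : Submodule ℝ (E d)} (hV : V ∈ L) (hV' : V ≠ ⊤)
    {l : List (Submodule ℝ (E d))} (hl : ∀ W, W ∈ l ↔ W ∈ L ∧ ¬ W ≤ V) :
    (low κ F V).real (cube ρ) * |cc m l V| ≤
      (low κ F V).real (cube ρ \ cube (ρ - (2 * r + 3))) * cp m l V := by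
  obtain ⟨Q', hQ'⟩ : ∃ Q' : Set (E d), Q' = cube ρ \ cube (ρ - (2 * r + 3)) := ⟨_, rfl⟩
  have hQm : MeasurableSet Q' := by
    rw [hQ']
    exact (measurableSet_cube ρ).diff (measurableSet_cube _)
  have hQs : Q' ⊆ cube ρ := by
    rw [hQ']
    exact sdiff_subset
  have hP : MeasurableSet (per ρ Ω) := measurableSet_per hΩ ρ
  have hl' : ∀ G ∈ l, G ∈ L := fun G hG => ((hl G).1 hG).1
  rw [← hQ']
  refine le_of_forall_pos_le_add fun ε hε => ?_
  obtain ⟨δ, hδ, hae⟩ := main_ae hΩ hr hb hκ hc hF htop hρ hV' hl hε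
  have hae := hae δ hδ le_rfl
  rw [← hQ'] at hae
  have hprob : ∀ α ∈ l.map fun G => bm G δ, IsProbabilityMeasure α := by
    intro α hα
    obtain ⟨G, -, rfl⟩ := List.mem_map.1 hα
    exact bm_prob G hδ
  obtain ⟨κ₁, h1a, h1b, h1c, h1d⟩ :=
    MainB_low hκ V hδ (measurableSet_cube ρ) (subset_refl (cube ρ))
  obtain ⟨κ₂, h2a, h2b, h2c, h2d⟩ := MainB_low hκ V hδ hQm hQs
  have m1 := (mean_df_sum hM hP hsup hm hδ l hl' hX hV h1a).1
  have m2 := (mean_df_sum hM hP hsup hm hδ l hl' hX hV h2a).2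
  rw [h1b, h2b] at hae
  rw [h1d] at m1
  rw [h2d] at m2
  have b1 := (bm_df hprob (bm_th hP (Measure.sum κ₁))).1
  have b2 := (bm_df hprob (bm_th hP (Measure.sum κ₂))).2
  have i1 := hM.abs_le_abs b1
  have i2 := hM.mono _ _ b1.abs ((bm_const ε).add b2) hae
  have i3 := hM.add _ _ (bm_const ε) b2
  rw [hM.const ε] at i3
  rw [i3, m2] at i2
  rw [m1, abs_mul, abs_of_nonneg measureReal_nonneg] at i1
  linarith

end Pool.Agent.SpecAF
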