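import Pool.Agent.Lib.MP_53fa4a_an_AF.Defs

/-!
# MP_53fa4a_an (project AF): partition into small pieces
-/

set_option autoImplicit false

open MeasureTheory Set Filter Metric
open scoped ENNReal Topology ComplexConjugate

namespace Pool.Agent.SpecAF

open Pool.Agent.SpecND (E ee)

variable {d : ℕ}

/-- Proof. `Ω` is bounded, hence totally bounded: there are finitely many points `x_0, …, x_{n-1}`
with `Ω ⊆ ⋃ ball x_j (δ / 2)`. Put `A j = Ω ∩ ball x_j (δ / 2) minus ⋃_{i < j} ball x_i (δ / 2)`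
(for instance `disjointed`). -/
theorem exists_partition {Ω : Set (E d)} (hm : MeasurableSet Ω) (hb : Bornology.IsBounded Ω)
    {δ : ℝ} (hδ : 0 < δ) :
    ∃ (n : ℕ) (A : Fin n → Set (E d)), (∀ j, MeasurableSet (A j)) ∧
      (∀ i j, i ≠ j → Disjoint (A i) (A j)) ∧ (⋃ j, A j) = Ω ∧
      ∀ j, ∀ x ∈ A j, ∀ y ∈ A j, dist x y ≤ δ := by
  classical
  have htb : TotallyBounded Ω := hb.isCompact_closure.totallyBounded.subset subset_closure
  obtain ⟨t, ht, hcov⟩ := Metric.totallyBounded_iff.1 htb (δ / 2) (half_pos hδ)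
  obtain ⟨n, x, hx⟩ : ∃ (n : ℕ) (x : Fin n → E d), ∀ y ∈ t, ∃ j, x j = y := by
    refine ⟨ht.toFinset.card, fun j => (ht.toFinset.equivFin.symm j : E d), fun y hy => ?_⟩
    refine ⟨ht.toFinset.equivFin ⟨y, ht.mem_toFinset.2 hy⟩, ?_⟩
    exact congrArg Subtype.val (ht.toFinset.equivFin.symm_apply_apply ⟨y, ht.mem_toFinset.2 hy⟩)
  have hcov2 : ∀ y ∈ Ω, ∃ j, y ∈ ball (x j) (δ / 2) := by
    intro y hy
    obtain ⟨z, hz, hyz⟩ := mem_iUnion₂.1 (hcov hy)
    obtain ⟨j, rfl⟩ := hx z hz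
    exact ⟨j, hyz⟩
  refine ⟨n, fun j => (Ω ∩ ball (x j) (δ / 2)) \ ⋃ i : Fin n, ⋃ _ : i < j, ball (x i) (δ / 2),
    fun j => ?_, fun i j hij => ?_, ?_, fun j y hy z hz => ?_⟩
  · exact (hm.inter measurableSet_ball).diff
      (MeasurableSet.iUnion fun i => MeasurableSet.iUnion fun _ => measurableSet_ball)
  · rw [Set.disjoint_left]
    rintro y ⟨⟨_, hy1⟩, hy2⟩ ⟨⟨_, hy3⟩, hy4⟩
    rcases lt_or_gt_of_ne hij with h | h
    · exact hy4 (mem_iUnion₂.2 ⟨i, h, hy1⟩)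
    · exact hy2 (mem_iUnion₂.2 ⟨j, h, hy3⟩)
  · ext y
    constructor
    · intro hy
      obtain ⟨j, hj⟩ := mem_iUnion.1 hy
      exact hj.1.1
    · intro hy
      have hne : (Finset.univ.filter fun j => y ∈ ball (x j) (δ / 2)).Nonempty := by
        obtain ⟨j, hj⟩ := hcov2 y hy
        exact ⟨j, Finset.mem_filter.2 ⟨Finset.mem_univ _, hj⟩⟩
      refine mem_iUnion.2 ⟨Finset.min' _ hne, ⟨hy, ?_⟩, ?_⟩
      · exact (Finset.mem_filter.1 (Finset.min'_mem _ hne)).2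
      · intro h
        obtain ⟨i, hi, hyi⟩ := mem_iUnion₂.1 h
        exact absurd (Finset.min'_le _ i (Finset.mem_filter.2 ⟨Finset.mem_univ _, hyi⟩))
          (not_le.2 hi)
  · have h1 := mem_ball.1 hy.1.2
    have h2 := mem_ball.1 hz.1.2
    have h3 := dist_triangle_right y z (x j)
    linarith

end Pool.Agent.SpecAF
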