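import Pool.Agent.Lib.MP_53fa4a_an_AF.Defs

/-!
# MP_53fa4a_an (project AF): a spectrum is separated
-/

set_option autoImplicit false

open MeasureTheory Set Filter Metric
open scoped ENNReal Topology ComplexConjugate

namespace Pool.Agent.SpecAF

open Pool.Agent.SpecND (E ee)

variable {d : ℕ}

/-- Proof. The function `G η = ∫ x in Ω, ee η x` is continuous (dominated convergence, `|ee| = 1`,
`|Ω| < ∞`) and `G 0 = |Ω| ≠ 0`, so `G η ≠ 0` for `‖η‖ < r₀`. For `l ≠ l'` in `Λ` the product `ee l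
x * conj (ee l' x) = ee (l - l') x`, so `G (l - l') = 0` and `r₀ ≤ ‖l - l'‖`. -/
theorem sep {Ω : Set (E d)} (hm : MeasurableSet Ω) (hb : Bornology.IsBounded Ω)
    (hpos : volume Ω ≠ 0) {Λ : Set (E d)}
    (horth : ∀ l ∈ Λ, ∀ l' ∈ Λ, l ≠ l' → ∫ x in Ω, ee l x * conj (ee l' x) = 0) :
    ∃ r₀ : ℝ, 0 < r₀ ∧ ∀ l ∈ Λ, ∀ l' ∈ Λ, l ≠ l' → r₀ ≤ dist l l' := by
  have hfin : volume Ω ≠ ∞ := hb.measure_lt_top.ne
  have hmeas : IsFiniteMeasure (volume.restrict Ω) :=
    ⟨by rwa [Measure.restrict_apply_univ, lt_top_iff_ne_top]⟩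
  have hcont : Continuous fun η : E d => ∫ x in Ω, ee η x := by
    refine continuous_of_dominated (bound := fun _ => 1)
      (fun η => (Pool.Agent.SpecND.continuous_ee η).aestronglyMeasurable)
      (fun η => Eventually.of_forall fun x => (Pool.Agent.SpecND.norm_ee η x).le)
      (integrable_const 1) (Eventually.of_forall fun x => ?_)
    unfold ee
    exact Complex.continuous_exp.comp (continuous_const.mul
      (Complex.continuous_ofReal.comp (continuous_id.inner continuous_const)))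
  have h0 : (∫ x in Ω, ee (0 : E d) x) ≠ 0 := by
    have h1 : ∀ x, ee (0 : E d) x = 1 := fun x => by simp [ee]
    have h2 : (∫ x in Ω, ee (0 : E d) x) = (volume.real Ω : ℂ) := by
      simp only [h1]
      simp
    rw [h2, Complex.ofReal_ne_zero]
    exact ENNReal.toReal_ne_zero.2 ⟨hpos, hfin⟩
  obtain ⟨r, hr, hball⟩ := Metric.eventually_nhds_iff.1
    (hcont.continuousAt.eventually_ne h0 : ∀ᶠ η in 𝓝 (0 : E d), (∫ x in Ω, ee η x) ≠ 0)
  refine ⟨r, hr, fun l hl l' hl' hne => ?_⟩
  by_contra hcon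
  push Not at hcon
  have h3 : dist (l - l') 0 < r := by
    rwa [dist_zero_right, ← dist_eq_norm]
  apply hball h3
  have h4 : ∀ x, ee (l - l') x = ee l x * conj (ee l' x) := by
    intro x
    have h5 := Pool.Agent.SpecND.ee_neg l' x
    rw [← h5]
    unfold ee
    rw [← Complex.exp_add, inner_sub_left, inner_neg_right]
    congr 1
    push_cast
    ring
  simp only [h4]
  exact horth l hl l' hl' hne

end Pool.Agent.SpecAF
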