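import Pool.Agent.Lib.MP_53fa4a_an_AF.Ratio
import Pool.Agent.Lib.MP_53fa4a_an_AF.Part
import Pool.Agent.Lib.MP_53fa4a_an_AF.Diag
import Pool.Agent.Lib.MP_53fa4a_an_AF.Dense
import Pool.Agent.Lib.MP_53fa4a_an_AF.Sep

/-!
# MP_53fa4a_an (project AF): the mass near the origin
-/

set_option autoImplicit false

open MeasureTheory Set Filter Metric
open scoped ENNReal Topology ComplexConjugate

namespace Pool.Agent.SpecAF

open Pool.Agent.SpecND (E ee)

variable {d : ℕ}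

/-- Proof. Take the partition `A j`, `j < n`, of `exists_partition` for `δ`. Let `V = |Ω| > 0` and
`ε' = ε V / (2 (n + 1))`. For each `j` take `T_j` from `loc_mass` for `A j` and `ε'`, and let `T`
be the largest of them (and at least `1`). Let `R₀` be the number of `ratio` for `T` and `ε / (2 V
+ 1)` (use `sep`, `rel_dense`; `d > 0` is a hypothesis). Let `R ≥ R₀`, `F = Λ ∩ closedBall z R`,
`F' = Λ ∩ closedBall z (R - T)` (a subset of `F`). For `l' ∈ F'` every `l ∈ Λ` with `dist l l' <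
T` is in `F`, so `∑_{l ∈ F} ‖ft (A j) (l - l')‖² ≥ V |A j| - ε'`. Summing over `j` and over `l' ∈
F'` (all terms are nonnegative, `∑ |A j| = V`) the left side of `diag_le` is at least `#F' (V² - n
ε') ≥ #F' (V² - ε V / 2)`. If `V ≤ ε` the assertion is trivial; otherwise `V² - ε V / 2 > 0` and
`#F' ≥ (1 - ε / (2 V + 1)) #F` gives at least `#F (V² - ε V / 2 - V² ε / (2 V + 1)) ≥ #F (V² - ε
V)`. Divide `diag_le` by `V`. -/
theorem mass_lower (hd : 0 < d) {Ω : Set (E d)} (hm : MeasurableSet Ω)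
    (hb : Bornology.IsBounded Ω) (hpos : volume Ω ≠ 0) {Λ : Set (E d)} (hs : IsSpectrum Λ Ω)
    {δ : ℝ} (hδ : 0 < δ) {ε : ℝ} (hε : 0 < ε) :
    ∃ R₀ : ℝ, ∀ R : ℝ, R₀ ≤ R → ∀ z : E d, ∀ F : Finset (E d),
      (F : Set (E d)) = Λ ∩ closedBall z R →
        (volume.real Ω - ε) * (F.card : ℝ) ≤
          ∫ x in closedBall (0 : E d) δ, ‖∑ l ∈ F, ee l x‖ ^ 2 := by
  classical
  obtain ⟨n, A, hA, hdis, hun, hdiam⟩ := exists_partition hm hb hδ
  have hfin : volume Ω ≠ ⊤ := hb.measure_lt_top.ne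
  obtain ⟨V, hV⟩ : ∃ V, V = volume.real Ω := ⟨_, rfl⟩
  have hV0 : 0 < V := by
    rw [hV, measureReal_def]
    exact ENNReal.toReal_pos hpos hfin
  have hAΩ : ∀ j, A j ⊆ Ω := fun j => by
    rw [← hun]
    exact subset_iUnion A j
  have hAsum : ∑ j, volume.real (A j) = V := by
    have h1 : volume Ω = ∑ j, volume (A j) := by
      rw [← hun, measure_iUnion (fun i j hij => hdis i j hij) hA, tsum_fintype]
    rw [hV, measureReal_def, h1, ENNReal.toReal_sum]
    · rfl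
    · exact fun j _ => ((hb.subset (hAΩ j)).measure_lt_top).ne
  have hε' : 0 < ε * V / (2 * (n + 1)) := by positivity
  choose T hT0 hT using fun j => loc_mass hm hb hpos hs (hA j) (hAΩ j) hε'
  have hTs : 0 ≤ ∑ j, T j := Finset.sum_nonneg fun j _ => (hT0 j).le
  have hTj : ∀ j, T j ≤ 1 + ∑ i, T i := fun j => by
    have := Finset.single_le_sum (f := T) (fun i _ => (hT0 i).le) (Finset.mem_univ j)
    linarith
  obtain ⟨r₀, hr₀, hsep⟩ := sep hm hb hpos hs.1
  obtain ⟨T₁, hT₁, hden⟩ := rel_dense hm hb hpos hs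
  have ha0 : 0 < ε / (2 * V + 1) := by positivity
  obtain ⟨R₀, hR₀⟩ := ratio hd hr₀ hsep hT₁ hden (T := 1 + ∑ j, T j) (by linarith) ha0
  refine ⟨R₀, fun R hR z F hF => ?_⟩
  have hF' : ((F.filter fun l => dist l z ≤ R - (1 + ∑ j, T j) : Finset (E d)) : Set (E d)) =
      Λ ∩ closedBall z (R - (1 + ∑ j, T j)) := by
    ext l
    rw [Finset.mem_coe, Finset.mem_filter, mem_inter_iff, mem_closedBall, ← Finset.mem_coe, hF,
      mem_inter_iff, mem_closedBall]
    constructor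
    · rintro ⟨⟨h1, -⟩, h2⟩
      exact ⟨h1, h2⟩
    · rintro ⟨h1, h2⟩
      exact ⟨⟨h1, by linarith⟩, h2⟩
  obtain ⟨hr1, -⟩ := hR₀ R hR z F _ hF hF'
  generalize hG : (F.filter fun l => dist l z ≤ R - (1 + ∑ j, T j)) = G at hr1 hF'
  have hGF : G ⊆ F := by
    rw [← hG]
    exact Finset.filter_subset _ _
  have hdiag := diag_le hm hb hA hdis hun hdiam F
  rw [← hV] at hdiag ⊢
  obtain ⟨J, hJ⟩ : ∃ J, J = ∫ x in closedBall (0 : E d) δ, ‖∑ l ∈ F, ee l x‖ ^ 2 := ⟨_, rfl⟩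
  rw [← hJ] at hdiag ⊢
  have hJ0 : 0 ≤ J := by
    rw [hJ]
    exact integral_nonneg fun x => by positivity
  have hlow : ∀ j, ∀ l' ∈ G, V * volume.real (A j) - ε * V / (2 * (n + 1)) ≤
      ∑ l ∈ F, ‖ft (A j) (l - l')‖ ^ 2 := by
    intro j l' hl'
    rw [hV]
    rw [hV] at hT
    refine hT j l' F fun l hl hd' => ?_
    rw [← Finset.mem_coe, hF]
    refine ⟨hl, ?_⟩
    rw [← Finset.mem_coe, hF', mem_inter_iff, mem_closedBall] at hl'
    rw [mem_closedBall]
    have h1 := dist_triangle l l' z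
    have h2 := hTj j
    linarith [hl'.2]
  have hsum : (G.card : ℝ) * (V ^ 2 - n * (ε * V / (2 * (n + 1)))) ≤
      ∑ j, ∑ l' ∈ F, ∑ l ∈ F, ‖ft (A j) (l - l')‖ ^ 2 := by
    calc (G.card : ℝ) * (V ^ 2 - n * (ε * V / (2 * (n + 1))))
        = ∑ j, ∑ _l' ∈ G, (V * volume.real (A j) - ε * V / (2 * (n + 1))) := by
          simp only [Finset.sum_const, nsmul_eq_mul]
          rw [← Finset.mul_sum, Finset.sum_sub_distrib, ← Finset.mul_sum, hAsum,
            Finset.sum_const, Finset.card_univ, Fintype.card_fin, nsmul_eq_mul]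
          ring
      _ ≤ ∑ j, ∑ l' ∈ G, ∑ l ∈ F, ‖ft (A j) (l - l')‖ ^ 2 :=
          Finset.sum_le_sum fun j _ => Finset.sum_le_sum fun l' hl' => hlow j l' hl'
      _ ≤ ∑ j, ∑ l' ∈ F, ∑ l ∈ F, ‖ft (A j) (l - l')‖ ^ 2 :=
          Finset.sum_le_sum fun j _ => Finset.sum_le_sum_of_subset_of_nonneg hGF
            fun l' _ _ => Finset.sum_nonneg fun l _ => by positivity
  have hnε : (n : ℝ) * (ε * V / (2 * (n + 1))) ≤ ε * V / 2 := by
    have e1 : (n : ℝ) * (ε * V / (2 * (n + 1))) = ε * V / 2 * (n / (n + 1)) := by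
      field_simp
    rw [e1]
    have h1 : (n : ℝ) / (n + 1) ≤ 1 := by
      rw [div_le_one (by positivity)]
      linarith
    exact mul_le_of_le_one_right (by positivity) h1
  have hF0 : (0 : ℝ) ≤ F.card := Nat.cast_nonneg _
  have hG0 : (0 : ℝ) ≤ G.card := Nat.cast_nonneg _
  rcases le_or_gt V ε with hVε | hVε
  · have h1 : (V - ε) * (F.card : ℝ) ≤ 0 := mul_nonpos_of_nonpos_of_nonneg (by linarith) hF0
    linarith
  · obtain ⟨a, ha⟩ : ∃ a, a = ε / (2 * V + 1) := ⟨_, rfl⟩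
    rw [← ha] at hr1 ha0
    have haV : a * V ≤ ε / 2 := by
      have h1 : a * (2 * V + 1) = ε := by
        rw [ha]
        field_simp
      linarith
    have h1 : (G.card : ℝ) * (V ^ 2 - ε * V / 2) ≤ V * J := by
      have h2 : (G.card : ℝ) * (V ^ 2 - ε * V / 2) ≤
          (G.card : ℝ) * (V ^ 2 - n * (ε * V / (2 * (n + 1)))) :=
        mul_le_mul_of_nonneg_left (by linarith) hG0
      linarith
    have h3 : 0 ≤ V ^ 2 - ε * V / 2 := by nlinarith
    have h4 : (1 - a) * (F.card : ℝ) * (V ^ 2 - ε * V / 2) ≤ V * J :=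
      (mul_le_mul_of_nonneg_right hr1 h3).trans h1
    have h5 : V * (V - ε) ≤ (1 - a) * (V ^ 2 - ε * V / 2) := by
      have h6 : a * V * V ≤ ε / 2 * V := mul_le_mul_of_nonneg_right haV hV0.le
      have h7 : 0 ≤ a * (ε * V / 2) := by positivity
      nlinarith
    have h6 : V * ((V - ε) * (F.card : ℝ)) ≤ V * J := by
      have h7 := mul_le_mul_of_nonneg_right h5 hF0
      calc V * ((V - ε) * (F.card : ℝ)) = V * (V - ε) * F.card := by ring
        _ ≤ (1 - a) * (V ^ 2 - ε * V / 2) * F.card := h7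
        _ = (1 - a) * (F.card : ℝ) * (V ^ 2 - ε * V / 2) := by ring
        _ ≤ V * J := h4
    exact le_of_mul_le_mul_left h6 hV0

end Pool.Agent.SpecAF
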