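import Pool.Agent.Lib.MP_53fa4a_an_AF.CntU
import Pool.Agent.Lib.MP_53fa4a_an_AF.CntL

/-!
# MP_53fa4a_an (project AF): the points near the boundary of a large ball are few
-/

set_option autoImplicit false

open MeasureTheory Set Filter Metric
open scoped ENNReal Topology ComplexConjugate

namespace Pool.Agent.SpecAF

open Pool.Agent.SpecND (E ee)

variable {d : ℕ}

/-- Proof. With `C` from `count_annulus` (for `T`) and `c` from `count_ball` (for `T₁`): the
points of `F` which are not in `F'` lie in the annulus, so `#F - #F' ≤ C R ^ (d - 1)`, and `#F ≥ c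
R ^ d`. For `R ≥ C / (c ε)` (and `R ≥ 1`, `R ≥ 2 T₁`) we get `#F - #F' ≤ ε c R ^ d ≤ ε #F` and `#F
> 0`. -/
theorem ratio (hd : 0 < d) {Λ : Set (E d)} {r₀ : ℝ} (hr₀ : 0 < r₀)
    (hsep : ∀ l ∈ Λ, ∀ l' ∈ Λ, l ≠ l' → r₀ ≤ dist l l') {T₁ : ℝ} (hT₁ : 0 < T₁)
    (hden : ∀ ξ : E d, ∃ l ∈ Λ, dist l ξ < T₁) {T : ℝ} (hT : 0 < T) {ε : ℝ} (hε : 0 < ε) :
    ∃ R₀ : ℝ, ∀ R : ℝ, R₀ ≤ R → ∀ z : E d, ∀ F F' : Finset (E d),
      (F : Set (E d)) = Λ ∩ closedBall z R → (F' : Set (E d)) = Λ ∩ closedBall z (R - T) →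
        (1 - ε) * (F.card : ℝ) ≤ (F'.card : ℝ) ∧ 0 < F.card := by
  classical
  obtain ⟨C, hC, h1⟩ := count_annulus hd hr₀ hsep hT
  obtain ⟨c, hc, h2⟩ := count_ball hT₁ hden
  refine ⟨max 1 (max (2 * T₁) (C / (c * ε))), fun R hR z F F' hF hF' => ?_⟩
  have hR1 : 1 ≤ R := (le_max_left _ _).trans hR
  have hR2 : 2 * T₁ ≤ R := (le_max_left _ _).trans ((le_max_right _ _).trans hR)
  have hR3 : C / (c * ε) ≤ R := (le_max_right _ _).trans ((le_max_right _ _).trans hR)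
  have hR0 : 0 < R := by linarith
  have hsub : F' ⊆ F := by
    intro l hl
    have h3 : l ∈ (F' : Set (E d)) := hl
    rw [hF'] at h3
    have h4 : l ∈ (F : Set (E d)) := by
      rw [hF]
      exact ⟨h3.1, closedBall_subset_closedBall (by linarith) h3.2⟩
    exact h4
  have hann : (((F \ F').card : ℕ) : ℝ) ≤ C * R ^ (d - 1) := by
    refine h1 R hR1 z (F \ F') fun l hl => ?_
    obtain ⟨h3, h4⟩ := Finset.mem_sdiff.1 hl
    have h5 : l ∈ (F : Set (E d)) := h3
    rw [hF] at h5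
    refine ⟨h5.1, h5.2, ?_⟩
    by_contra h6
    push Not at h6
    have h7 : l ∈ (F' : Set (E d)) := by
      rw [hF']
      exact ⟨h5.1, h6⟩
    exact h4 h7
  have hcard : ((F \ F').card : ℝ) + F'.card = F.card := by
    exact_mod_cast Finset.card_sdiff_add_card_eq_card hsub
  have hball := h2 R hR2 z F hF
  have h3 : C ≤ c * ε * R := by
    rw [div_le_iff₀ (by positivity)] at hR3
    linarith
  have h4 : C * R ^ (d - 1) ≤ ε * (c * R ^ d) := by
    have h5 : R ^ d = R ^ (d - 1) * R := by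
      rw [← pow_succ, Nat.sub_add_cancel hd]
    rw [h5]
    have h6 := mul_le_mul_of_nonneg_right h3 (pow_nonneg hR0.le (d - 1))
    linarith
  have h5 : ε * (c * R ^ d) ≤ ε * F.card := mul_le_mul_of_nonneg_left hball hε.le
  refine ⟨by linarith, ?_⟩
  have h6 : (0 : ℝ) < F.card := lt_of_lt_of_le (by positivity) hball
  exact_mod_cast h6

end Pool.Agent.SpecAF
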