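import Pool.Agent.Lib.MP_53fa4a_an_AF.Defs

/-!
# MP_53fa4a_an (project AF): small translations
-/

set_option autoImplicit false

open MeasureTheory Set Filter Metric
open scoped ENNReal Topology ComplexConjugate

namespace Pool.Agent.SpecAF

open Pool.Agent.SpecND (E ee)

variable {d : ℕ}

/-- Continuity of the translations in `L¹(W)`. -/
private theorem TV_l1 {W : Submodule ℝ (E d)} {g : W → ℝ} (hg : Integrable g) {ε : ℝ}
    (hε : 0 < ε) : ∃ δ : ℝ, 0 < δ ∧ ∀ e : W, ‖e‖ ≤ δ → ∫ z, |g (z - e) - g z| ≤ ε := by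
  have hg1 : MemLp g 1 volume := memLp_one_iff_integrable.2 hg
  obtain ⟨rt, hrt⟩ : ∃ rt : C(W, C(W, W)), ∀ e z, rt e z = z - e :=
    ⟨(ContinuousMap.mk (fun p : W × W => p.2 - p.1)
      (continuous_snd.sub continuous_fst)).curry, fun _ _ => rfl⟩
  have hmp : ∀ e : W, MeasurePreserving (rt e) volume volume := by
    intro e
    have h1 : (rt e : W → W) = fun z => z - e := funext fun z => hrt e z
    rw [h1]
    exact measurePreserving_sub_right volume e
  have h1 : Continuous fun e : W => Lp.compMeasurePreserving (rt e) (hmp e) (hg1.toLp g) :=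
    continuous_const.compMeasurePreservingLp rt.continuous hmp (by norm_num)
  have h2 : Tendsto (fun e : W => ‖Lp.compMeasurePreserving (rt e) (hmp e) (hg1.toLp g) -
      hg1.toLp g‖) (𝓝 0) (𝓝 0) := by
    have h3 : Lp.compMeasurePreserving (rt 0) (hmp 0) (hg1.toLp g) = hg1.toLp g := by
      rw [Lp.toLp_compMeasurePreserving]
      congr 1
      funext z
      simp [hrt]
    have h4 := (h1.sub continuous_const).norm.tendsto (0 : W)
      (f := fun e : W => ‖Lp.compMeasurePreserving (rt e) (hmp e) (hg1.toLp g) - hg1.toLp g‖)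
    rw [h3] at h4
    simpa using h4
  obtain ⟨δ, hδ, h3⟩ := Metric.eventually_nhds_iff.1 (h2.eventually (gt_mem_nhds hε))
  refine ⟨δ / 2, by positivity, fun e he => ?_⟩
  have h4 := h3 (y := e) (by rw [dist_zero_right]; linarith)
  have hge : MemLp (fun z => g (z - e)) 1 volume := by
    have h5 := hg1.comp_measurePreserving (hmp e)
    have h6 : g ∘ (rt e : W → W) = fun z => g (z - e) := funext fun z => by
      rw [Function.comp_apply, hrt]
    rwa [h6] at h5
  have h5 : Lp.compMeasurePreserving (rt e) (hmp e) (hg1.toLp g) - hg1.toLp g =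
      (hge.sub hg1).toLp _ := by
    rw [Lp.toLp_compMeasurePreserving, MemLp.toLp_sub hge hg1]
    congr 2
    funext z
    rw [Function.comp_apply, hrt]
  rw [h5, Lp.norm_toLp, eLpNorm_one_eq_lintegral_enorm, ← integral_norm_eq_lintegral_enorm
    (hge.sub hg1).aestronglyMeasurable] at h4
  exact h4.le

/-- Proof. Let `ι z = z + t`, `W → E d`, a measurable (closed) embedding, and `μ = map ι volume`,
which is σ-finite. `κ ≪ μ`, so `κ = μ.withDensity f` with `∫⁻ f ∂μ = κ univ < ∞`
(`Measure.withDensity_rnDeriv_eq`); `g = f ∘ ι` is integrable on `W`. For measurable `S`, `κ S =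
∫_W 1_S (ι z) g z`, and `κ {z | z + e ∈ S} = ∫_W 1_S (ι z + e) g z = ∫_W 1_S (ι z) g (z - e)` for
`e ∈ W` (translation invariance on `W`). So the difference is at most `∫_W |g (z - e) - g z| dz`,
which tends to `0` as `e → 0` in `W`: approximate `g` in `L¹` by a continuous function with
compact support (`Integrable.exists_hasCompactSupport_integral_sub_le`), which is uniformly
continuous. -/
theorem at_shift {t : E d} {W : Submodule ℝ (E d)} {κ : Measure (E d)} [IsFiniteMeasure κ]
    (h : AT t W κ) {ε : ℝ} (hε : 0 < ε) :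
    ∃ δ : ℝ, 0 < δ ∧ ∀ e ∈ W, ‖e‖ ≤ δ → ∀ S : Set (E d), MeasurableSet S →
      |κ.real {z | z + e ∈ S} - κ.real S| ≤ ε := by
  obtain ⟨ι, hιdef⟩ : ∃ ι : W → E d, ι = fun z : W => (z : E d) + t := ⟨_, rfl⟩
  have hι : MeasurableEmbedding ι := by
    rw [hιdef]
    exact (Homeomorph.addRight t).measurableEmbedding.comp
      (MeasurableEmbedding.subtype_coe (Submodule.closed_of_finiteDimensional W).measurableSet)
  have hAT : κ ≪ Measure.map ι volume := by
    rw [hιdef]
    exact h
  have hκ0 : κ (range ι)ᶜ = 0 := by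
    refine hAT ?_
    rw [hι.map_apply, preimage_compl, preimage_range, compl_univ, measure_empty]
  have hmap : (κ.comap ι).map ι = κ := by
    rw [hι.map_comap]
    exact Measure.restrict_eq_self_of_ae_mem (mem_ae_iff.2 hκ0)
  obtain ⟨κ', hκ'⟩ : ∃ κ' : Measure W, κ' = κ.comap ι := ⟨_, rfl⟩
  rw [← hκ'] at hmap
  haveI : IsFiniteMeasure κ' := ⟨by
    rw [hκ', hι.comap_apply]
    exact measure_lt_top _ _⟩
  have hac : κ' ≪ volume := by
    intro s hs
    rw [hκ', hι.comap_apply]
    refine hAT ?_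
    rw [hι.map_apply, preimage_image_eq _ hι.injective]
    exact hs
  have hκS : ∀ S : Set (E d), κ.real S = κ'.real (ι ⁻¹' S) := by
    intro S
    rw [Measure.real, Measure.real]
    conv_lhs => rw [← hmap]
    rw [hι.map_apply]
  obtain ⟨g, hg⟩ : ∃ g : W → ℝ, g = fun w => (κ'.rnDeriv volume w).toReal := ⟨_, rfl⟩
  have hgi : Integrable g := by
    rw [hg]
    exact Measure.integrable_toReal_rnDeriv
  have hT : ∀ T : Set W, κ'.real T = ∫ w in T, g w := by
    intro T
    rw [hg]
    exact (Measure.setIntegral_toReal_rnDeriv hac T).symm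
  obtain ⟨δ, hδ, h1⟩ := TV_l1 hgi hε
  refine ⟨δ, hδ, fun e he hed S hS => ?_⟩
  obtain ⟨e', he'⟩ : ∃ e' : W, (e' : E d) = e := ⟨⟨e, he⟩, rfl⟩
  have h2 := h1 e' (by
    rw [Submodule.coe_norm, he']
    exact hed)
  have hTm : MeasurableSet (ι ⁻¹' S) := hι.measurable hS
  have h3 : ι ⁻¹' {z | z + e ∈ S} = {w : W | w + e' ∈ ι ⁻¹' S} := by
    ext w
    simp only [mem_preimage, mem_ofPred_eq, hιdef, Submodule.coe_add, he']
    rw [add_right_comm]
  have hTm' : MeasurableSet {w : W | w + e' ∈ ι ⁻¹' S} := (measurable_id.add_const e') hTm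
  rw [hκS, hκS, h3, hT, hT]
  have h4 : ∫ w in {w : W | w + e' ∈ ι ⁻¹' S}, g w = ∫ w in ι ⁻¹' S, g (w - e') := by
    rw [← integral_indicator hTm', ← integral_indicator hTm]
    rw [← integral_add_right_eq_self (fun w => (ι ⁻¹' S).indicator (fun w => g (w - e')) w) e']
    refine integral_congr_ae (Eventually.of_forall fun w => ?_)
    by_cases hw : w + e' ∈ ι ⁻¹' S
    · have hw' : w ∈ {w : W | w + e' ∈ ι ⁻¹' S} := hw
      simp only [indicator_of_mem hw, indicator_of_mem hw', add_sub_cancel_right]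
    · have hw' : w ∉ {w : W | w + e' ∈ ι ⁻¹' S} := hw
      simp only [indicator_of_notMem hw, indicator_of_notMem hw']
  have hge : Integrable (fun w => g (w - e')) := hgi.comp_sub_right e'
  rw [h4, ← integral_sub hge.integrableOn hgi.integrableOn]
  calc |∫ w in ι ⁻¹' S, (g (w - e') - g w)| ≤ ∫ w in ι ⁻¹' S, |g (w - e') - g w| :=
        abs_integral_le_integral_abs
    _ ≤ ∫ w, |g (w - e') - g w| :=
        setIntegral_le_integral (hge.sub hgi).abs (Eventually.of_forall fun w => abs_nonneg _)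
    _ ≤ ε := h2

end Pool.Agent.SpecAF
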