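import Pool.Agent.Lib.MP_53fa4a_an_AF.DfC
import Pool.Agent.Lib.MP_53fa4a_an_AF.TV
import Pool.Agent.Lib.MP_53fa4a_an_AF.ThB

/-!
# MP_53fa4a_an (project AF): the pieces in the directions of the list
-/

set_option autoImplicit false

open MeasureTheory Set Filter Metric
open scoped ENNReal Topology ComplexConjugate

namespace Pool.Agent.SpecAF

open Pool.Agent.SpecND (E ee)

variable {d : ℕ}

private lemma Rest_int {f : E d → ℝ} (hf : BM f) (α : Measure (E d)) [IsFiniteMeasure α]
    (y : E d) : Integrable (fun z => f (y - z)) α := by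
  obtain ⟨h1, c, hc⟩ := hf
  exact Integrable.of_bound (h1.comp (measurable_const.sub measurable_id)).aestronglyMeasurable c
    (Eventually.of_forall fun z => by rw [Real.norm_eq_abs]; exact hc _)

private lemma Rest_add {f g : E d → ℝ} (hf : BM f) (hg : BM g) (α : Measure (E d))
    [IsFiniteMeasure α] : Av α (fun v => f v + g v) = fun y => Av α f y + Av α g y := by
  funext y
  unfold Av
  exact integral_add (Rest_int hf α y) (Rest_int hg α y)

private lemma Rest_le {f : E d → ℝ} {c : ℝ} (hc : ∀ v, |f v| ≤ c) (α : Measure (E d))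
    [IsProbabilityMeasure α] (y : E d) : |Av α f y| ≤ c := by
  unfold Av
  have h1 := norm_integral_le_of_norm_le_const (μ := α) (f := fun z => f (y - z)) (C := c)
    (Eventually.of_forall fun z => by rw [Real.norm_eq_abs]; exact hc _)
  rw [Real.norm_eq_abs, probReal_univ, mul_one] at h1
  exact h1

private lemma Rest_min (N : ℕ) (δ : ℕ → ℝ) (h : ∀ i, 0 < δ i) :
    ∃ δ₀ : ℝ, 0 < δ₀ ∧ ∀ i < N, δ₀ ≤ δ i := by
  induction N with
  | zero => exact ⟨1, one_pos, fun i hi => absurd hi (Nat.not_lt_zero i)⟩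
  | succ N ih =>
    obtain ⟨δ₀, h1, h2⟩ := ih
    refine ⟨min δ₀ (δ N), lt_min h1 (h N), fun i hi => ?_⟩
    rcases Nat.lt_succ_iff_lt_or_eq.1 hi with h3 | h3
    · exact (min_le_left _ _).trans (h2 i h3)
    · rw [h3]
      exact min_le_right _ _

/-- Proof. Let `q = 2 ^ l.length`. By `th_sum` (with `P`) choose `N` with `|Th P (Measure.sum κ) y
- ∑_{i < N} Th P (κ i) y| ≤ ε / (2 q)` for all `y`. For `i < N` let `δ_i` be the number of
`at_shift` for `κ i` and `ε / (2 q (N + 1))`; `δ₀` is the least of them (and `1`). Let `0 < δ ≤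
δ₀`, `β` a probability measure. `Th P (Measure.sum κ ∗ β) = Av β (Th P (Measure.sum κ))`
(`th_conv`), which differs from the sum of the functions `f_i = Av β (Th P (κ i))`, `i < N`, by at
most `ε / (2 q)`. Each `f_i` satisfies `|f_i (y - e) - f_i y| ≤ ε / (2 q (N + 1))` for `e ∈ F i`,
`‖e‖ ≤ δ` (true for `Th P (κ i)` by `at_shift`: `Th P (κ i) (y - e) = κ_i {z | z + e ∈ tr P y}`;
averages of translates keep the bound), so `|Df … f_i y| ≤ ε / (2 (N + 1))` by `df_modulus` (`F i
∈ l`). Add up with `df_add`, `df_sub`, `df_le`. -/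
theorem rest_small {P : Set (E d)} (hP : MeasurableSet P) (l : List (Submodule ℝ (E d)))
    {κ : ℕ → Measure (E d)} {t : ℕ → E d} {F : ℕ → Submodule ℝ (E d)}
    (hκ : ∀ n, AT (t n) (F n) (κ n)) (hF : ∀ n, F n ∈ l) [IsFiniteMeasure (Measure.sum κ)]
    {ε : ℝ} (hε : 0 < ε) :
    ∃ δ₀ : ℝ, 0 < δ₀ ∧ ∀ δ : ℝ, 0 < δ → δ ≤ δ₀ → ∀ β : Measure (E d),
      IsProbabilityMeasure β → ∀ y,
        |Df (l.map fun G => bm G δ) (Th P (Measure.sum κ ∗ β)) y| ≤ ε := by
  set q : ℝ := 2 ^ l.length with hq
  have hq0 : 0 < q := by positivity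
  obtain ⟨N, hN⟩ := th_sum hP κ (show 0 < ε / (2 * q) by positivity)
  have hN2 := (hN N le_rfl).2
  have hfin : ∀ i, IsFiniteMeasure (κ i) := fun i =>
    isFiniteMeasure_of_le (Measure.sum κ) (Measure.le_sum κ i)
  set ε' : ℝ := ε / (2 * q * (N + 1)) with hε'
  have hε'0 : 0 < ε' := by positivity
  choose δ hδ0 hδ using fun i => at_shift (hκ i) hε'0
  obtain ⟨δ₀, h0, h1⟩ := Rest_min N δ hδ0
  refine ⟨δ₀, h0, fun δ' hδ'0 hδ'1 β hβ y => ?_⟩
  have hL : ∀ α ∈ l.map (fun G => bm G δ'), IsProbabilityMeasure α := by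
    intro α hα
    obtain ⟨G, _, rfl⟩ := List.mem_map.1 hα
    exact bm_prob G hδ'0
  have hlen : (l.map (fun G => bm G δ')).length = l.length := List.length_map _
  -- one piece
  have hone : ∀ i < N, |Df (l.map fun G => bm G δ') (Av β (Th P (κ i))) y| ≤ q * ε' := by
    intro i hi
    have hbm : BM (Th P (κ i)) := bm_th hP (κ i)
    refine df_modulus hδ'0 (hF i) (bm_av hbm β) hε'0.le (fun e he hen y' => ?_) y
    have h2 : Av β (Th P (κ i)) (y' - e) - Av β (Th P (κ i)) y' =
        Av β (fun v => Th P (κ i) (v - e) - Th P (κ i) v) y' := by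
      have h3 : BM fun v => Th P (κ i) (v - e) := by
        have h4 := hbm.shift (-e)
        simpa only [sub_eq_add_neg] using h4
      unfold Av
      rw [← integral_sub (Rest_int hbm β (y' - e)) (Rest_int hbm β y')]
      refine integral_congr_ae (Eventually.of_forall fun z => ?_)
      dsimp only
      rw [sub_right_comm]
    rw [h2]
    refine Rest_le (fun v => ?_) β y'
    have h3 := hδ i e he (hen.trans (hδ'1.trans (h1 i hi))) (tr P v) (measurableSet_tr hP v)
    have h4 : {z | z + e ∈ tr P v} = tr P (v - e) := by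
      ext z
      change z + e - v ∈ P ↔ z - (v - e) ∈ P
      rw [show z + e - v = z - (v - e) by abel]
    rw [h4] at h3
    exact h3
  -- finite sums
  have hsum : ∀ n ≤ N, BM (fun v => ∑ i ∈ Finset.range n, Th P (κ i) v) ∧
      |Df (l.map fun G => bm G δ') (Av β fun v => ∑ i ∈ Finset.range n, Th P (κ i) v) y| ≤
        n * (q * ε') := by
    intro n
    induction n with
    | zero =>
      intro _
      refine ⟨by simpa using bm_const (d := d) 0, ?_⟩
      have h2 : (Av β fun v => ∑ i ∈ Finset.range 0, Th P (κ i) v) = fun _ => 0 := by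
        funext v
        unfold Av
        simp
      rw [h2]
      have h3 := (df_le hL (bm_const 0) (c := 0) (fun v => by simp) y).1
      rw [mul_zero] at h3
      simpa using h3
    | succ n ih =>
      intro hn
      obtain ⟨h2, h3⟩ := ih (by omega)
      have h4 : (fun v => ∑ i ∈ Finset.range (n + 1), Th P (κ i) v) =
          fun v => (∑ i ∈ Finset.range n, Th P (κ i) v) + Th P (κ n) v := by
        funext v
        rw [Finset.sum_range_succ]
      have hbm : BM (Th P (κ n)) := bm_th hP (κ n)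
      rw [h4]
      refine ⟨h2.add hbm, ?_⟩
      rw [Rest_add h2 hbm, df_add hL (bm_av h2 β) (bm_av hbm β)]
      refine (abs_add_le _ _).trans ?_
      have h5 := hone n (by omega)
      push_cast
      linarith
  obtain ⟨h2, h3⟩ := hsum N le_rfl
  have h4 : BM (Th P (Measure.sum κ)) := bm_th hP _
  have h5 : Th P (Measure.sum κ ∗ β) = fun v =>
      Av β (fun v => ∑ i ∈ Finset.range N, Th P (κ i) v) v +
        Av β (fun v => Th P (Measure.sum κ) v - ∑ i ∈ Finset.range N, Th P (κ i) v) v := by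
    rw [← Rest_add h2 (h4.sub h2) β]
    funext v
    rw [th_conv hP]
    congr 1
    funext v
    ring
  rw [h5, df_add hL (bm_av h2 β) (bm_av (h4.sub h2) β)]
  refine (abs_add_le _ _).trans ?_
  have h6 := (df_le hL (bm_av (h4.sub h2) β) (Rest_le hN2 β) y).1
  rw [hlen] at h6
  have h7 : q * (ε / (2 * q)) = ε / 2 := by
    field_simp
  have h8 : (N : ℝ) * (q * ε') ≤ ε / 2 := by
    have h9 : (N : ℝ) * (q * ε') = ε / 2 * (N / (N + 1)) := by
      rw [hε']
      field_simp
    rw [h9]
    have h10 : (N : ℝ) / (N + 1) ≤ 1 := by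
      rw [div_le_one (by positivity)]
      linarith
    nlinarith
  linarith

end Pool.Agent.SpecAF
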