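import Pool.Agent.Lib.MP_53fa4a_an_AF.BesB

/-!
# MP_53fa4a_an (project AF): the tail in one coordinate
-/

set_option autoImplicit false

open MeasureTheory Set Filter Metric
open scoped ENNReal Topology ComplexConjugate

namespace Pool.Agent.SpecAF

open Pool.Agent.SpecND (E ee)

variable {d : ℕ}

private lemma TailA_trans {A : Set (E d)} (hA : MeasurableSet A) (hfin : volume A ≠ ∞) (η w : E d) :
    ∫ x, (A.indicator (fun _ => (1 : ℂ)) x - A.indicator (fun _ => (1 : ℂ)) (x + w)) *
      conj (ee η x) = ft A η * (1 - ee η w) := by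
  have hc : Continuous fun x => conj (ee η x) :=
    Complex.continuous_conj.comp (Pool.Agent.SpecND.continuous_ee η)
  have hi : Integrable (A.indicator fun x => conj (ee η x)) := by
    rw [integrable_indicator_iff hA]
    refine Measure.integrableOn_of_bounded (M := 1) hfin hc.aestronglyMeasurable
      (Eventually.of_forall fun x => ?_)
    rw [RCLike.norm_conj, Pool.Agent.SpecND.norm_ee]
  have h1 : ∀ x, (A.indicator (fun _ => (1 : ℂ)) x - A.indicator (fun _ => (1 : ℂ)) (x + w)) *
      conj (ee η x) = A.indicator (fun x => conj (ee η x)) x -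
        ee η w * A.indicator (fun x => conj (ee η x)) (x + w) := by
    intro x
    have h2 : A.indicator (fun _ => (1 : ℂ)) x * conj (ee η x) =
        A.indicator (fun x => conj (ee η x)) x := by
      by_cases hx : x ∈ A
      · rw [indicator_of_mem hx, indicator_of_mem hx, one_mul]
      · rw [indicator_of_notMem hx, indicator_of_notMem hx, zero_mul]
    have h3 : A.indicator (fun _ => (1 : ℂ)) (x + w) * conj (ee η x) =
        ee η w * A.indicator (fun x => conj (ee η x)) (x + w) := by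
      by_cases hx : x + w ∈ A
      · rw [indicator_of_mem hx, indicator_of_mem hx, one_mul, Pool.Agent.SpecND.ee_add, map_mul,
          ← mul_assoc, Pool.Agent.SpecND.ee_mul_conj, one_mul]
      · rw [indicator_of_notMem hx, indicator_of_notMem hx, zero_mul, mul_zero]
    rw [sub_mul, h2, h3]
  have hi2 : Integrable fun x => A.indicator (fun x => conj (ee η x)) (x + w) :=
    hi.comp_add_right w
  rw [integral_congr_ae (Eventually.of_forall h1), integral_sub hi (hi2.const_mul _),
    integral_const_mul, integral_add_right_eq_self (A.indicator fun x => conj (ee η x)) w,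
    integral_indicator hA]
  unfold ft
  ring

private lemma TailA_memLp {A : Set (E d)} (hA : MeasurableSet A) (hfin : volume A ≠ ∞) (w : E d) :
    MemLp (fun x => A.indicator (fun _ => (1 : ℂ)) x - A.indicator (fun _ => (1 : ℂ)) (x + w)) 2
      volume := by
  have hB : MeasurableSet ((fun x : E d => x + w) ⁻¹' A) := (measurable_id.add_const w) hA
  have hBf : volume ((fun x : E d => x + w) ⁻¹' A) ≠ ∞ := by
    rwa [measure_preimage_add_right]
  have h1 := memLp_indicator_const 2 hA (1 : ℂ) (Or.inr hfin)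
  have h2 := memLp_indicator_const 2 hB (1 : ℂ) (Or.inr hBf)
  exact h1.sub h2

private lemma TailA_norm {A : Set (E d)} (hA : MeasurableSet A) (hfin : volume A ≠ ∞) {w : E d}
    {δ : ℝ} (hδ : 0 ≤ δ)
    (hw : volume A ≤ volume {s | s ∈ A ∧ w + s ∈ A} + ENNReal.ofReal δ) :
    ∫ x, ‖A.indicator (fun _ => (1 : ℂ)) x - A.indicator (fun _ => (1 : ℂ)) (x + w)‖ ^ 2 ≤
      2 * δ := by
  set B : Set (E d) := (fun x : E d => x + w) ⁻¹' A with hBdef
  have hB : MeasurableSet B := (measurable_id.add_const w) hA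
  have hBv : volume B = volume A := measure_preimage_add_right _ _ _
  have hBf : volume B ≠ ∞ := by rwa [hBv]
  have hAB : {s | s ∈ A ∧ w + s ∈ A} = A ∩ B := by
    ext s
    simp only [mem_setOf_eq, mem_inter_iff, hBdef, mem_preimage, add_comm]
  rw [hAB] at hw
  have hABf : volume (A ∩ B) ≠ ∞ := measure_ne_top_of_subset inter_subset_left hfin
  have h1 : ∀ x, ‖A.indicator (fun _ => (1 : ℂ)) x - A.indicator (fun _ => (1 : ℂ)) (x + w)‖ ^ 2 =
      A.indicator (fun _ => (1 : ℝ)) x + B.indicator (fun _ => (1 : ℝ)) x -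
        2 * (A ∩ B).indicator (fun _ => (1 : ℝ)) x := by
    intro x
    by_cases hx : x ∈ A <;> by_cases hy : x + w ∈ A
    · have hy' : x ∈ B := hy
      have hxy : x ∈ A ∩ B := ⟨hx, hy'⟩
      rw [indicator_of_mem hx, indicator_of_mem hy, indicator_of_mem hx, indicator_of_mem hy',
        indicator_of_mem hxy]
      norm_num
    · have hy' : x ∉ B := hy
      have hxy : x ∉ A ∩ B := fun h => hy' h.2
      rw [indicator_of_mem hx, indicator_of_notMem hy, indicator_of_mem hx,
        indicator_of_notMem hy', indicator_of_notMem hxy]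
      norm_num
    · have hy' : x ∈ B := hy
      have hxy : x ∉ A ∩ B := fun h => hx h.1
      rw [indicator_of_notMem hx, indicator_of_mem hy, indicator_of_notMem hx,
        indicator_of_mem hy', indicator_of_notMem hxy]
      norm_num
    · have hy' : x ∉ B := hy
      have hxy : x ∉ A ∩ B := fun h => hx h.1
      rw [indicator_of_notMem hx, indicator_of_notMem hy, indicator_of_notMem hx,
        indicator_of_notMem hy', indicator_of_notMem hxy]
      norm_num
  have hi : ∀ {C : Set (E d)}, MeasurableSet C → volume C ≠ ∞ →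
      Integrable (C.indicator fun _ => (1 : ℝ)) := by
    intro C hC hCf
    rw [integrable_indicator_iff hC]
    exact integrableOn_const hCf
  have hv : ∀ {C : Set (E d)}, MeasurableSet C →
      ∫ x, C.indicator (fun _ => (1 : ℝ)) x = volume.real C := by
    intro C hC
    rw [integral_indicator hC, setIntegral_const, smul_eq_mul, mul_one]
  have hadd : Integrable fun x => A.indicator (fun _ => (1 : ℝ)) x +
      B.indicator (fun _ => (1 : ℝ)) x := (hi hA hfin).add (hi hB hBf)
  rw [integral_congr_ae (Eventually.of_forall h1), integral_sub hadd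
    ((hi (hA.inter hB) hABf).const_mul 2), integral_add (hi hA hfin) (hi hB hBf),
    integral_const_mul, hv hA, hv hB, hv (hA.inter hB)]
  have h2 : volume.real B = volume.real A := by
    unfold Measure.real
    rw [hBv]
  have h3 : volume.real A ≤ volume.real (A ∩ B) + δ := by
    unfold Measure.real
    have h4 := ENNReal.toReal_mono (ENNReal.add_ne_top.2 ⟨hABf, ENNReal.ofReal_ne_top⟩) hw
    rwa [ENNReal.toReal_add hABf ENNReal.ofReal_ne_top, ENNReal.toReal_ofReal hδ] at h4
  rw [h2]
  linarith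

private lemma TailA_cos (η : E d) (i : Fin d) (s : ℝ) :
    ‖1 - ee η (EuclideanSpace.single i s)‖ ^ 2 = 2 - 2 * Real.cos (2 * Real.pi * η i * s) := by
  rw [Pool.Agent.SpecND.ee_eq, EuclideanSpace.inner_single_right, ← Complex.normSq_eq_norm_sq,
    Complex.normSq_apply, Complex.sub_re, Complex.sub_im, Complex.exp_ofReal_mul_I_re,
    Complex.exp_ofReal_mul_I_im, Complex.one_re, Complex.one_im]
  have h1 : 2 * Real.pi * (s * (starRingEnd ℝ) (η i)) = 2 * Real.pi * η i * s := by
    rw [conj_trivial]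
    ring
  rw [h1]
  have h2 := Real.sin_sq_add_cos_sq (2 * Real.pi * η i * s)
  nlinarith

private lemma TailA_int {u s₀ : ℝ} (hs : 0 < s₀) (hu : 1 / s₀ ≤ |u|) :
    s₀ ≤ ∫ s in (0 : ℝ)..s₀, (2 - 2 * Real.cos (2 * Real.pi * u * s)) := by
  have hu0 : 0 < |u| := (by positivity : (0 : ℝ) < 1 / s₀).trans_le hu
  have hu1 : u ≠ 0 := abs_pos.1 hu0
  have hc : 2 * Real.pi * u ≠ 0 := mul_ne_zero (mul_ne_zero two_ne_zero Real.pi_ne_zero) hu1
  have h1 : ∫ s in (0 : ℝ)..s₀, Real.cos (2 * Real.pi * u * s) =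
      (2 * Real.pi * u)⁻¹ * Real.sin (2 * Real.pi * u * s₀) := by
    rw [intervalIntegral.integral_comp_mul_left (fun x => Real.cos x) hc, integral_cos, mul_zero,
      Real.sin_zero, sub_zero, smul_eq_mul]
  rw [intervalIntegral.integral_sub intervalIntegrable_const (Continuous.intervalIntegrable (by fun_prop) _ _),
    intervalIntegral.integral_const, intervalIntegral.integral_const_mul, h1, smul_eq_mul,
    sub_zero]
  have h2 : |(2 * Real.pi * u)⁻¹ * Real.sin (2 * Real.pi * u * s₀)| ≤ s₀ / 2 := by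
    rw [abs_mul, abs_inv, abs_mul, abs_of_pos (by positivity : (0 : ℝ) < 2 * Real.pi)]
    have h3 : |Real.sin (2 * Real.pi * u * s₀)| ≤ 1 := Real.abs_sin_le_one _
    have h4 : (2 * Real.pi * |u|)⁻¹ ≤ s₀ / 2 := by
      have h5 : 1 ≤ |u| * s₀ := by
        rw [div_le_iff₀ hs] at hu
        exact hu
      rw [inv_le_comm₀ (by positivity) (by positivity)]
      have h6 : (s₀ / 2)⁻¹ = 2 / s₀ := by rw [inv_div]
      rw [h6, div_le_iff₀ hs]
      have h7 := Real.pi_gt_three
      nlinarith
    calc (2 * Real.pi * |u|)⁻¹ * |Real.sin (2 * Real.pi * u * s₀)| ≤ (2 * Real.pi * |u|)⁻¹ * 1 :=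
          mul_le_mul_of_nonneg_left h3 (by positivity)
      _ ≤ s₀ / 2 := by rw [mul_one]; exact h4
  have h5 := (abs_le.1 h2).2
  linarith

/-- Proof. Let `A ⊆ closedBall 0 ρ`, `B` from `bessel` for `ρ + 1`. For a vector `v`, `‖v‖ ≤ 1`,
let `h = 1_A - 1_{A + v}`; it is supported in `closedBall 0 (ρ + 1)` and `∫ h x * conj (ee η x) =
ft A η * (1 - conj (ee η v))`, and `∫ |h|² = |A Δ (A + v)|`, which tends to `0` as `v → 0` (see
`small_shift` in `Lib/MP_53fa4a_an/Trans.lean`, or the continuity of translations in `L¹`). Choose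
`s₀ ≤ 1` such that `B ∫ |h|² ≤ ε` for `‖v‖ ≤ s₀`. Apply `bessel` with `v = s e_i` (`e_i` the
`i`-th unit vector), `0 ≤ s ≤ s₀`: `∑_{l ∈ F} ‖ft A (l - ξ)‖² ‖1 - conj (ee (l - ξ) (s e_i))‖² ≤
ε`. Integrate over `s ∈ [0, s₀]` and divide by `s₀`. As `‖1 - exp (-2 π i s u)‖² = 2 - 2 cos (2 π
s u)`, the mean value is `2 - 2 sin (2 π s₀ u) / (2 π s₀ u) ≥ 2 - 1 / π ≥ 1` if `s₀ |u| ≥ 1`, `u =
(l - ξ) i`. So the assertion holds with `T = 1 / s₀`. -/
theorem tail_coord {Ω : Set (E d)} (hm : MeasurableSet Ω) (hb : Bornology.IsBounded Ω)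
    (hpos : volume Ω ≠ 0) {Λ : Set (E d)}
    (horth : ∀ l ∈ Λ, ∀ l' ∈ Λ, l ≠ l' → ∫ x in Ω, ee l x * conj (ee l' x) = 0)
    {A : Set (E d)} (hA : MeasurableSet A) (hAb : Bornology.IsBounded A) (i : Fin d)
    {ε : ℝ} (hε : 0 < ε) :
    ∃ T : ℝ, 0 < T ∧ ∀ ξ : E d, ∀ F : Finset (E d), (F : Set (E d)) ⊆ Λ →
      (∀ l ∈ F, T ≤ |(l - ξ) i|) → ∑ l ∈ F, ‖ft A (l - ξ)‖ ^ 2 ≤ ε := by
  obtain ⟨ρ, hρ⟩ := hAb.subset_closedBall (0 : E d)
  have hfin : volume A ≠ ∞ := hAb.measure_lt_top.ne
  obtain ⟨B, hB0, hB⟩ := bessel hm hb hpos horth (ρ + 1)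
  obtain ⟨δ, hδdef⟩ : ∃ δ : ℝ, δ = ε / (2 * B) := ⟨_, rfl⟩
  have hδ : 0 < δ := by rw [hδdef]; positivity
  obtain ⟨r, hr, hsh⟩ := Pool.Agent.SpecND.small_shift hA hfin
    (η := ENNReal.ofReal δ) (by simpa using hδ)
  obtain ⟨s₀, hs₀def⟩ : ∃ s₀ : ℝ, s₀ = min 1 (r / 2) := ⟨_, rfl⟩
  have hs₀ : 0 < s₀ := by rw [hs₀def]; exact lt_min one_pos (by positivity)
  have hs₁ : s₀ ≤ 1 := by rw [hs₀def]; exact min_le_left _ _
  have hs₂ : s₀ < r := by
    rw [hs₀def]
    exact (min_le_right _ _).trans_lt (by linarith)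
  refine ⟨1 / s₀, by positivity, fun ξ F hF hT => ?_⟩
  -- the bound for one shift
  have hkey : ∀ s ∈ Icc (0 : ℝ) s₀, ∑ l ∈ F, ‖ft A (l - ξ)‖ ^ 2 *
      (2 - 2 * Real.cos (2 * Real.pi * (l - ξ) i * s)) ≤ ε := by
    intro s hs
    have hwn : ‖(EuclideanSpace.single i s : E d)‖ = s := by
      rw [EuclideanSpace.norm_single, Real.norm_of_nonneg hs.1]
    have h1 := hB F hF ξ
      (fun x => A.indicator (fun _ => (1 : ℂ)) x -
        A.indicator (fun _ => (1 : ℂ)) (x + EuclideanSpace.single i s))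
      (TailA_memLp hA hfin _) (fun x hx => by
        have hxA : x ∉ A := fun h => by
          have := hρ h
          rw [mem_closedBall_zero_iff] at this
          linarith
        have hyA : x + EuclideanSpace.single i s ∉ A := fun h => by
          have h3 := hρ h
          rw [mem_closedBall_zero_iff] at h3
          have h4 : ‖x‖ ≤ ‖x + EuclideanSpace.single i s‖ + ‖(EuclideanSpace.single i s : E d)‖ := by
            have := norm_sub_le (x + EuclideanSpace.single i s) (EuclideanSpace.single i s)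
            rwa [add_sub_cancel_right] at this
          rw [hwn] at h4
          linarith [hs.2]
        rw [indicator_of_notMem hxA, indicator_of_notMem hyA, sub_zero])
    have h2 := TailA_norm hA hfin (w := EuclideanSpace.single i s) hδ.le
      (hsh _ (by rw [hwn]; exact hs.2.trans_lt hs₂))
    have h3 : B * (2 * δ) = ε := by
      rw [hδdef]
      field_simp
    refine le_trans (le_of_eq (Finset.sum_congr rfl fun l _ => ?_))
      (h1.trans ((mul_le_mul_of_nonneg_left h2 hB0.le).trans_eq h3))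
    rw [TailA_trans hA hfin, norm_mul, mul_pow, TailA_cos]
  -- integrate
  have hcont : ∀ l : E d, Continuous fun s : ℝ => ‖ft A (l - ξ)‖ ^ 2 *
      (2 - 2 * Real.cos (2 * Real.pi * (l - ξ) i * s)) := fun l => by fun_prop
  have h1 : ∫ s in (0 : ℝ)..s₀, ∑ l ∈ F, ‖ft A (l - ξ)‖ ^ 2 *
      (2 - 2 * Real.cos (2 * Real.pi * (l - ξ) i * s)) ≤ s₀ * ε := by
    have h2 := intervalIntegral.integral_mono_on hs₀.le
      (Continuous.intervalIntegrable (continuous_finsetSum F fun l _ => hcont l) 0 s₀)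
      (intervalIntegrable_const : IntervalIntegrable (fun _ => ε) volume 0 s₀) hkey
    rwa [intervalIntegral.integral_const, sub_zero, smul_eq_mul] at h2
  rw [intervalIntegral.integral_finsetSum fun l _ => (hcont l).intervalIntegrable 0 s₀] at h1
  have h2 : s₀ * ∑ l ∈ F, ‖ft A (l - ξ)‖ ^ 2 ≤ s₀ * ε := by
    refine le_trans ?_ h1
    rw [Finset.mul_sum]
    refine Finset.sum_le_sum fun l hl => ?_
    rw [intervalIntegral.integral_const_mul, mul_comm s₀]
    exact mul_le_mul_of_nonneg_left (TailA_int hs₀ (hT l hl)) (sq_nonneg _)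
  exact le_of_mul_le_mul_left h2 hs₀

end Pool.Agent.SpecAF
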