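import Pool.Agent.Lib.MP_53fa4a_an_AF.TailA
import Pool.Agent.Lib.MP_53fa4a_an.Cover

/-!
# MP_53fa4a_an (project AF): the tail
-/

set_option autoImplicit false

open MeasureTheory Set Filter Metric
open scoped ENNReal Topology ComplexConjugate

namespace Pool.Agent.SpecAF

open Pool.Agent.SpecND (E ee)

variable {d : ℕ}

/-- Proof. Apply `tail_coord` for every coordinate `i` with `ε / (d + 1)` and let `T` be `d + 1`
times the largest of the numbers `T_i` (at least `1`). If `T ≤ dist l ξ = ‖l - ξ‖` then some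
coordinate satisfies `T_i ≤ |(l - ξ) i|` (`‖v‖ ≤ (d + 1) * max |v i|`, see `norm_le_of_coord` in
`Lib/MP_53fa4a_an/Cover.lean`). So the sum over `F` is at most the sum over `i` of the sums over
the `l ∈ F` with `T_i ≤ |(l - ξ) i|`. For `d = 0` there is no `l` with `0 < dist l ξ`. -/
theorem tail {Ω : Set (E d)} (hm : MeasurableSet Ω) (hb : Bornology.IsBounded Ω)
    (hpos : volume Ω ≠ 0) {Λ : Set (E d)}
    (horth : ∀ l ∈ Λ, ∀ l' ∈ Λ, l ≠ l' → ∫ x in Ω, ee l x * conj (ee l' x) = 0)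
    {A : Set (E d)} (hA : MeasurableSet A) (hAb : Bornology.IsBounded A)
    {ε : ℝ} (hε : 0 < ε) :
    ∃ T : ℝ, 0 < T ∧ ∀ ξ : E d, ∀ F : Finset (E d), (F : Set (E d)) ⊆ Λ →
      (∀ l ∈ F, T ≤ dist l ξ) → ∑ l ∈ F, ‖ft A (l - ξ)‖ ^ 2 ≤ ε := by
  classical
  have hd : (0 : ℝ) < (d : ℝ) + 1 := by positivity
  choose T hT0 hT using fun i : Fin d =>
    tail_coord hm hb hpos horth hA hAb i (ε := ε / (d + 1)) (div_pos hε hd)
  have hsum : 0 ≤ ∑ i, T i := Finset.sum_nonneg fun i _ => (hT0 i).le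
  have hle : ∀ i, T i ≤ ∑ i, T i := fun i =>
    Finset.single_le_sum (f := T) (fun j _ => (hT0 j).le) (Finset.mem_univ i)
  refine ⟨(d + 1) * (∑ i, T i + 1), by positivity, fun ξ F hF hdist => ?_⟩
  have hex : ∀ l ∈ F, ∃ i, T i ≤ |(l - ξ) i| := by
    intro l hl
    by_contra hcon
    push Not at hcon
    have h1 := Pool.Agent.SpecND.norm_le_of_coord (v := l - ξ) hsum
      fun i => (hcon i).le.trans (hle i)
    have h2 := hdist l hl
    rw [dist_eq_norm] at h2
    have h3 : ((d : ℝ) + 1) * (∑ i, T i) < (d + 1) * (∑ i, T i + 1) :=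
      mul_lt_mul_of_pos_left (by linarith) hd
    linarith
  calc ∑ l ∈ F, ‖ft A (l - ξ)‖ ^ 2
      ≤ ∑ l ∈ F, ∑ i : Fin d, (if T i ≤ |(l - ξ) i| then ‖ft A (l - ξ)‖ ^ 2 else 0) := by
        refine Finset.sum_le_sum fun l hl => ?_
        obtain ⟨i, hi⟩ := hex l hl
        have h1 := Finset.single_le_sum (s := Finset.univ)
          (f := fun i : Fin d => if T i ≤ |(l - ξ) i| then ‖ft A (l - ξ)‖ ^ 2 else 0)
          (fun j _ => by
            dsimp only
            split_ifs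
            · positivity
            · exact le_rfl) (Finset.mem_univ i)
        dsimp only at h1
        rwa [if_pos hi] at h1
    _ = ∑ i : Fin d, ∑ l ∈ F, (if T i ≤ |(l - ξ) i| then ‖ft A (l - ξ)‖ ^ 2 else 0) :=
        Finset.sum_comm
    _ ≤ ∑ _i : Fin d, ε / (d + 1) := by
        refine Finset.sum_le_sum fun i _ => ?_
        rw [← Finset.sum_filter]
        refine hT i ξ _ ?_ fun l hl => (Finset.mem_filter.1 hl).2
        intro l hl
        exact hF (Finset.mem_coe.2 (Finset.mem_filter.1 (Finset.mem_coe.1 hl)).1)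
    _ = d * (ε / (d + 1)) := by simp
    _ ≤ ε := by
        rw [← mul_div_assoc, div_le_iff₀ hd]
        nlinarith

end Pool.Agent.SpecAF
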