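import Pool.Agent.Lib.MP_53fa4a_an_AF.Defs
import Pool.Agent.Lib.MP_53fa4a_an.Mass

/-!
# MP_53fa4a_an (project AF): translates of the spectral set have the same mass
-/

set_option autoImplicit false

open MeasureTheory Set Filter Metric
open scoped ENNReal Topology ComplexConjugate

namespace Pool.Agent.SpecAF

open Pool.Agent.SpecND (E ee)

variable {d : ℕ}

/-- Proof. `integral_norm_gs` of `Lib/MP_53fa4a_an/Mass.lean` with `A = F`, `σ = 0`, `t = y`:
`∫_{x ∈ Ω} ‖∑_{l ∈ F} ee (l + 0) (x + y)‖² = #F |Ω|`. Substitute `x = z - y`, divide by `#F ≠ 0`.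
-/
theorem mass_tr {Ω : Set (E d)} (hm : MeasurableSet Ω) (hb : Bornology.IsBounded Ω)
    {Λ : Set (E d)}
    (horth : ∀ l ∈ Λ, ∀ l' ∈ Λ, l ≠ l' → ∫ x in Ω, ee l x * conj (ee l' x) = 0)
    {F : Finset (E d)} (hF : (F : Set (E d)) ⊆ Λ) (hne : F.Nonempty) (y : E d) :
    ∫ z in tr Ω y, ‖∑ l ∈ F, ee l z‖ ^ 2 / (F.card : ℝ) = volume.real Ω := by
  have hfin : volume Ω ≠ ∞ := hb.measure_lt_top.ne
  have h1 := Pool.Agent.SpecND.integral_norm_gs hfin (F := F)
    (fun l hl l' hl' hne => horth l (hF hl) l' (hF hl') hne) (Finset.Subset.refl F) 0 y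
  have h2 : ∀ x, Pool.Agent.SpecND.gs F 0 y x = ∑ l ∈ F, ee l (x + y) := by
    intro x
    unfold Pool.Agent.SpecND.gs
    simp only [add_zero]
  simp only [h2] at h1
  have hpre : (fun x : E d => x + y) ⁻¹' (tr Ω y) = Ω := by
    ext x
    simp [mem_tr]
  have h3 := (measurePreserving_add_right (volume : Measure (E d)) y).setIntegral_preimage_emb
    (measurableEmbedding_addRight y) (fun z => ‖∑ l ∈ F, ee l z‖ ^ 2 / (F.card : ℝ)) (tr Ω y)
  rw [hpre] at h3
  rw [← h3, integral_div, h1]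
  have h4 : (F.card : ℝ) ≠ 0 := by
    have := hne.card_pos
    positivity
  field_simp

end Pool.Agent.SpecAF
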