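import Pool.Agent.Lib.MP_53fa4a_an_AF.DfA
import Pool.Agent.Lib.MP_53fa4a_an_AF.CellB
import Pool.Agent.Lib.MP_53fa4a_an_AF.Conv
import Pool.Agent.Lib.MP_53fa4a_an_AF.ThB
import Pool.Agent.Lib.MP_53fa4a_an_AF.BmA

/-!
# MP_53fa4a_an (project AF): the mean of a difference
-/

set_option autoImplicit false

open MeasureTheory Set Filter Metric
open scoped ENNReal Topology ComplexConjugate

namespace Pool.Agent.SpecAF

open Pool.Agent.SpecND (E ee)

variable {d : ℕ}

/-- Proof. Induction on `l`, generalizing `κ` and `W`. `l = []`: `hm`. `l = F :: l'`: `Df (bm F δ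
:: …) (Th P κ) = Df … (fun y => Th P κ y - Av (bm F δ) (Th P κ) y)`, `Av (bm F δ) (Th P κ) = Th P
(κ ∗ bm F δ)` (`th_conv`), and `κ ∗ bm F δ` is a finite measure with the same total mass
(`conv_univ`, `bm_prob`) and `AT (t + 0) (W ⊔ F) (κ ∗ bm F δ)` (`at_conv`, `bm_at`), `W ⊔ F ∈ L`.
Use `df_sub` and `Mean.sub`: `M (Df …) = κ.real univ * cc m l' W - κ.real univ * cc m l' (W ⊔ F)`.
The same for `Dp` with `dp_add` and `Mean.add`. -/
theorem mean_df {C X P : Set (E d)} {M : (E d → ℝ) → ℝ} (hM : Mean C X M)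
    (hP : MeasurableSet P) {L : Set (Submodule ℝ (E d))}
    (hsup : ∀ W ∈ L, ∀ W' ∈ L, W ⊔ W' ∈ L) {m : Submodule ℝ (E d) → ℝ}
    (hm : ∀ W ∈ L, ∀ t ∈ X, ∀ κ : Measure (E d), IsFiniteMeasure κ → AT t W κ →
      M (Th P κ) = κ.real univ * m W) {δ : ℝ} (hδ : 0 < δ) (l : List (Submodule ℝ (E d)))
    (hl : ∀ F ∈ l, F ∈ L) {t : E d} (ht : t ∈ X) {W : Submodule ℝ (E d)} (hW : W ∈ L)
    {κ : Measure (E d)} [IsFiniteMeasure κ] (h : AT t W κ) :
    M (Df (l.map fun F => bm F δ) (Th P κ)) = κ.real univ * cc m l W ∧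
      M (Dp (l.map fun F => bm F δ) (Th P κ)) = κ.real univ * cp m l W := by
  induction l generalizing κ W with
  | nil =>
    have h1 := hm W hW t ht κ inferInstance h
    exact ⟨h1, h1⟩
  | cons F l ih =>
    have hpF : IsProbabilityMeasure (bm F δ) := bm_prob F hδ
    have hF : F ∈ L := hl F (by simp)
    have hl' : ∀ G ∈ l, G ∈ L := fun G hG => hl G (List.mem_cons_of_mem _ hG)
    have hpr : ∀ α ∈ l.map (fun F => bm F δ), IsProbabilityMeasure α := by
      intro α hα
      obtain ⟨G, _, rfl⟩ := List.mem_map.1 hα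
      exact bm_prob G hδ
    have hfin : IsFiniteMeasure (κ ∗ bm F δ) := by infer_instance
    have hat : AT t (W ⊔ F) (κ ∗ bm F δ) := by
      have h2 := at_conv h (bm_at F δ)
      rwa [add_zero] at h2
    have hmass : (κ ∗ bm F δ).real univ = κ.real univ := by
      rw [conv_univ, probReal_univ (μ := bm F δ), mul_one]
    have h3 := ih hl' hW h
    have h4 := ih hl' (hsup W hW F hF) hat
    have hAv : Av (bm F δ) (Th P κ) = Th P (κ ∗ bm F δ) := by
      funext y
      exact (th_conv hP κ (bm F δ) y).symm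
    have hb1 := bm_th hP κ
    have hb2 := bm_th hP (κ ∗ bm F δ)
    constructor
    · have h5 : Df ((F :: l).map fun F => bm F δ) (Th P κ) = fun y =>
          Df (l.map fun F => bm F δ) (Th P κ) y -
            Df (l.map fun F => bm F δ) (Th P (κ ∗ bm F δ)) y := by
        funext y
        rw [List.map_cons, Df, hAv, df_sub hpr hb1 hb2]
      rw [h5, hM.sub (bm_df hpr hb1).1 (bm_df hpr hb2).1, h3.1, h4.1, hmass, cc]
      ring
    · have h5 : Dp ((F :: l).map fun F => bm F δ) (Th P κ) = fun y =>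
          Dp (l.map fun F => bm F δ) (Th P κ) y +
            Dp (l.map fun F => bm F δ) (Th P (κ ∗ bm F δ)) y := by
        funext y
        rw [List.map_cons, Dp, hAv, dp_add hpr hb1 hb2]
      rw [h5, hM.add _ _ (bm_df hpr hb1).2 (bm_df hpr hb2).2, h3.2, h4.2, hmass, cp]
      ring

end Pool.Agent.SpecAF
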